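import Pool.Agent.H64.NC.SFY
import Pool.Agent.H56.UE.Defs
import Pool.Agent.H64.MJ.CJS

/-!
# Module PER: periodic points in the Julia set have positive upper exponents

`per_pue`: `f` a rational map of one of the families which is not a limit of maps of the family with more attracted critical points: every periodic point in the Julia set
is repelling, so the upper exponent there is positive. Proof: charts in which the cycle is in the plane (`red_gen`, `ga_gen` for the families, `ch_three` for all rational maps).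
-/

set_option autoImplicit false

open Filter Topology Polynomial Metric Set MeasureTheory

namespace Pool.Agent.H64.NC

open Pool.Agent.H44.Fatou (rat rat_continuous rat_coe rat_coe_of_ne)
open Pool.Agent.H56.HR (FS EqAt)
open Pool.Agent.H56.UE (PUE)
open Pool.Agent.H32.BT Pool.Agent.H79.Eul Pool.Agent.H79.Par Pool.Agent.H79.ES Pool.Agent.H35.EX Pool.Agent.H44.RC
open Pool.Agent.H47.RJ Pool.Agent.H47.NN
open Pool.Agent.H47.NM Pool.Agent.H57.CF Pool.Agent.H44.ND Pool.Agent.H3.NC Pool.Agent.H47.PS Pool.Agent.H64.PC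

variable {d : ℕ} {v : E d}

/-- a repelling cycle has a positive upper exponent -/
theorem pue_cyc (hcop : IsCoprime (pol v.1) (pol v.2)) {p : ℕ} (hp : 0 < p) {x : ℕ → ℂ} {m : ℂ}
    (hc : Cyc (pol v.1) (pol v.2) p x m) (hm : 1 < ‖m‖) : PUE (Rf v) (x 0 : OnePoint ℂ) := by
  obtain ⟨-, hinv, N, q, hq, hN⟩ := exp_cyc hp hc hm
  have hf : Continuous (Rf v) := rat_continuous hcop
  obtain ⟨K, hK⟩ : ∃ K : Set (OnePoint ℂ), K = {y | ∃ i < p, (x i : OnePoint ℂ) = y} := ⟨_, rfl⟩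
  rw [← hK] at hinv hN
  have haK : (x 0 : OnePoint ℂ) ∈ K := by
    rw [hK]
    exact ⟨0, hp, rfl⟩
  have hKi : ∀ n : ℕ, (Rf v)^[n] (x 0 : OnePoint ℂ) ∈ K := fun n => hinv.iterate n haK
  have hstep : ∀ j : ℕ, ∀ᶠ y in 𝓝 (x 0 : OnePoint ℂ),
      q ^ j * chord (x 0 : OnePoint ℂ) y ≤ chord ((Rf v)^[N * j] (x 0 : OnePoint ℂ)) ((Rf v)^[N * j] y) := by
    intro j
    induction j with
    | zero =>
      filter_upwards with y
      simp
    | succ j ih =>
      have h1 := (hf.iterate (N * j)).continuousAt.eventually (hN _ (hKi (N * j)))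
      filter_upwards [ih, h1] with y h2 h3
      rw [← Function.iterate_add_apply, ← Function.iterate_add_apply] at h3
      rw [show N * (j + 1) = N + N * j by ring]
      refine le_trans ?_ h3
      rw [pow_succ, mul_comm (q ^ j) q, mul_assoc]
      exact mul_le_mul_of_nonneg_left h2 (by linarith)
  have hN0 : N ≠ 0 := by
    rintro rfl
    have h1 := hN _ haK
    rw [OnePoint.nhds_coe_eq, eventually_map] at h1
    obtain ⟨z, hz1, hz2⟩ := ((h1.filter_mono (nhdsWithin_le_nhds (s := {x 0}ᶜ))).and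
      self_mem_nhdsWithin).exists
    have h2 : 0 < chord (x 0 : OnePoint ℂ) (z : OnePoint ℂ) :=
      chord_pos fun h4 => hz2 (OnePoint.coe_injective h4).symm
    simp only [Function.iterate_zero, id_eq] at hz1
    nlinarith
  have hq0 : (0 : ℝ) ≤ q := by linarith
  refine ⟨q ^ ((N : ℝ)⁻¹), Real.one_lt_rpow hq (by positivity), ?_⟩
  rw [Filter.frequently_atTop]
  intro a
  refine ⟨N * a, Nat.le_mul_of_pos_left _ (Nat.pos_of_ne_zero hN0), ?_⟩
  filter_upwards [hstep a] with y hy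
  rw [pow_mul, Real.rpow_inv_natCast_pow hq0 hN0]
  exact hy

/-- positive upper exponents and bilipschitz conjugacies -/
theorem pue_conj {φ : OnePoint ℂ ≃ₜ OnePoint ℂ} {K : ℝ} {f g : OnePoint ℂ → OnePoint ℂ}
    (bil : ∀ x y, chord (φ x) (φ y) ≤ K * chord x y ∧ chord x y ≤ K * chord (φ x) (φ y))
    (conj : ∀ x, g (φ x) = φ (f x)) {x : OnePoint ℂ} (h : PUE g (φ x)) : PUE f x := by
  obtain ⟨q, hq, hn⟩ := h
  have hK : 0 < K := by
    have h1 : (0 : ℝ) < chord (OnePoint.infty : OnePoint ℂ) ((0 : ℂ) : OnePoint ℂ) :=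
      chord_pos (OnePoint.infty_ne_coe _)
    by_contra h2
    have h3 := (bil OnePoint.infty ((0 : ℂ) : OnePoint ℂ)).2
    have h4 := Pool.Agent.H44.RR.chord_nn (φ OnePoint.infty) (φ ((0 : ℂ) : OnePoint ℂ))
    nlinarith
  obtain ⟨r, hr1, hrq⟩ : ∃ r : ℝ, 1 < r ∧ r < q := exists_between hq
  have hit : ∀ (n : ℕ) (y : OnePoint ℂ), g^[n] (φ y) = φ (f^[n] y) := fun n y => iter_conj φ conj n y
  have hlim : ∀ᶠ n : ℕ in atTop, r ^ n * K ^ 2 ≤ q ^ n := by
    have h1 : Tendsto (fun n : ℕ => (q / r) ^ n) atTop atTop :=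
      tendsto_pow_atTop_atTop_of_one_lt ((one_lt_div (by linarith)).2 hrq)
    filter_upwards [h1.eventually_ge_atTop (K ^ 2)] with n hn
    rw [div_pow, le_div_iff₀ (by positivity)] at hn
    linarith
  refine ⟨r, hr1, (hn.and_eventually hlim).mono ?_⟩
  rintro n ⟨h1, h2⟩
  have h3 := φ.continuous.continuousAt.eventually h1
  filter_upwards [h3] with y hy
  rw [hit, hit] at hy
  have h4 := (bil x y).2
  have h5 := (bil (f^[n] x) (f^[n] y)).1
  have h6 := Pool.Agent.H44.RR.chord_nn (φ x) (φ y)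
  have hq0 : 0 < q ^ n := by positivity
  have h7 : r ^ n * K * chord x y ≤ q ^ n * chord (φ x) (φ y) := by
    calc r ^ n * K * chord x y ≤ r ^ n * K * (K * chord (φ x) (φ y)) :=
          mul_le_mul_of_nonneg_left h4 (by positivity)
      _ = r ^ n * K ^ 2 * chord (φ x) (φ y) := by ring
      _ ≤ _ := mul_le_mul_of_nonneg_right h2 h6
  have h8 : K * (r ^ n * chord x y) ≤ K * chord (f^[n] x) (f^[n] y) := by
    calc K * (r ^ n * chord x y) = r ^ n * K * chord x y := by ring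
      _ ≤ _ := h7.trans (hy.trans h5)
  exact le_of_mul_le_mul_left h8 hK

/-- a periodic orbit in the plane is a planar cycle -/
theorem pl_cyc' {q : OnePoint ℂ} {N : ℕ} (hfin : ∀ i : ℕ, (Rf v)^[i] q ≠ OnePoint.infty)
    (h : (Rf v)^[N] q = q) : ∃ (x : ℕ → ℂ) (m : ℂ),
      Cyc (pol v.1) (pol v.2) N x m ∧ (x 0 : OnePoint ℂ) = q := by
  choose x hx using fun i => OnePoint.ne_infty_iff_exists.1 (hfin i)
  have hst : ∀ i, rat (pol v.1) (pol v.2) (x i : OnePoint ℂ) = (x (i + 1) : OnePoint ℂ) := by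
    intro i
    rw [hx, hx, Function.iterate_succ_apply']
    rfl
  have hne : ∀ i, (pol v.2).eval (x i) ≠ 0 := by
    intro i h0
    have h1 := hst i
    rw [rat_coe, h0] at h1
    unfold Pool.Agent.H44.Fatou.pt at h1
    rw [if_pos rfl] at h1
    exact OnePoint.infty_ne_coe _ h1
  refine ⟨x, _, ⟨fun i _ => hne i, fun i _ => ?_, ?_, rfl⟩, hx 0⟩
  · have h1 := hst i
    rw [rat_coe_of_ne (hne i)] at h1
    exact OnePoint.coe_injective h1
  · apply OnePoint.coe_injective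
    rw [hx, hx, h]
    rfl

/-- the core: the orbit is in the plane -/
theorem per_core (hcop : IsCoprime (pol v.1) (pol v.2))
    (hno : ∀ p : ℕ, 0 < p → ∀ x m, Cyc (pol v.1) (pol v.2) p x m → ‖m‖ ≠ 1)
    (haf : ∀ x, Att (Rf v) x → x ∈ FS (Rf v)) {y : OnePoint ℂ} (hy : y ∈ JS (Rf v)) {p : ℕ} (hp : 0 < p)
    (hfin : ∀ i : ℕ, (Rf v)^[i] y ≠ OnePoint.infty) (hper : (Rf v)^[p] y = y) : PUE (Rf v) y := by
  obtain ⟨x, m, hc, rfl⟩ := pl_cyc' hfin hper
  rcases lt_or_gt_of_ne (hno p hp x m hc) with h1 | h1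
  · exfalso
    exact hy (haf _ (att_sink (cyc_sink hcop hp hc h1)))
  · exact pue_cyc hcop hp hc h1

/-- all rational maps -/
theorem per_up (hd : 2 ≤ d) (hcop : IsCoprime (pol v.1) (pol v.2))
    (hdeg : max (pol v.1).natDegree (pol v.2).natDegree = d) (hup : ¬ Up v)
    {y : OnePoint ℂ} (hy : y ∈ JS (Rf v)) {p : ℕ} (hp : 0 < p) (hper : (Rf v)^[p] y = y) : PUE (Rf v) y := by
  obtain ⟨O, hO⟩ : ∃ O : Set (OnePoint ℂ), O = (fun i => (Rf v)^[i] y) '' Set.Iio p := ⟨_, rfl⟩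
  have hOf : O.Finite := by
    rw [hO]
    exact (Set.finite_Iio p).image _
  have hOa : ∀ i, (Rf v)^[i] y ∈ O := by
    intro i
    rw [hO]
    refine ⟨i % p, Nat.mod_lt _ hp, ?_⟩
    exact Function.IsPeriodicPt.iterate_mod_apply (f := Rf v) (x := y) hper i
  obtain ⟨z, hz⟩ := hOf.infinite_compl.nonempty
  obtain ⟨p1, p2, h12, h1z, h2z⟩ : ∃ p1 p2 : OnePoint ℂ, p1 ≠ p2 ∧ p1 ≠ z ∧ p2 ≠ z := by
    have hinf : (({z} : Set (OnePoint ℂ))ᶜ).Infinite := (finite_singleton z).infinite_compl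
    obtain ⟨p1, hp1⟩ := hinf.nonempty
    obtain ⟨p2, hp2⟩ := (hinf.sdiff (finite_singleton p1)).nonempty
    exact ⟨p1, p2, fun h => hp2.2 h.symm, hp1, hp2.1⟩
  obtain ⟨L, G, φ, K, hch, -, -, -, fi⟩ := ch_three (d := d) hd h12 h1z h2z
  obtain ⟨hcop1, hdeg1, hφ⟩ := hch.conj v hcop hdeg
  have hup1 : ¬ Up (L v) := fun h =>
    hup (up_chart hd hch.cG hch.invL hch.invR (fun v h3 h4 => (hch.conj v h3 h4).2.2) hcop hdeg h)
  have hFS : ∀ x, φ x ∈ FS (Rf (L v)) ↔ x ∈ FS (Rf v) := fun x => Pool.Agent.H76.SU.fs_conj hch.bil hφ x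
  have hit : ∀ (n : ℕ) (x : OnePoint ℂ), (Rf (L v))^[n] (φ x) = φ ((Rf v)^[n] x) :=
    fun n x => iter_conj φ hφ n x
  refine pue_conj hch.bil hφ (per_core hcop1
    (fun p hp x m hcy hm => hup1 (Pool.Agent.H44.CP.neu_up hd hcop1 hdeg1 hp hcy hm))
    (fun x hx => Pool.Agent.H44.NR.att_in hd hcop1 hdeg1 hup1 hx) (fun h => hy ((hFS y).1 h)) hp ?_ ?_)
  · intro i h
    rw [hit, ← fi] at h
    exact hz (φ.injective h ▸ hOa i)
  · rw [hit, hper]

/-- the periodic points in the Julia set, all families -/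
theorem per_pue {m : ℕ} (hd : 2 ≤ d) (hm : m ≤ d) {x : Em d m} (hcop : IsCoprime (pol x.1) (pol x.2))
    (hdeg : max (pol x.1).natDegree (pol x.2).natDegree = d) (hup : ¬ UpF d m x)
    {y : OnePoint ℂ} (hy : y ∈ JS (Rf (ex d m x))) {p : ℕ} (hp : 0 < p)
    (hper : (Rf (ex d m x))^[p] y = y) : PUE (Rf (ex d m x)) y := by
  have hcop' := ex_cop hcop
  have hdeg' := ex_deg hdeg
  rcases Nat.lt_or_ge m 2 with h2 | h2
  · rcases Nat.lt_or_ge m 1 with h1 | h1
    · obtain rfl : m = 0 := by omega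
      exact per_up hd hcop' hdeg' (fun h => hup (up_zero h)) hy hp hper
    · obtain rfl : m = 1 := by omega
      exact per_up hd hcop' hdeg' (fun h => hup (Pool.Agent.H64.PF.up_one hd hcop hdeg h)) hy hp hper
  · obtain ⟨l, z, φ, K, hl, hld, hg, hK, hφ, hup'⟩ := red_gen hd h2 hm hcop hdeg
    have hupz : ¬ UpF d l z := fun h => hup (hup' h)
    obtain ⟨T, hGA⟩ := ga_gen hd hl hld hg hupz
    have hFS : ∀ x', φ x' ∈ FS (Rf (ex d l z)) ↔ x' ∈ FS (Rf (ex d m x)) :=
      fun x' => Pool.Agent.H76.SU.fs_conj hK hφ x'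
    have hyJ : φ y ∈ JS (Rf (ex d l z)) := fun h => hy ((hFS y).1 h)
    refine pue_conj hK hφ (per_core hGA.cop hGA.no hGA.af hyJ hp (fun i h => ?_) ?_)
    · have h3 := hGA.js i hyJ
      rw [h] at h3
      exact h3 hGA.fi
    · rw [iter_conj φ hφ, hper]

end Pool.Agent.H64.NC
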