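import Pool.Agent.H44.RR.CHC
import Pool.Agent.H44.RR.UNI

/-!
# Module CHU: uniform continuity and separation for the chordal distance

`ch_uc`: finitely many iterates of a continuous map of the sphere are uniformly continuous for `chord`. `ch_sep`: disjoint closed sets have a positive chordal distance.
-/

set_option autoImplicit false

open Filter Topology Metric Set

namespace Pool.Agent.H64.NC

open Pool.Agent.H35.EX Pool.Agent.H44.RR

theorem ch_sep {A B : Set (OnePoint ℂ)} (hA : IsClosed A) (hB : IsClosed B) (hAB : Disjoint A B) :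
    ∃ δ : ℝ, 0 < δ ∧ ∀ x ∈ A, ∀ y ∈ B, δ ≤ chord x y := by
  have hc : IsCompact (A ×ˢ B) := (hA.prod hB).isCompact
  rcases (A ×ˢ B).eq_empty_or_nonempty with h0 | hne
  · refine ⟨1, one_pos, fun x hx y hy => ?_⟩
    have h1 : (x, y) ∈ A ×ˢ B := ⟨hx, hy⟩
    rw [h0] at h1
    exact absurd h1 (notMem_empty _)
  · obtain ⟨p, hp, hmin⟩ := hc.exists_isMinOn hne chord_cont.continuousOn
    refine ⟨chord p.1 p.2, ?_, fun x hx y hy => ?_⟩
    · rcases (chord_nn p.1 p.2).eq_or_lt with h | h
      · exfalso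
        have h1 := chord_eqz h.symm
        exact Set.disjoint_left.1 hAB hp.1 (h1 ▸ hp.2)
      · exact h
    · exact isMinOn_iff.1 hmin (x, y) ⟨hx, hy⟩

theorem ch_uc1 {g : OnePoint ℂ → OnePoint ℂ} (hg : Continuous g) {δ : ℝ} (hδ : 0 < δ) :
    ∃ η : ℝ, 0 < η ∧ ∀ x y, chord x y < η → chord (g x) (g y) < δ := by
  obtain ⟨K, hK⟩ : ∃ K : Set (OnePoint ℂ × OnePoint ℂ), K = {p | δ ≤ chord (g p.1) (g p.2)} := ⟨_, rfl⟩
  have hKc : IsCompact K := by
    rw [hK]
    exact (isClosed_le continuous_const (chord_cont.comp ((hg.comp continuous_fst).prodMk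
      (hg.comp continuous_snd)))).isCompact
  rcases K.eq_empty_or_nonempty with h0 | hne
  · refine ⟨1, one_pos, fun x y _ => ?_⟩
    by_contra h
    have h1 : (x, y) ∈ K := by rw [hK]; exact not_lt.1 h
    rw [h0] at h1
    exact absurd h1 (notMem_empty _)
  · obtain ⟨p, hp, hmin⟩ := hKc.exists_isMinOn hne chord_cont.continuousOn
    refine ⟨chord p.1 p.2, ?_, fun x y hxy => ?_⟩
    · rcases (chord_nn p.1 p.2).eq_or_lt with h | h
      · exfalso
        have h1 := chord_eqz h.symm
        rw [hK] at hp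
        have h2 : δ ≤ chord (g p.1) (g p.2) := hp
        rw [h1] at h2
        have h3 : chord (g p.2) (g p.2) = 0 := by
          induction g p.2 using OnePoint.rec with
          | infty => rfl
          | coe z =>
            show ‖z - z‖ / (√(1 + ‖z‖ ^ 2) * √(1 + ‖z‖ ^ 2)) = 0
            rw [sub_self, norm_zero, zero_div]
        rw [h3] at h2
        linarith
      · exact h
    · by_contra h
      have h1 : (x, y) ∈ K := by rw [hK]; exact not_lt.1 h
      have h2 := isMinOn_iff.1 hmin (x, y) h1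
      exact absurd hxy (not_lt.2 h2)

theorem ch_uc {f : OnePoint ℂ → OnePoint ℂ} (hf : Continuous f) (l : ℕ) {δ : ℝ} (hδ : 0 < δ) :
    ∃ η : ℝ, 0 < η ∧ ∀ x y, chord x y < η → ∀ i ≤ l, chord (f^[i] x) (f^[i] y) < δ := by
  induction l with
  | zero =>
    refine ⟨δ, hδ, fun x y hxy i hi => ?_⟩
    have h0 : i = 0 := by omega
    subst h0
    exact hxy
  | succ l ih =>
    obtain ⟨η1, h1, h2⟩ := ih
    obtain ⟨η2, h3, h4⟩ := ch_uc1 (hf.iterate (l + 1)) hδ
    refine ⟨min η1 η2, lt_min h1 h3, fun x y hxy i hi => ?_⟩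
    rcases Nat.lt_or_ge i (l + 1) with h | h
    · exact h2 x y (hxy.trans_le (min_le_left _ _)) i (by omega)
    · have h5 : i = l + 1 := by omega
      rw [h5]
      exact h4 x y (hxy.trans_le (min_le_right _ _))

end Pool.Agent.H64.NC
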