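import Pool.Agent.H64.NC.FNC
import Pool.Agent.H64.NC.CHU
import Pool.Agent.H64.PF.ONE
import Pool.Agent.H3.NC.UNI
import Pool.Agent.H3.NC.PRC

/-!
# Module DCH: persistent recurrence for all families, `m ≤ d`, Julia set not the sphere

`hfat_of`: attracted critical points stay away from the Julia set. `up_zero`, `up_one`: `Up` in the families `m = 0`, `m = 1`. `pr_all`: a map which is not a limit of maps of the family with more attracted
critical points, with non-empty Fatou set: all Julia critical points are persistently recurrent.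
-/

set_option autoImplicit false

open Filter Topology Polynomial Metric Set MeasureTheory

namespace Pool.Agent.H64.NC

open Pool.Agent.H44.Fatou (rat rat_continuous)
open Pool.Agent.H56.HR (FS EqAt)
open Pool.Agent.H32.BT Pool.Agent.H79.Eul Pool.Agent.H79.Par Pool.Agent.H79.ES Pool.Agent.H44.RC
open Pool.Agent.H47.NM Pool.Agent.H57.CF Pool.Agent.H44.ND Pool.Agent.H35.EX Pool.Agent.H47.RJ
open Pool.Agent.H3.NC (Wk CT PR Uni CnS uni prc)

variable {d : ℕ} {v : E d}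

theorem hfat_of (hd : 2 ≤ d) (hcop : IsCoprime (pol v.1) (pol v.2))
    (hdeg : max (pol v.1).natDegree (pol v.2).natDegree = d) (hfa : ∀ x ∈ FS (Rf v), Att (Rf v) x)
    (haf : ∀ x, Att (Rf v) x → x ∈ FS (Rf v)) :
    ∀ c, IsCrit (Rf v) c → c ∉ JS (Rf v) → ∃ (δ : ℝ) (N : ℕ), 0 < δ ∧ ∀ m, N ≤ m → ∀ y ∈ JS (Rf v),
      δ ≤ chord ((Rf v)^[m] c) y := by
  intro c _ hcJ
  obtain ⟨F, hF1, hF2, hF3⟩ := Pool.Agent.H44.NR.orb_cl hd hcop hdeg (hfa c (not_not.1 hcJ))
  have hdis : Disjoint F (JS (Rf v)) := by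
    rw [Set.disjoint_left]
    intro x hx hxJ
    exact hxJ (haf x (hF2 x hx))
  obtain ⟨δ, hδ, h⟩ := ch_sep hF1 (js_closed _) hdis
  exact ⟨δ, 0, hδ, fun m _ y hy => h _ (hF3 m) y hy⟩

/-- persistent recurrence from the absence of conical critical values -/
theorem pr_of (hd : 2 ≤ d) (hcop : IsCoprime (pol v.1) (pol v.2))
    (hdeg : max (pol v.1).natDegree (pol v.2).natDegree = d) (hfa : ∀ x ∈ FS (Rf v), Att (Rf v) x)
    (haf : ∀ x, Att (Rf v) x → x ∈ FS (Rf v))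
    (hnc : ∀ c, IsCrit (Rf v) c → c ∈ JS (Rf v) → ¬ ConAt (Rf v) (Rf v c)) :
    ∀ c, IsCrit (Rf v) c → c ∈ JS (Rf v) → PR (Rf v) c := by
  refine prc (rat_continuous hcop) (crit_finite hcop (by rw [hdeg]; omega)) ?_ ?_
    (hfat_of hd hcop hdeg hfa haf) hnc
  · intro x hx h1
    exact hx ((fs_iff (by omega) hcop hdeg 1 x).1 h1)
  · intro x n δ hδ hδ1 hc
    exact uni hcop (by rw [hdeg]; omega) hδ hδ1 hc

theorem ex_zero (x : Em d 0) : ex d 0 x = x := by
  refine Prod.ext rfl (funext fun i => ?_)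
  unfold ex
  have hi : (i : ℕ) < d - 0 + 1 := i.2
  simp only [hi, dite_true]
  rfl

theorem up_zero {x : Em d 0} (hup : Up (ex d 0 x)) : UpF d 0 x := by
  intro ε hε
  obtain ⟨w, hw, h1, h2, h3⟩ := hup ε hε
  refine ⟨w, ?_, h1, h2, ?_⟩
  · have h4 : ex d 0 x = x := ex_zero x
    rw [h4] at hw
    exact hw
  · have h4 : ex d 0 w = w := ex_zero w
    rw [h4]
    exact h3

/-- all families -/
theorem pr_all {m : ℕ} (hd : 2 ≤ d) (hm : m ≤ d) {x : Em d m} (hcop : IsCoprime (pol x.1) (pol x.2))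
    (hdeg : max (pol x.1).natDegree (pol x.2).natDegree = d) (hup : ¬ UpF d m x)
    (hF : (FS (Rf (ex d m x))).Nonempty) :
    ∀ c, IsCrit (Rf (ex d m x)) c → c ∈ JS (Rf (ex d m x)) → PR (Rf (ex d m x)) c := by
  have hcop' := ex_cop hcop
  have hdeg' := ex_deg hdeg
  have key : ¬ Up (ex d m x) → ∀ c, IsCrit (Rf (ex d m x)) c → c ∈ JS (Rf (ex d m x)) → PR (Rf (ex d m x)) c := by
    intro hup1
    exact pr_of hd hcop' hdeg' (fun y hy => Pool.Agent.H64.MJ.fs_att hd hcop' hdeg' hup1 hy)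
      (fun y hy => Pool.Agent.H44.NR.att_in hd hcop' hdeg' hup1 hy)
      fun c hc hcJ => nc_up hd hcop' hdeg' hup1 hF hc hcJ
  rcases Nat.lt_or_ge m 2 with h2 | h2
  · rcases Nat.lt_or_ge m 1 with h1 | h1
    · obtain rfl : m = 0 := by omega
      exact key fun h => hup (up_zero h)
    · obtain rfl : m = 1 := by omega
      exact key fun h => hup (Pool.Agent.H64.PF.up_one hd hcop hdeg h)
  · refine pr_of hd hcop' hdeg' (fun y hy => Pool.Agent.H64.MF.fs_attF hd
      (fun k h3 h4 => Pool.Agent.H56.HF.fatF hd h3 h4) h2 hm hcop hdeg hup hy) (fun y hy => ?_)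
      fun c hc hcJ => nc_upF hd h2 hm hcop hdeg hup hc hcJ
    obtain ⟨l, z, φ, K, hl, hld, hg, hK, hφ, hup'⟩ := red_gen hd h2 hm hcop hdeg
    have hupz : ¬ UpF d l z := fun h => hup (hup' h)
    obtain ⟨T, hGA⟩ := ga_gen hd hl hld hg hupz
    have h3 : φ y ∈ FS (Rf (ex d l z)) := hGA.af _ ((att_conj φ hφ y).2 hy)
    exact (Pool.Agent.H76.SU.fs_conj hK hφ y).1 h3

end Pool.Agent.H64.NC
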