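import Pool.Agent.H64.NC.SFM
import Pool.Agent.H64.NC.DCH

/-!
# Module SFN: THEOREM NC and persistent recurrence without hypotheses on the Julia set

`SphF`: the statement of the sphere part (H78/NS). `nc_all`: no conical critical value, all locally maximal maps. `pr_fam`: persistent recurrence for all families.
-/

set_option autoImplicit false

open Filter Topology Polynomial Metric Set MeasureTheory

namespace Pool.Agent.H64.NC

open Pool.Agent.H56.HR (FS EqAt)
open Pool.Agent.H32.BT Pool.Agent.H79.Eul Pool.Agent.H79.Par Pool.Agent.H79.ES Pool.Agent.H44.RC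
open Pool.Agent.H47.NM Pool.Agent.H57.CF Pool.Agent.H44.ND Pool.Agent.H3.NC
open Pool.Agent.H78.NS (SP CD PasS)

variable {d : ℕ}

/-- the statement of the sphere part -/
def SphF : Prop := ∀ (d : ℕ) (a b : Polynomial ℂ) (L0 θ : ℝ) (c y : ℂ) (δ : ℝ), SP d a b L0 θ → CD a b c y δ →
  PasS d a b c → False

/-- no conical critical value -/
theorem nc_all (hS : SphF) (hd : 2 ≤ d) {v : E d} (hcop : IsCoprime (pol v.1) (pol v.2))
    (hdeg : max (pol v.1).natDegree (pol v.2).natDegree = d) (hup : ¬ Up v)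
    {c : OnePoint ℂ} (hc : IsCrit (Rf v) c) (hcJ : c ∈ JS (Rf v)) : ¬ ConAt (Rf v) (Rf v c) := by
  by_cases hF : (FS (Rf v)).Nonempty
  · exact nc_up hd hcop hdeg hup hF hc hcJ
  · intro hC
    have hJ : JS (Rf v) = univ := by
      show (FS (Rf v))ᶜ = univ
      rw [Set.not_nonempty_iff_eq_empty.1 hF, Set.compl_empty]
    obtain ⟨u, c1, y, δ, L0, θ, h1, h2, h3⟩ := sph_chart hd hcop hdeg hup hJ hc hC
    exact hS d _ _ L0 θ c1 y δ h1 h2 h3

/-- persistent recurrence, all families -/
theorem pr_fam (hS : SphF) {m : ℕ} (hd : 2 ≤ d) (hm : m ≤ d) {x : Em d m} (hcop : IsCoprime (pol x.1) (pol x.2))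
    (hdeg : max (pol x.1).natDegree (pol x.2).natDegree = d) (hup : ¬ UpF d m x) :
    ∀ c, IsCrit (Rf (ex d m x)) c → c ∈ JS (Rf (ex d m x)) → PR (Rf (ex d m x)) c := by
  by_cases hF : (FS (Rf (ex d m x))).Nonempty
  · exact pr_all hd hm hcop hdeg hup hF
  · have hcop' := ex_cop hcop
    have hdeg' := ex_deg hdeg
    have key : ¬ Up (ex d m x) → ∀ c, IsCrit (Rf (ex d m x)) c → c ∈ JS (Rf (ex d m x)) →
        PR (Rf (ex d m x)) c := by
      intro hup1
      exact pr_of hd hcop' hdeg' (fun y hy => Pool.Agent.H64.MJ.fs_att hd hcop' hdeg' hup1 hy)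
        (fun y hy => Pool.Agent.H44.NR.att_in hd hcop' hdeg' hup1 hy)
        fun c hc hcJ => nc_all hS hd hcop' hdeg' hup1 hc hcJ
    rcases Nat.lt_or_ge m 2 with h2 | h2
    · rcases Nat.lt_or_ge m 1 with h1 | h1
      · obtain rfl : m = 0 := by omega
        exact key fun h => hup (up_zero h)
      · obtain rfl : m = 1 := by omega
        exact key fun h => hup (Pool.Agent.H64.PF.up_one hd hcop hdeg h)
    · exfalso
      apply hF
      obtain ⟨l, z, φ, K, hl, hld, hg, hK, hφ, hup'⟩ := red_gen hd h2 hm hcop hdeg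
      have hupz : ¬ UpF d l z := fun h => hup (hup' h)
      obtain ⟨T, hGA⟩ := ga_gen hd hl hld hg hupz
      refine ⟨φ.symm OnePoint.infty, (Pool.Agent.H76.SU.fs_conj hK hφ _).1 ?_⟩
      rw [Homeomorph.apply_symm_apply]
      exact hGA.fi

end Pool.Agent.H64.NC
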