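import Pool.Agent.H64.NC.SFN
import Pool.Agent.H78.NS.Main

/-!
# Module SFZ: persistent recurrence for all families and all Julia sets

`sphF`: the sphere part (`sph_false`, H78/NS/Main). `pr_end`: a map which is not a limit of maps of the family with more attracted critical points: all Julia critical points are persistently recurrent.
-/

set_option autoImplicit false

open Filter Topology Polynomial Metric Set MeasureTheory

namespace Pool.Agent.H64.NC

open Pool.Agent.H56.HR (FS EqAt)
open Pool.Agent.H32.BT Pool.Agent.H79.Eul Pool.Agent.H79.Par Pool.Agent.H79.ES Pool.Agent.H44.RC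
open Pool.Agent.H47.NM Pool.Agent.H57.CF Pool.Agent.H44.ND Pool.Agent.H3.NC

variable {d : ℕ}

theorem sphF : SphF := fun _ _ _ _ _ _ _ _ h1 h2 h3 => Pool.Agent.H78.NS.sph_false h1 h2 h3

/-- no conical critical value -/
theorem nc_end (hd : 2 ≤ d) {v : E d} (hcop : IsCoprime (pol v.1) (pol v.2))
    (hdeg : max (pol v.1).natDegree (pol v.2).natDegree = d) (hup : ¬ Up v)
    {c : OnePoint ℂ} (hc : IsCrit (Rf v) c) (hcJ : c ∈ JS (Rf v)) : ¬ ConAt (Rf v) (Rf v c) :=
  nc_all sphF hd hcop hdeg hup hc hcJ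

/-- persistent recurrence, all families -/
theorem pr_end {m : ℕ} (hd : 2 ≤ d) (hm : m ≤ d) {x : Em d m} (hcop : IsCoprime (pol x.1) (pol x.2))
    (hdeg : max (pol x.1).natDegree (pol x.2).natDegree = d) (hup : ¬ UpF d m x) :
    ∀ c, IsCrit (Rf (ex d m x)) c → c ∈ JS (Rf (ex d m x)) → PR (Rf (ex d m x)) c :=
  pr_fam sphF hd hm hcop hdeg hup

end Pool.Agent.H64.NC
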