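import Pool.Agent.H64.NC.VX
import Pool.Agent.H3.NC.Defs
import Pool.Agent.H44.CP.MVL
import Pool.Agent.H57.CF.VLF
import Pool.Agent.H61.TT.Surj
import Pool.Agent.H79.GP.GTF

/-!
# Module PAS: the Julia critical points of locally maximal maps are passive

`pas`: bounded velocities of the repelling cycles (`VBd`) and repelling cycles near the critical point (`RNr`) give `Pas` (H3/NC/Defs).
`vbd_up` (all rational maps, infinity attracted), `vbd_upF` (families, infinity superattracting): `VBd`.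
-/

set_option autoImplicit false

open Filter Topology Polynomial Metric Set

namespace Pool.Agent.H64.NC

open Pool.Agent.H44.Fatou (rat ev wv)
open Pool.Agent.H32.BT Pool.Agent.H79.Eul Pool.Agent.H79.Par Pool.Agent.H47.NN Pool.Agent.H44.ND
open Pool.Agent.H47.NM Pool.Agent.H79.ES Pool.Agent.H35.EX
open Pool.Agent.H61.TT Pool.Agent.H57.CP Pool.Agent.H3.NC Pool.Agent.H57.CF

theorem pas {a b : Polynomial ℂ} {e : ℕ} {c : ℂ} (hV : VBd a b e) (hR : RNr a b c)
    (hb : ∀ j, b.eval ((gg a b)^[j] c) ≠ 0) (hc : (ww a b).eval c = 0) : Pas e a b c := by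
  intro η hη
  obtain ⟨z, hz⟩ : ∃ z : ℕ → ℂ, z = fun j => (gg a b)^[j] c := ⟨_, rfl⟩
  have hz0 : z 0 = c := by rw [hz]; rfl
  have hzs : ∀ j, z (j + 1) = a.eval (z j) / b.eval (z j) := by
    intro j
    rw [hz]
    show (gg a b)^[j + 1] c = gg a b ((gg a b)^[j] c)
    rw [Function.iterate_succ_apply']
  have hzb : ∀ j, b.eval (z j) ≠ 0 := by rw [hz]; exact hb
  obtain ⟨C, hC0, hC⟩ := vx_one hV hR hz0 hzs hzb hc hη
  have hPD : ∀ n, PD a b z n = tD a b n (gg a b c) := by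
    intro n
    unfold PD tD
    refine Finset.prod_congr rfl fun i _ => ?_
    rw [hz]
    show dg a b ((gg a b)^[i + 1] c) = _
    rw [Function.iterate_succ_apply]
  refine ⟨C, fun n => ?_⟩
  by_cases h0 : tD a b n (gg a b c) = 0
  · rw [h0, norm_zero, mul_zero]
    exact hC0
  · have hn : ∀ i < n, dg a b (z (i + 1)) ≠ 0 := by
      intro i hi h1
      apply h0
      rw [← hPD]
      unfold PD
      exact Finset.prod_eq_zero (Finset.mem_range.2 hi) h1
    have h1 := vx_lam (w := η) hn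
    have h2 : Lam a b η c n = dg a b (z 0) * 0 + η.eval (z 0) / b.eval (z 0) ^ 2 +
        ∑ k ∈ Finset.range n, (η.eval (z (k + 1)) / b.eval (z (k + 1)) ^ 2) / PD a b z (k + 1) := by
      unfold Lam
      rw [Finset.sum_range_succ', add_comm, mul_zero, zero_add]
      congr 1
      · show η.eval c / b.eval c ^ 2 / tD a b 0 (gg a b c) = _
        rw [hz0]
        unfold tD
        rw [Finset.prod_range_zero, div_one]
      · refine Finset.sum_congr rfl fun k _ => ?_
        rw [hPD, hz]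
    rw [← h2, hPD] at h1
    rw [← norm_mul, mul_comm, ← h1]
    exact hC (n + 1)

theorem dg_wv {d : ℕ} (v : E d) (z : ℂ) : dg (pol v.1) (pol v.2) z = wv v z / ev v.2 z ^ 2 := by
  unfold dg
  rw [wv_pol, ev_pol]

/-- all rational maps -/
theorem vbd_up {d : ℕ} (hd : 2 ≤ d) {v : E d} (hcop : IsCoprime (pol v.1) (pol v.2))
    (hdeg : max (pol v.1).natDegree (pol v.2).natDegree = d) (hup : ¬ Up v)
    (hinf : Att (Rf v) OnePoint.infty) : VBd (pol v.1) (pol v.2) (2 * d) := by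
  intro w hw
  obtain ⟨R, -, -, hvel⟩ := Pool.Agent.H44.CP.vel hd hcop hdeg hup hinf
  obtain ⟨w', hw'⟩ := xi_surj (v0 := v) ⟨hd, hcop, hdeg⟩ hw
  obtain ⟨C, -, hC⟩ := hvel w'
  refine ⟨C, fun p x m hp hc hm => ?_⟩
  obtain ⟨u, h1, h2, h3⟩ := hC p x m hp hc hm
  refine ⟨u, h1, h2, fun i hi => ?_⟩
  rw [h3 i hi, hw', dg_wv]

/-- the families -/
theorem vbd_upF {d k : ℕ} (hd : 2 ≤ d) (hk : 2 ≤ k) (hkd : k ≤ d) {x : Em d k}
    (hg : GenM d k (pol x.1) (pol x.2)) (hup : ¬ UpF d k x) :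
    VBd (pol (ex d k x).1) (pol (ex d k x).2) (2 * d - k) := by
  intro w hw
  obtain ⟨-, hvel⟩ := velF hd hk hkd hg hup
  have hF := fam_ex hk hkd hg
  obtain ⟨w', hw', hxi⟩ := Pool.Agent.H79.GP.xi_surjm hd hF hw
  obtain ⟨y, hy⟩ : ∃ y : Em d k, ex d k y = w' := by
    refine ⟨(w'.1, fun i => w'.2 ⟨i, by omega⟩), ?_⟩
    refine Prod.ext rfl (funext fun i => ?_)
    unfold ex
    by_cases h : (i : ℕ) < d - k + 1
    · simp only [h, dite_true]
    · simp only [h, dite_false]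
      exact (hw' i (by omega)).symm
  obtain ⟨C, -, hC⟩ := hvel y
  refine ⟨C, fun p z m hp hc hm => ?_⟩
  obtain ⟨u, h1, h2, h3⟩ := hC p z m hp hc hm
  refine ⟨u, h1, h2, fun i hi => ?_⟩
  rw [h3 i hi, hy, hxi, dg_wv]

end Pool.Agent.H64.NC
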