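import Pool.Agent.H64.NC.CHU
import Pool.Agent.H3.NC.Sph
import Pool.Agent.H44.RC.RCD
import Pool.Agent.H32.BT.Top

/-!
# Module PRT: transport of the Julia set and of persistent recurrence by a conjugacy of the sphere
-/

set_option autoImplicit false

open Filter Topology Metric Set

namespace Pool.Agent.H64.NC

open Pool.Agent.H35.EX Pool.Agent.H44.RR Pool.Agent.H32.BT Pool.Agent.H56.HR Pool.Agent.H44.RC
open Pool.Agent.H3.NC (Wk CT PR)

variable {f g : OnePoint ℂ → OnePoint ℂ} (h : OnePoint ℂ ≃ₜ OnePoint ℂ)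

theorem eq_at_conj (hfg : ∀ x, h (f x) = g (h x)) {x : OnePoint ℂ} (hx : EqAt f x) : EqAt g (h x) := by
  intro ε hε
  obtain ⟨η, hη, h1⟩ := ch_uc1 h.continuous hε
  have h2 := hx η hη
  have hit : ∀ (n : ℕ) (y : OnePoint ℂ), g^[n] (h y) = h (f^[n] y) := iter_conj h fun y => (hfg y).symm
  have h3 : ∀ᶠ y in 𝓝 (h x), ∀ n : ℕ, chord (f^[n] x) (f^[n] (h.symm y)) < η := by
    have h4 : Tendsto h.symm (𝓝 (h x)) (𝓝 x) := by
      have h5 := h.symm.continuous.tendsto (h x)
      rwa [h.symm_apply_apply] at h5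
    exact h4.eventually h2
  filter_upwards [h3] with y hy n
  have h4 := h1 _ _ (hy n)
  rw [← hit, ← hit, h.apply_symm_apply] at h4
  exact h4

theorem fs_conj1 (hfg : ∀ x, h (f x) = g (h x)) {x : OnePoint ℂ} (hx : x ∈ FS f) : h x ∈ FS g := by
  have h1 : h '' FS f ⊆ {y | EqAt g y} := by
    rintro _ ⟨y, hy, rfl⟩
    exact eq_at_conj h hfg (interior_subset hy)
  have h2 : IsOpen (h '' FS f) := h.isOpenMap _ isOpen_interior
  exact interior_maximal h1 h2 ⟨x, hx, rfl⟩

theorem symm_conj (hfg : ∀ x, h (f x) = g (h x)) : ∀ x, h.symm (g x) = f (h.symm x) := by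
  intro x
  apply h.injective
  rw [h.apply_symm_apply, hfg, h.apply_symm_apply]

theorem fs_conj2 (hfg : ∀ x, h (f x) = g (h x)) (x : OnePoint ℂ) : h x ∈ FS g ↔ x ∈ FS f := by
  refine ⟨fun hx => ?_, fs_conj1 h hfg⟩
  have h1 := fs_conj1 h.symm (symm_conj h hfg) hx
  rwa [h.symm_apply_apply] at h1

theorem js_conj (hfg : ∀ x, h (f x) = g (h x)) (x : OnePoint ℂ) : h x ∈ JS g ↔ x ∈ JS f :=
  not_congr (fs_conj2 h hfg x)

/-- persistent recurrence is invariant -/
theorem pr_conj (hfg : ∀ x, h (f x) = g (h x)) {c : OnePoint ℂ} (hc : PR g (h c)) : PR f c := by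
  intro δ hδ D
  obtain ⟨η, hη, h1⟩ := ch_uc1 h.symm.continuous hδ
  have hit : ∀ (n : ℕ) (y : OnePoint ℂ), g^[n] (h y) = h (f^[n] y) := iter_conj h fun y => (hfg y).symm
  refine (hc η hη D).subset ?_
  intro n hn
  have hn' : (CT f (f c) n δ).ncard ≤ D := hn
  show (CT g (g (h c)) n η).ncard ≤ D
  refine (Set.ncard_le_ncard ?_ ?_).trans hn'
  · rintro k ⟨hk, c', hc', hcW⟩
    refine ⟨hk, h.symm c', ?_, ?_⟩
    · have h2 := isCrit_conj h (fun y => (hfg y).symm) (h.symm c')
      rw [h.apply_symm_apply] at h2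
      exact h2.1 hc'
    · unfold Wk at hcW ⊢
      have h3 : h.symm '' (connectedComponentIn {z | chord (g^[n - k] z) (g^[n] (g (h c))) < η} (g^[k] (g (h c)))) ⊆
          connectedComponentIn {z | chord (f^[n - k] z) (f^[n] (f c)) < δ} (f^[k] (f c)) := by
        have hmem : g^[k] (g (h c)) ∈ connectedComponentIn {z | chord (g^[n - k] z) (g^[n] (g (h c))) < η}
            (g^[k] (g (h c))) := by
          by_contra hno
          have h4 : connectedComponentIn {z | chord (g^[n - k] z) (g^[n] (g (h c))) < η} (g^[k] (g (h c))) = ∅ := by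
            apply connectedComponentIn_eq_empty
            intro h5
            exact hno (mem_connectedComponentIn h5)
          rw [h4] at hcW
          exact hcW
        refine IsPreconnected.subset_connectedComponentIn
          (isPreconnected_connectedComponentIn.image _ h.symm.continuous.continuousOn) ?_ ?_
        · refine ⟨g^[k] (g (h c)), hmem, ?_⟩
          rw [← hfg, hit, h.symm_apply_apply]
        · rintro _ ⟨z, hz, rfl⟩
          have h5 : z ∈ {z | chord (g^[n - k] z) (g^[n] (g (h c))) < η} := connectedComponentIn_subset _ _ hz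
          have h6 := h1 _ _ h5
          have e1 : h.symm (g^[n - k] z) = f^[n - k] (h.symm z) := by
            apply h.injective
            rw [h.apply_symm_apply, ← hit, h.apply_symm_apply]
          have e2 : h.symm (g^[n] (g (h c))) = f^[n] (f c) := by
            rw [← hfg, hit, h.symm_apply_apply]
          rw [e1, e2] at h6
          exact h6
      exact h3 ⟨c', hcW, rfl⟩
  · exact (Set.finite_Iio n).subset fun k hk => hk.1

end Pool.Agent.H64.NC
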