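import Pool.Agent.H64.NC.SFP
import Pool.Agent.H44.NR.Pdj

/-!
# Module SFM: the chart (Julia set = sphere)

`sph_chart`: a locally maximal map with Julia set = sphere and a critical point whose value is conical has a chart in which `0`, `1`, `∞` are fixed and all data of H78/NS hold: `SP`, `CD`, `PasS`. Three fixed points `q1`, `q2`, `q3` (`three_fix`), `q3` not the limit of the conical times, go to `0`, `1`, `∞`;
`p4`, `p5` are other periodic points: the velocities of the points which land at `p4` are bounded (`vb`).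
-/

set_option autoImplicit false

open Filter Topology Polynomial Metric Set MeasureTheory

namespace Pool.Agent.H64.NC

open Pool.Agent.H44.Fatou (rat rat_continuous rat_coe rat_coe_of_ne pt crit_coe)
open Pool.Agent.H32.BT Pool.Agent.H79.Eul Pool.Agent.H79.Par
open Pool.Agent.H35.EX Pool.Agent.H44.RR Pool.Agent.H56.HR Pool.Agent.H44.RC Pool.Agent.H47.RJ
open Pool.Agent.H47.NM Pool.Agent.H47.NN Pool.Agent.H44.ND Pool.Agent.H79.ES Pool.Agent.H44.RG
open Pool.Agent.H44.CP Pool.Agent.H47.PS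
open Pool.Agent.H61.TT Pool.Agent.H57.CP Pool.Agent.H3.NC Pool.Agent.H78.NS

variable {d : ℕ} {v : E d}

/-- a limit of conical times -/
theorem con_lim {f : OnePoint ℂ → OnePoint ℂ} {x : OnePoint ℂ} (h : ConAt f x) : ∃ δ : ℝ, 0 < δ ∧
    ∃ y : OnePoint ℂ, ∀ (N : ℕ) (U : Set (OnePoint ℂ)), U ∈ 𝓝 y → ∃ n : ℕ, N ≤ n ∧ f^[n] x ∈ U ∧
      ∃ W : Set (OnePoint ℂ), IsOpen W ∧ x ∈ W ∧ InjOn f^[n] W ∧ {z | chord (f^[n] x) z < δ} ⊆ f^[n] '' W := by
  obtain ⟨δ, hδ, h⟩ := h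
  choose n hn W hW hxW hinj himg using h
  obtain ⟨y, hy⟩ := exists_clusterPt_of_compactSpace (Filter.map (fun N => f^[n N] x) atTop)
  have hy' : MapClusterPt y atTop (fun N => f^[n N] x) := hy
  refine ⟨δ, hδ, y, fun N U hU => ?_⟩
  obtain ⟨k, hk, hkU⟩ := (mapClusterPt_iff_frequently.1 hy' U hU).forall_exists_of_atTop N
  exact ⟨n k, hk.trans (hn k), hkU, W k, hW k, hxW k, hinj k, himg k⟩

/-- three fixed points, the third is not `y` -/
theorem three_fix' (hd : 2 ≤ d) (hcop : IsCoprime (pol v.1) (pol v.2))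
    (hdeg : max (pol v.1).natDegree (pol v.2).natDegree = d) (hup : ¬ Up v) (hJ : JS (Rf v) = univ)
    (y : OnePoint ℂ) : ∃ p1 p2 p3 : OnePoint ℂ, p1 ≠ p2 ∧ p1 ≠ p3 ∧ p2 ≠ p3 ∧ Rf v p1 = p1 ∧ Rf v p2 = p2 ∧
      Rf v p3 = p3 ∧ p3 ≠ y := by
  obtain ⟨p1, p2, p3, h12, h13, h23, e1, e2, e3⟩ := three_fix hd hcop hdeg hup hJ
  by_cases h : p3 = y
  · refine ⟨p3, p2, p1, h23.symm, h13.symm, h12.symm, e3, e2, e1, ?_⟩
    rw [← h]
    exact h13
  · exact ⟨p1, p2, p3, h12, h13, h23, e1, e2, e3, h⟩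

theorem sph_chart (hd : 2 ≤ d) (hcop : IsCoprime (pol v.1) (pol v.2))
    (hdeg : max (pol v.1).natDegree (pol v.2).natDegree = d) (hup : ¬ Up v) (hJ : JS (Rf v) = univ)
    {c : OnePoint ℂ} (hc : IsCrit (Rf v) c) (hC : ConAt (Rf v) (Rf v c)) :
    ∃ (u : E d) (c1 y : ℂ) (δ L0 θ : ℝ), SP d (pol u.1) (pol u.2) L0 θ ∧ CD (pol u.1) (pol u.2) c1 y δ ∧
      PasS d (pol u.1) (pol u.2) c1 := by
  have hJc : c ∈ JS (Rf v) := hJ ▸ mem_univ c
  have hinf := not_pre hd hcop hdeg hup hc hJc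
  have hper : ∀ U : Set (OnePoint ℂ), IsOpen U → U.Nonempty →
      ∃ p ∈ U, ∃ N : ℕ, 1 ≤ N ∧ (Rf v)^[N] p = p := by
    rintro U hU ⟨x, hx⟩
    exact Pool.Agent.H44.NR.per_dense hd hcop hdeg (hJ ▸ mem_univ x) (hU.mem_nhds hx)
  obtain ⟨δ, hδ, y, hy⟩ := con_lim hC
  obtain ⟨q1, q2, q3, n12, n13, n23, e1, e2, e3, hq3⟩ := three_fix' hd hcop hdeg hup hJ y
  obtain ⟨f, hfd⟩ : ∃ f, f = Rf v := ⟨_, rfl⟩
  rw [← hfd] at hinf hc hJ hper hy e1 e2 e3
  have hJa : ∀ x, x ∈ JS f := fun x => hJ ▸ mem_univ x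
  have next : ∀ F : Set (OnePoint ℂ), F.Finite → ∃ (p : OnePoint ℂ) (N : ℕ), p ∉ F ∧ 1 ≤ N ∧ f^[N] p = p := by
    intro F hF
    obtain ⟨p, hpU, N, hN, hpN⟩ := hper _ hF.isClosed.isOpen_compl hF.infinite_compl.nonempty
    exact ⟨p, N, hpU, hN, hpN⟩
  obtain ⟨p4, N4, g4, c4, e4⟩ := next {q1, q2, q3} (by simp)
  obtain ⟨p5, N5, g5, c5, e5⟩ := next ({q1, q2, q3} ∪ Orb f p4) (Finite.union (by simp) (orb_fin c4 e4))
  have n41 : p4 ≠ q1 := fun h => g4 (by rw [h]; simp)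
  have n42 : p4 ≠ q2 := fun h => g4 (by rw [h]; simp)
  have n43 : p4 ≠ q3 := fun h => g4 (by rw [h]; simp)
  have n51 : p5 ≠ q1 := fun h => g5 (Or.inl (by rw [h]; simp))
  have n52 : p5 ≠ q2 := fun h => g5 (Or.inl (by rw [h]; simp))
  have n53 : p5 ≠ q3 := fun h => g5 (Or.inl (by rw [h]; simp))
  have n54 : p5 ∉ Orb f p4 := fun h => g5 (Or.inr h)
  have n45 : p4 ∉ Orb f p5 := by
    rintro ⟨i, hi⟩
    apply n54
    obtain ⟨j, hj⟩ := orb_back c5 e5 i
    exact ⟨j, by rw [← hi]; exact hj⟩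
  -- the chart
  obtain ⟨L, G, φ, K, hch, -, f0, f1, fi⟩ := ch_three (d := d) hd n12 n13 n23
  obtain ⟨hcop1, hdeg1, hφ⟩ := hch.conj v hcop hdeg
  rw [← hfd] at hφ
  have hφn : ∀ (n : ℕ) (x : OnePoint ℂ), (Rf (L v))^[n] (φ x) = φ (f^[n] x) := fun n x => iter_conj φ hφ n x
  have hup1 : ¬ Up (L v) := fun h =>
    hup (up_chart hd hch.cG hch.invL hch.invR (fun v h3 h4 => (hch.conj v h3 h4).2.2) hcop hdeg h)
  have hJS : ∀ x, x ∈ JS f → φ x ∈ JS (Rf (L v)) := fun x hx h =>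
    hx ((Pool.Agent.H76.SU.fs_conj hch.bil hφ x).1 h)
  have hJS1 : JS (Rf (L v)) = univ := by
    rw [eq_univ_iff_forall]
    intro y
    obtain ⟨x, rfl⟩ := φ.surjective y
    exact hJS x (hJa x)
  have h0 : Rf (L v) ((0 : ℂ) : OnePoint ℂ) = ((0 : ℂ) : OnePoint ℂ) := by rw [← f0, hφ, e1]
  have h1 : Rf (L v) ((1 : ℂ) : OnePoint ℂ) = ((1 : ℂ) : OnePoint ℂ) := by rw [← f1, hφ, e2]
  have hi : Rf (L v) OnePoint.infty = OnePoint.infty := by rw [← fi, hφ, e3]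
  -- orbits off infinity
  have hoff : ∀ {q : OnePoint ℂ} {N : ℕ}, 1 ≤ N → f^[N] q = q → q ≠ q3 →
      ∀ i : ℕ, (Rf (L v))^[i] (φ q) ≠ OnePoint.infty := by
    intro q N hN hq h i he
    rw [hφn, ← fi] at he
    have h2 := φ.injective he
    obtain ⟨j, hj⟩ := orb_back hN hq i
    rw [h2, Function.iterate_fixed e3] at hj
    exact h hj.symm
  have hpq : ∀ {q : OnePoint ℂ} {N : ℕ}, f^[N] q = q → (Rf (L v))^[N] (φ q) = φ q := by
    intro q N hq
    rw [hφn, hq]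
  have e1' : f^[1] q1 = q1 := e1
  have e2' : f^[1] q2 = q2 := e2
  have e3' : f^[1] q3 = q3 := e3
  obtain ⟨y1, l1, k1, m1, z1⟩ := mk_cyc hd hcop1 hdeg1 hup1 (hJS _ (hJa q1)) le_rfl (hpq e1') (hoff le_rfl e1' n13)
  obtain ⟨y2, l2, k2, m2, z2⟩ := mk_cyc hd hcop1 hdeg1 hup1 (hJS _ (hJa q2)) le_rfl (hpq e2') (hoff le_rfl e2' n23)
  obtain ⟨x, m, k4, m4, z4⟩ := mk_cyc hd hcop1 hdeg1 hup1 (hJS _ (hJa p4)) c4 (hpq e4) (hoff c4 e4 n43)
  obtain ⟨y5, l5, k5, m5, z5⟩ := mk_cyc hd hcop1 hdeg1 hup1 (hJS _ (hJa p5)) c5 (hpq e5) (hoff c5 e5 n53)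
  -- the critical point
  obtain ⟨c1, hc1⟩ : ∃ c1 : ℂ, (c1 : OnePoint ℂ) = φ c := by
    apply OnePoint.ne_infty_iff_exists.1
    intro h
    rw [← fi] at h
    exact crit_nper le_rfl e3' hinf 0 0 (φ.injective h)
  have hcr : IsCrit (Rf (L v)) (c1 : OnePoint ℂ) := by
    rw [hc1]
    exact (isCrit_conj φ hφ c).2 hc
  have hcf : ∀ i, (Rf (L v))^[i] (c1 : OnePoint ℂ) ≠ OnePoint.infty := by
    intro i h
    rw [hc1, hφn, ← fi] at h
    exact crit_nper le_rfl e3' hinf 0 i (φ.injective h)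
  obtain ⟨L0, θ, hSP⟩ := sp_of hd hcop1 hdeg1 hup1 hJS1 h0 h1 hi hcr
  have hw : (ww (pol (L v).1) (pol (L v).2)).eval c1 = 0 := crit_coe hcr
  have horb := fun i => fin_orba (a := pol (L v).1) (b := pol (L v).2) hi hcf i
  have hval : ∀ i, (Rf (L v))^[i] (c1 : OnePoint ℂ) =
      (((gg (pol (L v).1) (pol (L v).2))^[i] c1 : ℂ) : OnePoint ℂ) := fun i => (horb i).2
  have hvv : φ (f c) = ((gg (pol (L v).1) (pol (L v).2) c1 : ℂ) : OnePoint ℂ) := by
    rw [← hφ, ← hc1]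
    exact hval 1
  have hvn : ∀ n, φ (f^[n] (f c)) =
      (((gg (pol (L v).1) (pol (L v).2))^[n] (gg (pol (L v).1) (pol (L v).2) c1) : ℂ) : OnePoint ℂ) := by
    intro n
    rw [← Function.iterate_succ_apply, ← hφn, ← hc1, hval, Function.iterate_succ_apply]
  -- the limit
  obtain ⟨y0, hy0⟩ : ∃ y0 : ℂ, (y0 : OnePoint ℂ) = φ y := by
    apply OnePoint.ne_infty_iff_exists.1
    intro h
    rw [← fi] at h
    exact hq3 (φ.injective h).symm
  have hK : 0 < K := lt_of_lt_of_le one_pos hch.K1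
  refine ⟨L v, c1, y0, δ / K, L0, θ, hSP, ⟨(horb 0).1, hw, ?_, ?_, div_pos hδ hK, ?_⟩, ?_⟩
  · intro k
    have h2 := (horb (k + 1)).1
    rw [Function.iterate_succ_apply] at h2
    exact h2
  · intro m n hmn h
    have h2 : φ (f^[m] (f c)) = φ (f^[n] (f c)) := by rw [hvn, hvn, h]
    have h3 := φ.injective h2
    rw [← Function.iterate_succ_apply, ← Function.iterate_succ_apply] at h3
    exact hinf (m + 1) (n + 1) (by omega) h3
  · intro N ε hε
    have hU : φ ⁻¹' ((fun z : ℂ => (z : OnePoint ℂ)) '' ball y0 ε) ∈ 𝓝 y := by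
      refine φ.continuous.continuousAt.preimage_mem_nhds ?_
      rw [← hy0]
      exact (OnePoint.isOpenEmbedding_coe.isOpenMap _ isOpen_ball).mem_nhds ⟨y0, mem_ball_self hε, rfl⟩
    obtain ⟨n, hnN, hnU, W, hW, hxW, hinj, himg⟩ := hy N _ hU
    refine ⟨n, hnN, ?_, ?_⟩
    · obtain ⟨z, hz, he⟩ := hnU
      have h2 : (z : OnePoint ℂ) = φ (f^[n] (f c)) := he
      rw [hvn] at h2
      rw [← OnePoint.coe_injective h2]
      exact mem_ball_iff_norm.1 hz
    · rw [hfd] at hφ hvn hvv hxW hinj himg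
      exact br_s hcop1 (by rw [hdeg1]; omega) hch.bil hφ hi hvv (hvn n) (div_pos hδ hK) hK
        (by rw [mul_div_cancel₀ _ hK.ne']) hW hxW hinj himg
  · have key1 : ∀ l : ℂ, 1 < ‖l‖ → l ≠ 1 := by
      rintro l hl rfl
      rw [norm_one] at hl
      exact lt_irrefl _ hl
    have key2 : ∀ {q q' : OnePoint ℂ} {a b : ℂ}, (a : OnePoint ℂ) = φ q → (b : OnePoint ℂ) = φ q' →
        q ≠ q' → a ≠ b := by
      rintro q q' a b ha hb hne rfl
      exact hne (φ.injective (ha.symm.trans hb))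
    have key3 : ∀ {q : OnePoint ℂ} {N : ℕ} {y : ℕ → ℂ}, 1 ≤ N → f^[N] q = q → p4 ∉ Orb f q →
        (∀ i, (y i : OnePoint ℂ) = (Rf (L v))^[i] (φ q)) → ∀ i, y i ≠ x 0 := by
      intro q N y hN hq hne hy i he
      have h1 := hy i
      rw [he, z4 0, hφn i q] at h1
      have h2 : p4 = f^[i] q := φ.injective h1
      exact hne ⟨i, h2.symm⟩
    have hfixo : ∀ {q : OnePoint ℂ}, f q = q → p4 ≠ q → p4 ∉ Orb f q := by
      rintro q hq hne ⟨i, hi⟩
      rw [Function.iterate_fixed hq] at hi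
      exact hne hi.symm
    have hvb : Pool.Agent.H1.PU.VB (L v) (x 0) := by
      refine Pool.Agent.H64.PC.vb hd hcop1 hdeg1 hup1 c4 k4 m4 (n := ![1, 1, N5]) (y := ![y1, y2, y5])
        (l := ![l1, l2, l5]) ?_ ?_ ?_ ?_ ?_
      · intro j
        fin_cases j
        · exact one_pos
        · exact one_pos
        · exact c5
      · intro j
        fin_cases j
        · exact k1
        · exact k2
        · exact k5
      · intro j
        fin_cases j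
        · exact key1 _ m1
        · exact key1 _ m2
        · exact key1 _ m5
      · intro i j hij
        fin_cases i <;> fin_cases j <;>
          simp only [ne_eq, Fin.zero_eta, Fin.mk_one, Fin.reduceFinMk, not_true_eq_false] at hij ⊢
        · exact key2 (z1 0) (z2 0) n12
        · exact key2 (z1 0) (z5 0) n51.symm
        · exact key2 (z2 0) (z1 0) n12.symm
        · exact key2 (z2 0) (z5 0) n52.symm
        · exact key2 (z5 0) (z1 0) n51
        · exact key2 (z5 0) (z2 0) n52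
      · intro j i _
        fin_cases j
        · exact key3 le_rfl e1' (hfixo e1 n41) z1 i
        · exact key3 le_rfl e2' (hfixo e2 n42) z2 i
        · exact key3 c5 e5 n45 z5 i
    refine pas_s hd hcop1 hdeg1 hJS1 hi ?_ hvb hw hcf
    intro i
    rw [z4 0]
    exact hoff c4 e4 n43 i

end Pool.Agent.H64.NC
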