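import Pool.Agent.H64.NC.NSA
import Pool.Agent.H44.NR.Dis
import Pool.Agent.H64.MF.FSF
import Pool.Agent.H56.HF.FTF
import Pool.Agent.H57.CF.ALF
import Pool.Agent.H79.GP.GLG

/-!
# Module NSB: the charts of THEOREM NC

`Cht v c D u φ K c1 δ0 R0`: the homeomorphism `φ` conjugates `Rf v` to `Rf u`, `φ c = c1` is a finite critical point in the Julia set, `u` is in the planar setting `NS`
and `c1` is passive. `cht_up`: all rational maps which are not limits of maps with more attracted critical points, the Fatou set is not empty. `cht_upF`: the families.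
-/

set_option autoImplicit false

open Filter Topology Polynomial Metric Set MeasureTheory

namespace Pool.Agent.H64.NC

open Pool.Agent.H44.Fatou (rat rat_continuous ev wv crit_coe)
open Pool.Agent.H56.HR (FS EqAt)
open Pool.Agent.H32.BT Pool.Agent.H79.Eul Pool.Agent.H79.Par Pool.Agent.H47.NN Pool.Agent.H44.ND
open Pool.Agent.H79.ES Pool.Agent.H35.EX Pool.Agent.H44.RC Pool.Agent.H47.RJ Pool.Agent.H84.BR
open Pool.Agent.H61.TT Pool.Agent.H57.CP Pool.Agent.H3.NC Pool.Agent.H57.CF Pool.Agent.H47.NM Pool.Agent.H47.PS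

variable {d : ℕ} {v : E d}

/-- a chart with all data for the core -/
structure Cht (v : E d) (c : OnePoint ℂ) (D : ℕ) (u : E d) (φ : OnePoint ℂ ≃ₜ OnePoint ℂ) (K : ℝ) (c1 : ℂ)
    (δ0 R0 : ℝ) : Prop where
  bil : ∀ x y, chord (φ x) (φ y) ≤ K * chord x y ∧ chord x y ≤ K * chord (φ x) (φ y)
  conj : ∀ x, Rf u (φ x) = φ (Rf v x)
  pc : φ c = (c1 : OnePoint ℂ)
  crit : IsCrit (Rf u) (c1 : OnePoint ℂ)
  ww : (ww (pol u.1) (pol u.2)).eval c1 = 0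
  cJ : c1 ∈ JC u
  ns : NS d D (pol u.1) (pol u.2) (JC u) δ0 R0
  pas : Pas D (pol u.1) (pol u.2) c1

theorem GA.cht {u : E d} {T : Set (OnePoint ℂ)} (h : GA u T) {D : ℕ} (hV : VBd (pol u.1) (pol u.2) D)
    (lg : ∀ x : ℂ, RegV d (pol u.1) (pol u.2) x → ∃ η : Polynomial ℂ, η.natDegree ≤ D ∧
      ∀ z : ℂ, (pol u.2).eval z ≠ 0 → Pool.Agent.H61.TT.gg (pol u.1) (pol u.2) z ≠ x →
      ∑ y ∈ fs (pol u.1) (pol u.2) x, dg (pol u.1) (pol u.2) z / ((y - z) * dg (pol u.1) (pol u.2) y ^ 2) =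
        1 / (x - Pool.Agent.H61.TT.gg (pol u.1) (pol u.2) z) + η.eval z / (pol u.2).eval z ^ 2)
    {φ : OnePoint ℂ ≃ₜ OnePoint ℂ} {K : ℝ}
    (bil : ∀ x y, chord (φ x) (φ y) ≤ K * chord x y ∧ chord x y ≤ K * chord (φ x) (φ y))
    (conj : ∀ x, Rf u (φ x) = φ (Rf v x)) {c : OnePoint ℂ} (hc : IsCrit (Rf v) c) (hcJ : c ∈ JS (Rf v)) :
    ∃ (c1 : ℂ) (δ0 R0 : ℝ), Cht v c D u φ K c1 δ0 R0 := by
  have hFS : ∀ x, φ x ∈ FS (Rf u) ↔ x ∈ FS (Rf v) := fun x => Pool.Agent.H76.SU.fs_conj bil conj x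
  have hJ : φ c ∈ JS (Rf u) := fun h1 => hcJ ((hFS c).1 h1)
  have hi : φ c ≠ OnePoint.infty := by
    intro h1
    rw [h1] at hJ
    exact hJ h.fi
  obtain ⟨c1, hc1⟩ := OnePoint.ne_infty_iff_exists.1 hi
  have hcr : IsCrit (Rf u) (c1 : OnePoint ℂ) := by
    rw [hc1]
    exact (isCrit_conj φ conj c).2 hc
  have hcJ1 : (c1 : OnePoint ℂ) ∈ JS (Rf u) := by
    rw [hc1]
    exact hJ
  have hw : (Pool.Agent.H61.TT.ww (pol u.1) (pol u.2)).eval c1 = 0 := crit_coe hcr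
  obtain ⟨δ0, R0, hns⟩ := ns_of h hcr hcJ1 lg
  exact ⟨c1, δ0, R0, bil, conj, hc1.symm, hcr, hw, hcJ1, hns, h.pas hV (by rw [wv_pol]; exact hw) hcJ1⟩

/-- all rational maps -/
theorem cht_up (hd : 2 ≤ d) (hcop : IsCoprime (pol v.1) (pol v.2))
    (hdeg : max (pol v.1).natDegree (pol v.2).natDegree = d) (hup : ¬ Up v)
    (hF : (FS (Rf v)).Nonempty) {c : OnePoint ℂ} (hc : IsCrit (Rf v) c) (hcJ : c ∈ JS (Rf v)) :
    ∃ (u : E d) (φ : OnePoint ℂ ≃ₜ OnePoint ℂ) (K : ℝ) (c1 : ℂ) (δ0 R0 : ℝ),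
      Cht v c (2 * d) u φ K c1 δ0 R0 := by
  obtain ⟨x0, hx0⟩ := hF
  obtain ⟨z, n, hs, -⟩ := Pool.Agent.H64.MJ.fs_att hd hcop hdeg hup hx0
  obtain ⟨p1, p2, h12, h1z, h2z⟩ : ∃ p1 p2 : OnePoint ℂ, p1 ≠ p2 ∧ p1 ≠ z ∧ p2 ≠ z := by
    have hinf : (({z} : Set (OnePoint ℂ))ᶜ).Infinite := (finite_singleton z).infinite_compl
    obtain ⟨p1, hp1⟩ := hinf.nonempty
    obtain ⟨p2, hp2⟩ := (hinf.sdiff (finite_singleton p1)).nonempty
    exact ⟨p1, p2, fun h => hp2.2 h.symm, hp1, hp2.1⟩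
  obtain ⟨L, G, φ, K, hch, -, -, -, fi⟩ := ch_three (d := d) hd h12 h1z h2z
  obtain ⟨hcop1, hdeg1, hφ⟩ := hch.conj v hcop hdeg
  have hup1 : ¬ Up (L v) := fun h =>
    hup (up_chart hd hch.cG hch.invL hch.invR (fun v h3 h4 => (hch.conj v h3 h4).2.2) hcop hdeg h)
  have hs1 : IsSink (Rf (L v)) OnePoint.infty n := by
    rw [← fi]
    exact (isSink_conj φ hφ z n).2 hs
  obtain ⟨T, hT, hTi⟩ := trap_of_sink hcop1 (by rw [hdeg1]; exact hd) hs1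
  have hGA : GA (L v) T :=
    ⟨hd, hcop1, hdeg1, fun p hp x m hcy hm => hup1 (Pool.Agent.H44.CP.neu_up hd hcop1 hdeg1 hp hcy hm),
      fun x hx => Pool.Agent.H44.NR.att_in hd hcop1 hdeg1 hup1 hx,
      fun x hx => Pool.Agent.H64.MJ.fs_att hd hcop1 hdeg1 hup1 hx, hT, hTi⟩
  have hV := vbd_up hd hcop1 hdeg1 hup1 (hT.att _ (interior_subset hTi))
  obtain ⟨c1, δ0, R0, h⟩ := hGA.cht hV (fun x hx => lagr ⟨hd, hcop1, hdeg1⟩ hx) hch.bil hφ hc hcJ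
  exact ⟨L v, φ, K, c1, δ0, R0, h⟩

/-- generic maps of the families -/
theorem ga_gen {k : ℕ} (hd : 2 ≤ d) (hk : 2 ≤ k) (hkd : k ≤ d) {x : Em d k}
    (hg : GenM d k (pol x.1) (pol x.2)) (hup : ¬ UpF d k x) : ∃ T, GA (ex d k x) T := by
  obtain ⟨hno, -⟩ := velF hd hk hkd hg hup
  have hAR := ar_m hk hkd hg hno
  have hF := fam_ex hk hkd hg
  have hcop := ex_cop hg.cop
  have hdeg := ex_deg (genM_deg hg)
  obtain ⟨h1, h2, h3⟩ := inf_sink hF one_pos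
  obtain ⟨T, hT, hTinf⟩ := trap_of_sink hcop (by rw [hdeg]; omega) h2
  refine ⟨T, hd, hcop, hdeg, ?_, ?_, ?_, hT, hTinf⟩
  · intro p hp z m hc
    rw [(ex_pol x).1, (ex_pol x).2] at hc
    exact hno p hp z m hc
  · exact fun z hz => att_fs_ar (by omega) hcop hdeg hAR hz
  · exact fun z hz => Pool.Agent.H64.MF.fs_attF hd (fun k h3 h4 => Pool.Agent.H56.HF.fatF hd h3 h4) hk hkd hg.cop
      (genM_deg hg) hup hz

/-- the families -/
theorem cht_upF {k : ℕ} (hd : 2 ≤ d) (hk : 2 ≤ k) (hkd : k ≤ d) {x : Em d k} (hcop : IsCoprime (pol x.1) (pol x.2))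
    (hdeg : max (pol x.1).natDegree (pol x.2).natDegree = d) (hup : ¬ UpF d k x)
    {c : OnePoint ℂ} (hc : IsCrit (Rf (ex d k x)) c) (hcJ : c ∈ JS (Rf (ex d k x))) :
    ∃ (D : ℕ) (u : E d) (φ : OnePoint ℂ ≃ₜ OnePoint ℂ) (K : ℝ) (c1 : ℂ) (δ0 R0 : ℝ),
      Cht (ex d k x) c D u φ K c1 δ0 R0 := by
  obtain ⟨l, y, φ, K, hl, hld, hg, hK, hφ, hup'⟩ := red_gen hd hk hkd hcop hdeg
  have hupy : ¬ UpF d l y := fun h => hup (hup' h)
  obtain ⟨T, hGA⟩ := ga_gen hd hl hld hg hupy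
  have hV := vbd_upF hd hl hld hg hupy
  have hbl : (pol (ex d l y).2).natDegree + l ≤ d := by
    rw [(fam_ex hl hld hg).hb]
    omega
  obtain ⟨c1, δ0, R0, h⟩ := hGA.cht hV
    (fun x hx => Pool.Agent.H79.GP.lagn ⟨hd, hGA.cop, hGA.deg⟩ (by omega) hld hbl hx) hK hφ hc hcJ
  exact ⟨2 * d - l, ex d l y, φ, K, c1, δ0, R0, h⟩

end Pool.Agent.H64.NC
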