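import Pool.Agent.H64.NC.CNA
import Pool.Agent.H3.NC.MAIN

/-!
# Module FNC: THEOREM NC for rational maps and families

`nc_cht`: in a chart the critical value is not conical. `nc_up`: all rational maps which are not limits of maps with more attracted critical points, the Fatou set is not empty. `nc_upF`: the families.
-/

set_option autoImplicit false

open Filter Topology Polynomial Metric Set MeasureTheory

namespace Pool.Agent.H64.NC

open Pool.Agent.H56.HR (FS EqAt)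
open Pool.Agent.H32.BT Pool.Agent.H79.Eul Pool.Agent.H79.Par Pool.Agent.H79.ES Pool.Agent.H44.RC
open Pool.Agent.H47.NM Pool.Agent.H57.CF Pool.Agent.H44.ND Pool.Agent.H3.NC

variable {d : ℕ}

theorem nc_cht {v u : E d} {c : OnePoint ℂ} {D : ℕ} {φ : OnePoint ℂ ≃ₜ OnePoint ℂ} {K : ℝ} {c1 : ℂ}
    {δ0 R0 : ℝ} (h : Cht v c D u φ K c1 δ0 R0) : ¬ ConAt (Rf v) (Rf v c) := by
  intro hC
  obtain ⟨δ, h1, h2, h3⟩ := con_pl h hC
  exact nc_false h.ns h.cJ h.ww h.pas h1 h2 h3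

/-- all rational maps -/
theorem nc_up (hd : 2 ≤ d) {v : E d} (hcop : IsCoprime (pol v.1) (pol v.2))
    (hdeg : max (pol v.1).natDegree (pol v.2).natDegree = d) (hup : ¬ Up v)
    (hF : (FS (Rf v)).Nonempty) {c : OnePoint ℂ} (hc : IsCrit (Rf v) c) (hcJ : c ∈ JS (Rf v)) :
    ¬ ConAt (Rf v) (Rf v c) := by
  obtain ⟨u, φ, K, c1, δ0, R0, h⟩ := cht_up hd hcop hdeg hup hF hc hcJ
  exact nc_cht h

/-- the families -/
theorem nc_upF {k : ℕ} (hd : 2 ≤ d) (hk : 2 ≤ k) (hkd : k ≤ d) {x : Em d k} (hcop : IsCoprime (pol x.1) (pol x.2))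
    (hdeg : max (pol x.1).natDegree (pol x.2).natDegree = d) (hup : ¬ UpF d k x)
    {c : OnePoint ℂ} (hc : IsCrit (Rf (ex d k x)) c) (hcJ : c ∈ JS (Rf (ex d k x))) :
    ¬ ConAt (Rf (ex d k x)) (Rf (ex d k x) c) := by
  obtain ⟨D, u, φ, K, c1, δ0, R0, h⟩ := cht_upF hd hk hkd hcop hdeg hup hc hcJ
  exact nc_cht h

end Pool.Agent.H64.NC
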