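import Pool.Agent.H64.NC.SFX
import Pool.Agent.H61.TT.Fib
import Pool.Agent.H57.CP.BRA

/-!
# Module SFI: the repelling fixed point infinity

`dg_inf`: if `g = a / b` and `h = a' / b'` are conjugate by `z ↦ 1 / z` then `g'(z) = h'(u) (u / h(u)) ^ 2`, `u = 1 / z`. `inf_con`: near the fixed point infinity the map contracts the plane metric.
-/

set_option autoImplicit false

open Filter Topology Polynomial Metric Set

namespace Pool.Agent.H64.NC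

open Pool.Agent.H44.Fatou (rat rat_coe rat_coe_of_ne pt Wr)
open Pool.Agent.H32.BT Pool.Agent.H79.Eul Pool.Agent.H79.Par
open Pool.Agent.H35.EX Pool.Agent.H44.RR Pool.Agent.H56.HR Pool.Agent.H44.RC Pool.Agent.H47.RJ
open Pool.Agent.H47.NM Pool.Agent.H47.NN Pool.Agent.H44.ND Pool.Agent.H79.ES Pool.Agent.H44.RG
open Pool.Agent.H44.CP Pool.Agent.H47.PS
open Pool.Agent.H61.TT (gg dg)

variable {d : ℕ}

theorem dg_inf {a b a' b' : Polynomial ℂ} {r : ℝ}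
    (hb : ∀ z : ℂ, r < ‖z‖ → b.eval z ≠ 0) (hb' : ∀ z : ℂ, r < ‖z‖ → b'.eval z⁻¹ ≠ 0)
    (h0 : ∀ z : ℂ, r < ‖z‖ → gg a' b' z⁻¹ ≠ 0)
    (hg : ∀ z : ℂ, r < ‖z‖ → gg a b z = (gg a' b' z⁻¹)⁻¹) {z : ℂ} (hz : r < ‖z‖) (hz0 : z ≠ 0) :
    dg a b z = dg a' b' z⁻¹ * (z⁻¹ / gg a' b' z⁻¹) ^ 2 := by
  have h1 : HasDerivAt (gg a b) (dg a b z) z := Pool.Agent.H61.TT.hasDerivAt_gg (hb z hz)
  have h2 : HasDerivAt (gg a' b') (dg a' b' z⁻¹) z⁻¹ := Pool.Agent.H61.TT.hasDerivAt_gg (hb' z hz)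
  have h3 : HasDerivAt (fun w : ℂ => gg a' b' w⁻¹) (dg a' b' z⁻¹ * (-(z ^ 2)⁻¹)) z :=
    h2.comp z (hasDerivAt_inv hz0)
  have h4 : HasDerivAt (fun w : ℂ => (gg a' b' w⁻¹)⁻¹) (-(dg a' b' z⁻¹ * (-(z ^ 2)⁻¹)) / gg a' b' z⁻¹ ^ 2) z :=
    h3.fun_inv (h0 z hz)
  have h5 : gg a b =ᶠ[𝓝 z] fun w : ℂ => (gg a' b' w⁻¹)⁻¹ := by
    filter_upwards [(continuous_norm.continuousAt (x := z)).eventually (lt_mem_nhds hz)] with w hw
    exact hg w hw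
  have h6 := (h4.congr_of_eventuallyEq h5).unique h1
  rw [← h6]
  have h7 := h0 z hz
  field_simp

/-- near the fixed point infinity the map contracts the plane metric -/
theorem inf_con (hd : 2 ≤ d) {v : E d} (hcop : IsCoprime (pol v.1) (pol v.2))
    (hdeg : max (pol v.1).natDegree (pol v.2).natDegree = d) (hup : ¬ Up v) (hJ : JS (Rf v) = univ)
    (hinf : Rf v OnePoint.infty = OnePoint.infty) : ∃ L0 θ : ℝ, 0 < L0 ∧ 0 < θ ∧ θ < 1 ∧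
      ∀ z : ℂ, L0 ≤ ‖z‖ → (pol v.2).eval z ≠ 0 ∧ ‖dg (pol v.1) (pol v.2) z‖ ≤ θ := by
  obtain ⟨G, φ, K, hch, hφ1, hφs, hφi⟩ := ch_mob (d := d) hd 0
  obtain ⟨hcop1, hdeg1, hφ⟩ := hch.conj v hcop hdeg
  have hup1 : ¬ Up (Lin 0 v) := fun h =>
    hup (up_chart hd hch.cG hch.invL hch.invR (fun v h3 h4 => (hch.conj v h3 h4).2.2) hcop hdeg h)
  have hJS1 : ∀ x, x ∈ JS (Rf (Lin 0 v)) := by
    intro y
    obtain ⟨x, rfl⟩ := φ.surjective y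
    intro h
    have h1 : x ∈ JS (Rf v) := hJ ▸ mem_univ x
    exact h1 ((Pool.Agent.H76.SU.fs_conj hch.bil hφ x).1 h)
  have hfx : Rf (Lin 0 v) ((0 : ℂ) : OnePoint ℂ) = ((0 : ℂ) : OnePoint ℂ) := by
    rw [← hφi, hφ, hinf]
  obtain ⟨x, m, hc, hm, hx⟩ := mk_cyc (N := 1) hd hcop1 hdeg1 hup1 (hJS1 ((0 : ℂ) : OnePoint ℂ)) le_rfl hfx (by
    intro i
    rw [Function.iterate_fixed hfx]
    exact OnePoint.coe_ne_infty _)
  have hx0 : x 0 = 0 := OnePoint.coe_injective (hx 0)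
  obtain ⟨a, ha⟩ : ∃ a, a = pol v.1 := ⟨_, rfl⟩
  obtain ⟨b, hb⟩ : ∃ b, b = pol v.2 := ⟨_, rfl⟩
  obtain ⟨a', ha'⟩ : ∃ a', a' = pol (Lin 0 v).1 := ⟨_, rfl⟩
  obtain ⟨b', hb'⟩ : ∃ b', b' = pol (Lin 0 v).2 := ⟨_, rfl⟩
  rw [← ha', ← hb'] at hc
  rw [← ha, ← hb]
  have hmul := hc.mul
  rw [Finset.prod_range_one, hx0] at hmul
  have hb0' : b'.eval 0 ≠ 0 := by
    have h1 := hc.ne 0 one_pos
    rwa [hx0] at h1
  have hg0 : gg a' b' 0 = 0 := by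
    have h1 := hc.step 0 one_pos
    rw [hc.per, hx0] at h1
    exact h1
  have hdg0 : dg a' b' 0 = m := hmul
  have hm0 : m ≠ 0 := by
    intro h1
    rw [h1, norm_zero] at hm
    linarith
  have hder : HasDerivAt (gg a' b') m 0 := by
    rw [← hdg0]
    exact Pool.Agent.H61.TT.hasDerivAt_gg hb0'
  have hb00 : b ≠ 0 := by
    rw [hb]
    exact Pool.Agent.H32.BT.den_ne_zero hcop (by omega)
  -- bounds near zero
  have hlim1 : Tendsto (fun u : ℂ => dg a' b' u) (𝓝[≠] 0) (𝓝 m) := by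
    have h1 : ContinuousAt (dg a' b') 0 := by
      unfold Pool.Agent.H61.TT.dg
      exact (Pool.Agent.H61.TT.ww a' b').continuous.continuousAt.div (b'.continuous.continuousAt.pow 2)
        (pow_ne_zero 2 hb0')
    have h2 := h1.tendsto
    rw [hdg0] at h2
    exact h2.mono_left nhdsWithin_le_nhds
  have hlim2 : Tendsto (fun u : ℂ => gg a' b' u / u) (𝓝[≠] 0) (𝓝 m) := by
    have h1 := hasDerivAt_iff_tendsto_slope.1 hder
    refine h1.congr fun u => ?_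
    rw [slope_def_field, hg0, sub_zero, sub_zero]
  have hlim3 : Tendsto (fun u : ℂ => dg a' b' u * (u / gg a' b' u) ^ 2) (𝓝[≠] 0) (𝓝 m⁻¹) := by
    have h1 : Tendsto (fun u : ℂ => dg a' b' u * ((gg a' b' u / u)⁻¹) ^ 2) (𝓝[≠] 0) (𝓝 (m * (m⁻¹) ^ 2)) :=
      hlim1.mul ((hlim2.inv₀ hm0).pow 2)
    have h2 : m * (m⁻¹) ^ 2 = m⁻¹ := by
      field_simp
    rw [h2] at h1
    refine h1.congr fun u => ?_
    rw [inv_div]
  obtain ⟨θ, hθ⟩ : ∃ θ : ℝ, θ = (‖m‖⁻¹ + 1) / 2 := ⟨_, rfl⟩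
  have hminv : ‖m‖⁻¹ < 1 := inv_lt_one_of_one_lt₀ hm
  have hminv0 : 0 < ‖m‖⁻¹ := inv_pos.2 (by linarith)
  have hev : ∀ᶠ u : ℂ in 𝓝[≠] 0, ‖dg a' b' u * (u / gg a' b' u) ^ 2‖ < θ ∧ gg a' b' u ≠ 0 ∧ b'.eval u ≠ 0 := by
    have h1 : ‖m⁻¹‖ < θ := by
      rw [norm_inv, hθ]
      linarith
    refine (hlim3.norm.eventually (gt_mem_nhds h1)).and (Filter.Eventually.and ?_ ?_)
    · have h2 : ∀ᶠ u : ℂ in 𝓝[≠] 0, gg a' b' u / u ≠ 0 := hlim2.eventually_ne hm0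
      filter_upwards [h2] with u hu h3
      rw [h3, zero_div] at hu
      exact hu rfl
    · exact (b'.continuous.continuousAt.eventually_ne hb0').filter_mono nhdsWithin_le_nhds
  rw [eventually_nhdsWithin_iff, Metric.eventually_nhds_iff] at hev
  obtain ⟨ε, hε, hev⟩ := hev
  -- roots of `b`
  obtain ⟨R, hR⟩ : ∃ R : ℝ, ∀ z : ℂ, R < ‖z‖ → b.eval z ≠ 0 := by
    have h1 : Bornology.IsBounded {z : ℂ | b.eval z = 0} := by
      refine Set.Finite.isBounded ?_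
      refine (b.roots.toFinset.finite_toSet).subset fun z hz => ?_
      rw [Finset.mem_coe, Multiset.mem_toFinset, mem_roots hb00]
      exact hz
    obtain ⟨R, hR⟩ := h1.subset_closedBall 0
    refine ⟨R, fun z hz h2 => ?_⟩
    have h3 := hR h2
    rw [mem_closedBall_zero_iff] at h3
    linarith
  obtain ⟨r, hr⟩ : ∃ r : ℝ, r = max (max R 1) ε⁻¹ := ⟨_, rfl⟩
  have hr1 : ∀ z : ℂ, r < ‖z‖ → R < ‖z‖ ∧ z ≠ 0 ∧ ‖z⁻¹‖ < ε ∧ z⁻¹ ≠ 0 := by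
    intro z hz
    have h1 : R ≤ r := by rw [hr]; exact (le_max_left _ _).trans (le_max_left _ _)
    have h2 : 1 ≤ r := by rw [hr]; exact (le_max_right _ _).trans (le_max_left _ _)
    have h3 : ε⁻¹ ≤ r := by rw [hr]; exact le_max_right _ _
    have h4 : 0 < ‖z‖ := by linarith
    have h5 : z ≠ 0 := norm_pos_iff.1 h4
    refine ⟨by linarith, h5, ?_, inv_ne_zero h5⟩
    rw [norm_inv]
    exact inv_lt_of_inv_lt₀ hε (by linarith)
  have hev' : ∀ z : ℂ, r < ‖z‖ → ‖dg a' b' z⁻¹ * (z⁻¹ / gg a' b' z⁻¹) ^ 2‖ < θ ∧ gg a' b' z⁻¹ ≠ 0 ∧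
      b'.eval z⁻¹ ≠ 0 := by
    intro z hz
    obtain ⟨-, -, h3, h4⟩ := hr1 z hz
    exact hev (by rw [dist_zero_right]; exact h3) h4
  have hgz : ∀ z : ℂ, r < ‖z‖ → gg a b z = (gg a' b' z⁻¹)⁻¹ := by
    intro z hz
    obtain ⟨h1, h2, h3, h4⟩ := hr1 z hz
    obtain ⟨-, h5, h6⟩ := hev' z hz
    have h7 := hφ (z : OnePoint ℂ)
    have h8 : Rf v (z : OnePoint ℂ) = ((gg a b z : ℂ) : OnePoint ℂ) := by
      unfold Rf
      rw [← ha, ← hb, rat_coe_of_ne (hR z h1)]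
      rfl
    have h9 : Rf (Lin 0 v) ((z⁻¹ : ℂ) : OnePoint ℂ) = ((gg a' b' z⁻¹ : ℂ) : OnePoint ℂ) := by
      unfold Rf
      rw [← ha', ← hb', rat_coe_of_ne h6]
      rfl
    rw [hφ1 z h2, sub_zero, h9, h8] at h7
    have h10 : gg a b z ≠ 0 := by
      intro h11
      rw [h11, hφs] at h7
      exact OnePoint.coe_ne_infty _ h7
    rw [hφ1 _ h10, sub_zero] at h7
    rw [OnePoint.coe_injective h7, inv_inv]
  have hr0 : 1 ≤ r := by rw [hr]; exact (le_max_right _ _).trans (le_max_left _ _)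
  refine ⟨r + 1, θ, by linarith, by rw [hθ]; linarith, by rw [hθ]; linarith, fun z hz => ?_⟩
  have hz' : r < ‖z‖ := by linarith
  obtain ⟨h1, h2, -, -⟩ := hr1 z hz'
  refine ⟨hR z h1, ?_⟩
  rw [dg_inf (fun z hz => hR z (hr1 z hz).1) (fun z hz => (hev' z hz).2.2) (fun z hz => (hev' z hz).2.1) hgz hz' h2]
  exact (hev' z hz').1.le

end Pool.Agent.H64.NC
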