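import Pool.Agent.H47.PS.RED
import Pool.Agent.H47.PS.CHD

/-!
# Module SFX: fixed points (Julia set = sphere)

`fix_chart`: if infinity is not fixed and all fixed points in the plane have multipliers different from `1` then there are `d + 1 ≥ 3` fixed points. `three_fix`: three distinct fixed points.
-/

set_option autoImplicit false

open Filter Topology Polynomial Metric Set

namespace Pool.Agent.H64.NC

open Pool.Agent.H44.Fatou Pool.Agent.H32.BT Pool.Agent.H79.Eul Pool.Agent.H79.Par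
open Pool.Agent.H35.EX Pool.Agent.H44.RR Pool.Agent.H56.HR Pool.Agent.H44.RC Pool.Agent.H47.RJ
open Pool.Agent.H47.NM Pool.Agent.H47.NN Pool.Agent.H44.ND Pool.Agent.H79.ES Pool.Agent.H44.RG
open Pool.Agent.H44.CP Pool.Agent.H47.PS

variable {d : ℕ}

/-- infinity is not fixed, multipliers in the plane are not `1`: many fixed points -/
theorem fix_chart {a b : Polynomial ℂ} (hd : 2 ≤ d) (hcop : IsCoprime a b)
    (hdeg : max a.natDegree b.natDegree = d) (hinf : rat a b OnePoint.infty ≠ OnePoint.infty)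
    (hm : ∀ z : ℂ, b.eval z ≠ 0 → a.eval z / b.eval z = z → (Wr a b).eval z / b.eval z ^ 2 ≠ 1) :
    ∃ z1 z2 z3 : ℂ, z1 ≠ z2 ∧ z1 ≠ z3 ∧ z2 ≠ z3 ∧ rat a b (z1 : OnePoint ℂ) = (z1 : OnePoint ℂ) ∧
      rat a b (z2 : OnePoint ℂ) = (z2 : OnePoint ℂ) ∧ rat a b (z3 : OnePoint ℂ) = (z3 : OnePoint ℂ) := by
  have hbd : b.coeff d ≠ 0 := by
    intro h0
    apply hinf
    rw [rat_infty]
    unfold Pool.Agent.H44.Fatou.dg
    rw [hdeg, h0]
    unfold pt
    rw [if_pos rfl]
  obtain ⟨q, hq⟩ : ∃ q, q = a - X * b := ⟨_, rfl⟩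
  have hb0 : b ≠ 0 := by
    rintro rfl
    exact hbd (coeff_zero _)
  have hbn : b.natDegree = d := le_antisymm (by omega) (le_natDegree_of_ne_zero hbd)
  have han : a.natDegree ≤ d := by omega
  have hqc : q.coeff (d + 1) ≠ 0 := by
    rw [hq, coeff_sub, coeff_X_mul, coeff_eq_zero_of_natDegree_lt (by omega), zero_sub]
    exact neg_ne_zero.2 hbd
  have hqn : q.natDegree = d + 1 := by
    refine le_antisymm ?_ (le_natDegree_of_ne_zero hqc)
    rw [hq]
    refine (natDegree_sub_le _ _).trans (max_le (by omega) ?_)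
    rw [natDegree_X_mul hb0, hbn]
  have hq0 : q ≠ 0 := by
    rintro rfl
    exact hqc (coeff_zero _)
  have hfix : ∀ z : ℂ, q.IsRoot z → b.eval z ≠ 0 ∧ a.eval z / b.eval z = z := by
    intro z hz
    have h1 : a.eval z = z * b.eval z := by
      have h2 : q.eval z = 0 := hz
      rw [hq, eval_sub, eval_mul, eval_X] at h2
      exact sub_eq_zero.1 h2
    have h3 : b.eval z ≠ 0 := by
      intro h0
      rw [h0, mul_zero] at h1
      obtain ⟨s, t, hst⟩ := hcop
      have h4 := congrArg (eval z) hst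
      rw [eval_add, eval_mul, eval_mul, h1, h0, mul_zero, mul_zero, add_zero, eval_one] at h4
      exact zero_ne_one h4
    refine ⟨h3, ?_⟩
    rw [h1, mul_div_assoc, div_self h3, mul_one]
  have hnd : q.roots.Nodup := by
    rw [Multiset.nodup_iff_count_le_one]
    intro z
    rw [count_roots]
    by_contra hlt
    obtain ⟨h1, h2⟩ := (one_lt_rootMultiplicity_iff_isRoot hq0).1 (not_le.1 hlt)
    obtain ⟨h3, h4⟩ := hfix z h1
    apply hm z h3 h4
    have h5 : (derivative a).eval z = b.eval z + z * (derivative b).eval z := by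
      have h6 : (derivative q).eval z = 0 := h2
      rw [hq, derivative_sub, derivative_mul, derivative_X, one_mul, eval_sub, eval_add, eval_mul, eval_X] at h6
      exact sub_eq_zero.1 h6
    have h7 : a.eval z = z * b.eval z := by
      rw [div_eq_iff h3] at h4
      exact h4
    have h8 : (Wr a b).eval z = b.eval z ^ 2 := by
      unfold Wr
      rw [eval_sub, eval_mul, eval_mul, h5, h7]
      ring
    rw [h8]
    exact div_self (pow_ne_zero 2 h3)
  have hcard : q.roots.toFinset.card = d + 1 := by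
    rw [Multiset.toFinset_card_of_nodup hnd, splits_iff_card_roots.1 (IsAlgClosed.splits q), hqn]
  obtain ⟨z1, h1, z2, h2, z3, h3, h12, h13, h23⟩ := Finset.two_lt_card.1 (show 2 < q.roots.toFinset.card by omega)
  have key : ∀ z ∈ q.roots.toFinset, rat a b (z : OnePoint ℂ) = (z : OnePoint ℂ) := by
    intro z hz
    obtain ⟨h4, h5⟩ := hfix z (isRoot_of_mem_roots (Multiset.mem_toFinset.1 hz))
    rw [rat_coe_of_ne h4, h5]
  exact ⟨z1, z2, z3, h12, h13, h23, key _ h1, key _ h2, key _ h3⟩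

/-- three distinct fixed points -/
theorem three_fix (hd : 2 ≤ d) {v : E d} (hcop : IsCoprime (pol v.1) (pol v.2))
    (hdeg : max (pol v.1).natDegree (pol v.2).natDegree = d) (hup : ¬ Up v) (hJ : JS (Rf v) = univ) :
    ∃ p1 p2 p3 : OnePoint ℂ, p1 ≠ p2 ∧ p1 ≠ p3 ∧ p2 ≠ p3 ∧ Rf v p1 = p1 ∧ Rf v p2 = p2 ∧ Rf v p3 = p3 := by
  obtain ⟨s, hs⟩ : ∃ s : ℂ, Rf v (s : OnePoint ℂ) ≠ (s : OnePoint ℂ) := by
    by_contra hcon
    push Not at hcon
    have hb0 : ∀ z : ℂ, (pol v.2).eval z ≠ 0 := by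
      intro z h0
      have h1 := hcon z
      unfold Rf at h1
      rw [rat_coe, h0] at h1
      unfold pt at h1
      rw [if_pos rfl] at h1
      exact OnePoint.infty_ne_coe _ h1
    have h2 : ∀ z : ℂ, (pol v.1).eval z = z * (pol v.2).eval z := by
      intro z
      have h1 := hcon z
      unfold Rf at h1
      rw [rat_coe_of_ne (hb0 z)] at h1
      have h3 := OnePoint.coe_injective h1
      rw [div_eq_iff (hb0 z)] at h3
      exact h3
    have h3 : pol v.1 = X * pol v.2 := by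
      refine Polynomial.funext fun z => ?_
      rw [h2, eval_mul, eval_X]
    have h4 : IsUnit (pol v.2) := by
      rw [h3] at hcop
      exact hcop.isUnit_of_dvd' (Dvd.intro_left _ rfl) dvd_rfl
    have h5 := natDegree_eq_zero_of_isUnit h4
    have h6 : (pol v.1).natDegree ≤ 1 := by
      rw [h3]
      refine natDegree_mul_le.trans ?_
      rw [h5, natDegree_X]
    omega
  obtain ⟨G, φ, K, hch, -, hφs, -⟩ := ch_mob (d := d) hd s
  obtain ⟨hcop1, hdeg1, hφ⟩ := hch.conj v hcop hdeg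
  have hup1 : ¬ Up (Lin s v) := fun h =>
    hup (up_chart hd hch.cG hch.invL hch.invR (fun v h3 h4 => (hch.conj v h3 h4).2.2) hcop hdeg h)
  have hJS1 : ∀ x, x ∈ JS (Rf (Lin s v)) := by
    intro y
    obtain ⟨x, rfl⟩ := φ.surjective y
    intro h
    have h1 : x ∈ JS (Rf v) := hJ ▸ mem_univ x
    exact h1 ((Pool.Agent.H76.SU.fs_conj hch.bil hφ x).1 h)
  have hinf : rat (pol (Lin s v).1) (pol (Lin s v).2) OnePoint.infty ≠ OnePoint.infty := by
    intro h
    have h1 : Rf (Lin s v) (φ (s : OnePoint ℂ)) = φ (s : OnePoint ℂ) := by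
      rw [hφs]
      exact h
    rw [hφ] at h1
    exact hs (φ.injective h1)
  obtain ⟨z1, z2, z3, h12, h13, h23, e1, e2, e3⟩ := fix_chart hd hcop1 hdeg1 hinf (by
    intro z hz hfz h1
    have hfx : Rf (Lin s v) (z : OnePoint ℂ) = (z : OnePoint ℂ) := by
      unfold Rf
      rw [rat_coe_of_ne hz, hfz]
    obtain ⟨x, m, hc, hm, hx⟩ := mk_cyc (N := 1) hd hcop1 hdeg1 hup1 (hJS1 (z : OnePoint ℂ)) le_rfl hfx (by
      intro i
      rw [Function.iterate_fixed hfx]
      exact OnePoint.coe_ne_infty _)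
    have hx0 : x 0 = z := OnePoint.coe_injective (hx 0)
    have h2 := hc.mul
    rw [Finset.prod_range_one, hx0, h1] at h2
    rw [← h2, norm_one] at hm
    exact lt_irrefl _ hm)
  obtain ⟨p1, hp1⟩ := φ.surjective (z1 : OnePoint ℂ)
  obtain ⟨p2, hp2⟩ := φ.surjective (z2 : OnePoint ℂ)
  obtain ⟨p3, hp3⟩ := φ.surjective (z3 : OnePoint ℂ)
  have key : ∀ {p : OnePoint ℂ} {z : ℂ}, φ p = (z : OnePoint ℂ) →
      rat (pol (Lin s v).1) (pol (Lin s v).2) (z : OnePoint ℂ) = (z : OnePoint ℂ) → Rf v p = p := by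
    intro p z hp hz
    apply φ.injective
    rw [← hφ, hp]
    exact hz
  have kne : ∀ {p q : OnePoint ℂ} {z w : ℂ}, φ p = (z : OnePoint ℂ) → φ q = (w : OnePoint ℂ) → z ≠ w → p ≠ q := by
    rintro p q z w hp hq hzw rfl
    exact hzw (OnePoint.coe_injective (hp.symm.trans hq))
  exact ⟨p1, p2, p3, kne hp1 hp2 h12, kne hp1 hp3 h13, kne hp2 hp3 h23, key hp1 e1, key hp2 e2, key hp3 e3⟩

end Pool.Agent.H64.NC
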