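import Pool.Agent.H64.NC.NSB

/-!
# Module CNA: conical points in the chart

`ConAt f y`: for some `δ` there are infinitely many `n` such that an open neighbourhood of `y` is mapped injectively by `f^n` onto a set which contains the chordal ball of radius `δ` at `f^n y`.
`con_pl`: in a chart `Cht` the critical value has infinitely many conical times `Cal` (H3/NC/Defs).
-/

set_option autoImplicit false

open Filter Topology Polynomial Metric Set MeasureTheory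

namespace Pool.Agent.H64.NC

open Pool.Agent.H44.Fatou (rat rat_continuous ev wv crit_coe rat_coe rat_coe_of_ne pt)
open Pool.Agent.H56.HR (FS EqAt)
open Pool.Agent.H32.BT Pool.Agent.H79.Eul Pool.Agent.H79.Par
open Pool.Agent.H35.EX Pool.Agent.H44.RC Pool.Agent.H47.RJ
open Pool.Agent.H61.TT Pool.Agent.H57.CP Pool.Agent.H3.NC Pool.Agent.H80.AJ

/-- conical points -/
def ConAt (f : OnePoint ℂ → OnePoint ℂ) (y : OnePoint ℂ) : Prop :=
  ∃ δ : ℝ, 0 < δ ∧ ∀ N : ℕ, ∃ n : ℕ, N ≤ n ∧ ∃ W : Set (OnePoint ℂ), IsOpen W ∧ y ∈ W ∧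
    InjOn f^[n] W ∧ {x | chord (f^[n] y) x < δ} ⊆ f^[n] '' W

/-- the orbit of a point which is mapped near the Julia set -/
theorem fin_orb {d D : ℕ} {a b : Polynomial ℂ} {J : Set ℂ} {δ0 R0 : ℝ} (h : NS d D a b J δ0 R0) {n : ℕ} {s : ℂ}
    (hs : ∃ y ∈ J, ∃ w ∈ ball y δ0, (rat a b)^[n] (s : OnePoint ℂ) = (w : OnePoint ℂ)) :
    (∀ i < n, b.eval ((gg a b)^[i] s) ≠ 0) ∧
      ∀ i ≤ n, (rat a b)^[i] (s : OnePoint ℂ) = (((gg a b)^[i] s : ℂ) : OnePoint ℂ) := by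
  obtain ⟨y, hy, w, hw, he⟩ := hs
  have hfin : ∀ i ≤ n, ∃ z : ℂ, (rat a b)^[i] (s : OnePoint ℂ) = (z : OnePoint ℂ) := by
    intro i hi
    obtain ⟨z, hz, -⟩ := h.bd (n - i) ((rat a b)^[i] (s : OnePoint ℂ)) ⟨y, hy, w, hw, by
      rw [← Function.iterate_add_apply, Nat.sub_add_cancel hi, he]⟩
    exact ⟨z, hz⟩
  have key : ∀ i ≤ n, (∀ j < i, b.eval ((gg a b)^[j] s) ≠ 0) ∧
      (rat a b)^[i] (s : OnePoint ℂ) = (((gg a b)^[i] s : ℂ) : OnePoint ℂ) := by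
    intro i
    induction i with
    | zero => exact fun _ => ⟨fun j hj => absurd hj (Nat.not_lt_zero j), rfl⟩
    | succ i ih =>
      intro hi
      obtain ⟨h1, h2⟩ := ih (by omega)
      have h3 : b.eval ((gg a b)^[i] s) ≠ 0 := by
        intro h0
        obtain ⟨z, hz⟩ := hfin (i + 1) hi
        rw [Function.iterate_succ_apply', h2, rat_coe, h0] at hz
        unfold pt at hz
        rw [if_pos rfl] at hz
        exact OnePoint.coe_ne_infty _ hz.symm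
      refine ⟨fun j hj => ?_, ?_⟩
      · rcases Nat.lt_succ_iff_lt_or_eq.1 hj with h4 | h4
        · exact h1 j h4
        · rw [h4]
          exact h3
      · rw [Function.iterate_succ_apply', h2, rat_coe_of_ne h3, Function.iterate_succ_apply']
        rfl
  exact ⟨(key n le_rfl).1, fun i hi => (key i hi).2⟩

private theorem chord_le (a b : ℂ) : chord (a : OnePoint ℂ) (b : OnePoint ℂ) ≤ ‖a - b‖ := by
  show ‖a - b‖ / (√(1 + ‖a‖ ^ 2) * √(1 + ‖b‖ ^ 2)) ≤ ‖a - b‖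
  have h1 : ∀ c : ℂ, 1 ≤ √(1 + ‖c‖ ^ 2) := fun c => by
    rw [Real.one_le_sqrt]
    nlinarith [norm_nonneg c]
  exact div_le_self (norm_nonneg _) (one_le_mul_of_one_le_of_one_le (h1 a) (h1 b))

theorem con_pl {d : ℕ} {v u : E d} {c : OnePoint ℂ} {D : ℕ} {φ : OnePoint ℂ ≃ₜ OnePoint ℂ} {K : ℝ} {c1 : ℂ}
    {δ0 R0 : ℝ} (h : Cht v c D u φ K c1 δ0 R0) (hC : ConAt (Rf v) (Rf v c)) :
    ∃ δ : ℝ, 0 < δ ∧ δ ≤ δ0 ∧ ∀ N : ℕ, ∃ n : ℕ, N ≤ n ∧ ∃ G : ℂ → ℂ,
      Cal (pol u.1) (pol u.2) (gg (pol u.1) (pol u.2) c1) δ n G := by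
  obtain ⟨δ, hδ, hn⟩ := hC
  have hns := h.ns
  obtain ⟨a, ha⟩ : ∃ a, a = pol u.1 := ⟨_, rfl⟩
  obtain ⟨b, hb⟩ : ∃ b, b = pol u.2 := ⟨_, rfl⟩
  have hRf : Rf u = rat a b := by rw [ha, hb]; rfl
  obtain ⟨J, hJ⟩ : ∃ J, J = JC u := ⟨_, rfl⟩
  rw [← ha, ← hb, ← hJ] at hns
  rw [← ha, ← hb]
  have hcJ : c1 ∈ J := by rw [hJ]; exact h.cJ
  have hK : 0 < K := by
    have h1 := (h.bil ((0 : ℂ) : OnePoint ℂ) OnePoint.infty).1
    have h2 : 0 < chord ((0 : ℂ) : OnePoint ℂ) OnePoint.infty := by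
      show 0 < 1 / √(1 + ‖(0 : ℂ)‖ ^ 2)
      positivity
    have h3 : 0 < chord (φ ((0 : ℂ) : OnePoint ℂ)) (φ OnePoint.infty) := by
      rcases (Pool.Agent.H44.RR.chord_nn (φ ((0 : ℂ) : OnePoint ℂ)) (φ OnePoint.infty)).eq_or_lt with h4 | h4
      · exfalso
        have h5 := φ.injective (Pool.Agent.H44.RR.chord_eqz h4.symm)
        exact OnePoint.coe_ne_infty _ h5
      · exact h4
    by_contra hK
    have h4 := mul_nonpos_of_nonpos_of_nonneg (not_lt.1 hK) h2.le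
    linarith
  have hcont : Continuous (rat a b) := rat_continuous hns.rt.cop
  have hopen : IsOpenMap (rat a b) := rat_open hns.rt.cop (by rw [hns.rt.deg]; have := hns.rt.hd; omega)
  have hiter : ∀ (n : ℕ) (x : OnePoint ℂ), (rat a b)^[n] (φ x) = φ ((Rf v)^[n] x) := by
    intro n x
    rw [← hRf]
    exact iter_conj φ h.conj n x
  have hgit : ∀ (n : ℕ) (z : ℂ), z ∈ J → (gg a b)^[n] z ∈ J ∧
      (rat a b)^[n] (z : OnePoint ℂ) = (((gg a b)^[n] z : ℂ) : OnePoint ℂ) := by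
    intro n z hz
    induction n with
    | zero => exact ⟨hz, rfl⟩
    | succ n ih =>
      rw [Function.iterate_succ_apply', Function.iterate_succ_apply', ih.2, rat_coe_of_ne (hns.Jn _ ih.1)]
      exact ⟨hns.Ji _ ih.1, rfl⟩
  have hvJ : gg a b c1 ∈ J := hns.Ji _ hcJ
  have hv : φ (Rf v c) = ((gg a b c1 : ℂ) : OnePoint ℂ) := by
    rw [← h.conj, h.pc, hRf, rat_coe_of_ne (hns.Jn _ hcJ)]
    rfl
  obtain ⟨δ1, hδ1⟩ : ∃ δ1, δ1 = min δ0 (δ / K) := ⟨_, rfl⟩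
  have hδ10 : 0 < δ1 := by rw [hδ1]; exact lt_min hns.hδ0 (div_pos hδ hK)
  refine ⟨δ1, hδ10, by rw [hδ1]; exact min_le_left _ _, fun N => ?_⟩
  obtain ⟨n, hnN, W, hW, hyW, hinj, himg⟩ := hn N
  refine ⟨n, hnN, ?_⟩
  obtain ⟨w, hw⟩ : ∃ w, w = (gg a b)^[n] (gg a b c1) := ⟨_, rfl⟩
  have hwJ : w ∈ J := by rw [hw]; exact (hgit n _ hvJ).1
  have hwφ : (w : OnePoint ℂ) = φ ((Rf v)^[n] (Rf v c)) := by
    rw [hw, ← (hgit n _ hvJ).2, ← hv, hiter]
  -- the preimages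
  have hex : ∀ z : ℂ, z ∈ ball w δ1 → ∃ s : ℂ, (s : OnePoint ℂ) ∈ φ '' W ∧
      (rat a b)^[n] (s : OnePoint ℂ) = (z : OnePoint ℂ) := by
    intro z hz
    obtain ⟨x, hx⟩ := φ.surjective (z : OnePoint ℂ)
    have h1 : chord ((Rf v)^[n] (Rf v c)) x < δ := by
      have h2 := (h.bil ((Rf v)^[n] (Rf v c)) x).2
      rw [hx, ← hwφ] at h2
      have h3 := chord_le w z
      have h4 : ‖w - z‖ < δ / K := by
        rw [norm_sub_rev, ← mem_ball_iff_norm]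
        exact ball_subset_ball (by rw [hδ1]; exact min_le_right _ _) hz
      have h5 : K * chord (w : OnePoint ℂ) (z : OnePoint ℂ) < δ := by
        have h6 : chord (w : OnePoint ℂ) (z : OnePoint ℂ) < δ / K := h3.trans_lt h4
        rw [lt_div_iff₀ hK] at h6
        linarith
      linarith
    obtain ⟨t, htW, ht⟩ := himg h1
    have h6 : (rat a b)^[n] (φ t) = (z : OnePoint ℂ) := by rw [hiter, ht, hx]
    obtain ⟨s, hs, -⟩ := hns.bd n (φ t) ⟨w, hwJ, z,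
      ball_subset_ball (by rw [hδ1]; exact min_le_left _ _) hz, h6⟩
    exact ⟨s, ⟨t, htW, hs⟩, by rw [← hs]; exact h6⟩
  obtain ⟨G, hG⟩ : ∃ G : ℂ → ℂ, ∀ z ∈ ball w δ1, (G z : OnePoint ℂ) ∈ φ '' W ∧
      (rat a b)^[n] (G z : OnePoint ℂ) = (z : OnePoint ℂ) := by
    classical
    refine ⟨fun z => if hz : z ∈ ball w δ1 then (hex z hz).choose else 0, fun z hz => ?_⟩
    simp only [hz, dite_true]
    exact (hex z hz).choose_spec
  have hφW : IsOpen (φ '' W) := φ.isOpenMap _ hW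
  have hinj' : InjOn ((rat a b)^[n]) (φ '' W) := by
    rintro _ ⟨t1, ht1, rfl⟩ _ ⟨t2, ht2, rfl⟩ he
    rw [hiter, hiter] at he
    rw [hinj ht1 ht2 (φ.injective he)]
  have hopn : IsOpenMap ((rat a b)^[n]) := Pool.Agent.H91.Fatou.open_iterate hopen n
  have hGc : ContinuousOn G (ball w δ1) := by
    intro z0 hz0
    apply ContinuousAt.continuousWithinAt
    intro M hM
    obtain ⟨M', hM'M, hM'o, hzM'⟩ := _root_.mem_nhds_iff.1 hM
    have h1 : IsOpen (φ '' W ∩ (fun z : ℂ => (z : OnePoint ℂ)) '' M') :=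
      hφW.inter (OnePoint.isOpenEmbedding_coe.isOpenMap _ hM'o)
    have h2 : IsOpen ((fun z : ℂ => (z : OnePoint ℂ)) ⁻¹'
        ((rat a b)^[n] '' (φ '' W ∩ (fun z : ℂ => (z : OnePoint ℂ)) '' M'))) :=
      (hopn _ h1).preimage OnePoint.continuous_coe
    have h3 : z0 ∈ (fun z : ℂ => (z : OnePoint ℂ)) ⁻¹'
        ((rat a b)^[n] '' (φ '' W ∩ (fun z : ℂ => (z : OnePoint ℂ)) '' M')) :=
      ⟨(G z0 : OnePoint ℂ), ⟨(hG z0 hz0).1, ⟨G z0, hzM', rfl⟩⟩, (hG z0 hz0).2⟩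
    rw [Filter.mem_map]
    filter_upwards [h2.mem_nhds h3, isOpen_ball.mem_nhds hz0] with z hz hzb
    obtain ⟨_, ⟨hs1, ⟨s, hs, rfl⟩⟩, he⟩ := hz
    have h4 : (G z : OnePoint ℂ) = (s : OnePoint ℂ) := by
      refine hinj' (hG z hzb).1 hs1 ?_
      rw [(hG z hzb).2]
      exact he.symm
    have h5 : G z = s := OnePoint.coe_injective h4
    show G z ∈ M
    rw [h5]
    exact hM'M hs
  have hwδ : w ∈ ball w δ1 := mem_ball_self hδ10
  refine ⟨G, ?_, ?_, ?_⟩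
  · intro z0 hz0
    rw [← hw] at hz0
    apply DifferentiableAt.differentiableWithinAt
    obtain ⟨S, hS⟩ : ∃ S : Set ℂ, S = {s : ℂ | (s : OnePoint ℂ) ∈ (rat a b)^[n] ⁻¹'
        ((fun z : ℂ => (z : OnePoint ℂ)) '' ball w δ1)} := ⟨_, rfl⟩
    have hSo : IsOpen S := by
      rw [hS]
      exact ((OnePoint.isOpenEmbedding_coe.isOpenMap _ isOpen_ball).preimage (hcont.iterate n)).preimage
        OnePoint.continuous_coe
    refine diff_of_inverse (Φ := (gg a b)^[n]) (isOpen_ball.mem_nhds hz0) hGc hSo ?_ ?_ ?_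
    · rw [hS]
      exact ⟨z0, hz0, (hG z0 hz0).2.symm⟩
    · intro s hs
      rw [hS] at hs
      obtain ⟨z, hz, he⟩ := hs
      have h1 := fin_orb hns (n := n) (s := s) ⟨w, hwJ, z,
        ball_subset_ball (by rw [hδ1]; exact min_le_left _ _) hz, he.symm⟩
      exact (bra_it h1.1).hasDerivAt.differentiableAt.differentiableWithinAt
    · intro z hz _
      have h1 := fin_orb hns (n := n) (s := G z) ⟨w, hwJ, z,
        ball_subset_ball (by rw [hδ1]; exact min_le_left _ _) hz, (hG z hz).2⟩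
      have h2 := h1.2 n le_rfl
      rw [(hG z hz).2] at h2
      exact (OnePoint.coe_injective h2).symm
  · rw [← hw]
    have h1 : (G w : OnePoint ℂ) = ((gg a b c1 : ℂ) : OnePoint ℂ) := by
      refine hinj' (hG w hwδ).1 ⟨Rf v c, hyW, hv⟩ ?_
      rw [(hG w hwδ).2, (hgit n _ hvJ).2, hw]
    exact OnePoint.coe_injective h1
  · intro z hz
    rw [← hw] at hz
    exact (hG z hz).2

end Pool.Agent.H64.NC
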