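import Mathlib
import Pool.Agent.H64.NC.DCH
import Pool.Agent.H64.NC.PRT
import Pool.Agent.H32.RB.Main

/-!
# Module FIN: persistent recurrence, statement for the hand-in (J not the sphere)

Definitions in words of Mathlib; `julia_eq`, `att_iff`, `number_eq`, `map_eq`, `rat_is`, `rf_ex`, `pr_iff` compare them with the library. `dich`: `pr_all` (H64/NC/DCH). `exc_nwd`: `upF_nwd` (H57/CF/UPF).
`stable`: one of the maps near `f` is outside the nowhere dense set and is conjugate to `f`; `js_conj`, `pr_conj` (H64/NC/PRT).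
-/

set_option autoImplicit false

namespace Pool.Agent.H64.NC.Y

open Polynomial Filter Topology

/-- `f` is the rational map `P/Q` on the sphere. -/
def IsMap (f : OnePoint ℂ → OnePoint ℂ) (P Q : Polynomial ℂ) : Prop :=
  Continuous f ∧
    ∀ z : ℂ, Q.eval z ≠ 0 → f (OnePoint.some z) = OnePoint.some (P.eval z / Q.eval z)

/-- `c` is a critical point of `f`. -/
def IsCritical (f : OnePoint ℂ → OnePoint ℂ) (c : OnePoint ℂ) : Prop :=
  ¬ ∃ U ∈ nhds c, Set.InjOn f U

/-- `c` is attracted by an attracting cycle of `f` (words of the frozen statement `S05373`). -/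
def IsAttracted (f : OnePoint ℂ → OnePoint ℂ) (c : OnePoint ℂ) : Prop :=
  ∃ z : OnePoint ℂ, ∃ n : ℕ, 0 < n ∧ f^[n] z = z ∧
    (∃ U ∈ nhds z, ∀ w ∈ U,
      Filter.Tendsto (fun k : ℕ => f^[n * k] w) Filter.atTop (nhds z)) ∧
    Filter.Tendsto (fun k : ℕ => f^[n * k] c) Filter.atTop (nhds z)

/-- The number of the critical points which are attracted by attracting cycles. -/
noncomputable def attractedNumber (f : OnePoint ℂ → OnePoint ℂ) : ℕ :=
  {c : OnePoint ℂ | IsCritical f c ∧ IsAttracted f c}.ncard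

/-- The chordal distance of the Riemann sphere. -/
noncomputable def chordal : OnePoint ℂ → OnePoint ℂ → ℝ
  | OnePoint.some z, OnePoint.some w => ‖z - w‖ / (√(1 + ‖z‖ ^ 2) * √(1 + ‖w‖ ^ 2))
  | OnePoint.some z, OnePoint.infty => 1 / √(1 + ‖z‖ ^ 2)
  | OnePoint.infty, OnePoint.some w => 1 / √(1 + ‖w‖ ^ 2)
  | OnePoint.infty, OnePoint.infty => 0

/-- The Julia set of `f`: the points without a neighbourhood at whose points the iterates of `f` are
equicontinuous for the chordal distance. -/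
def julia (f : OnePoint ℂ → OnePoint ℂ) : Set (OnePoint ℂ) :=
  (interior {x | ∀ ε : ℝ, 0 < ε → ∀ᶠ y in nhds x, ∀ n : ℕ, chordal (f^[n] x) (f^[n] y) < ε})ᶜ

/-- The pull back at the time `k` of the disc of radius `δ` at `f^n(x)`: the connected component of its preimage
under `f^(n-k)` which contains `f^k(x)`. -/
def pullback (f : OnePoint ℂ → OnePoint ℂ) (x : OnePoint ℂ) (n : ℕ) (δ : ℝ) (k : ℕ) : Set (OnePoint ℂ) :=
  connectedComponentIn {z | chordal (f^[n - k] z) (f^[n] x) < δ} (f^[k] x)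

/-- The times `k < n` at which the pull back of the disc of radius `δ` at `f^n(x)` contains a critical point. -/
def criticalTimes (f : OnePoint ℂ → OnePoint ℂ) (x : OnePoint ℂ) (n : ℕ) (δ : ℝ) : Set ℕ :=
  {k | k < n ∧ ∃ c, IsCritical f c ∧ c ∈ pullback f x n δ k}

/-- `c` is persistently recurrent: for all `δ` and `D` there are only finitely many `n` such that the pull backs of the
disc of radius `δ` at `f^n(f(c))` along `f(c), .., f^n(f(c))` contain critical points at most `D` times. -/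
def IsPersistentlyRecurrent (f : OnePoint ℂ → OnePoint ℂ) (c : OnePoint ℂ) : Prop :=
  ∀ δ : ℝ, 0 < δ → ∀ D : ℕ, {n : ℕ | (criticalTimes f (f c) n δ).ncard ≤ D}.Finite

/-- All critical points in the Julia set are persistently recurrent. -/
def JuliaPersistent (f : OnePoint ℂ → OnePoint ℂ) : Prop :=
  ∀ c, IsCritical f c → c ∈ julia f → IsPersistentlyRecurrent f c

/-- `f` and `g` are topologically conjugate. -/
def AreConjugate (f g : OnePoint ℂ → OnePoint ℂ) : Prop :=
  ∃ h : OnePoint ℂ ≃ₜ OnePoint ℂ, ∀ x, h (f x) = g (h x)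

/-- The polynomial of degree at most `d` with coefficients `v`. -/
noncomputable def poly {d : ℕ} (v : Fin (d + 1) → ℂ) : Polynomial ℂ := ∑ i, C (v i) * X ^ (i : ℕ)

/-- Pairs of polynomials `P`, `Q` with `deg P ≤ d`, `deg Q ≤ d - m`, given by their coefficients. -/
abbrev Pairs (d m : ℕ) : Type := (Fin (d + 1) → ℂ) × (Fin (d - m + 1) → ℂ)

/-- `f = P/Q` is the rational map of degree exactly `d` given by the pair `v = (P, Q)` of coprime
polynomials, `deg Q ≤ d - m`. For `m = 0` these are all rational maps of degree `d`, for `m ≥ 1` those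
which fix infinity with local degree at least `m`, for `m = d` the polynomials (up to the constant `Q`). -/
def IsRational {d m : ℕ} (v : Pairs d m) (f : OnePoint ℂ → OnePoint ℂ) : Prop :=
  IsCoprime (poly v.1) (poly v.2) ∧ max (poly v.1).natDegree (poly v.2).natDegree = d ∧
    IsMap f (poly v.1) (poly v.2)

theorem chord_eq (x y : OnePoint ℂ) : chordal x y = Pool.Agent.H35.EX.chord x y := by
  induction x using OnePoint.rec with
  | infty =>
    induction y using OnePoint.rec with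
    | infty => rfl
    | coe y => rfl
  | coe x =>
    induction y using OnePoint.rec with
    | infty => rfl
    | coe y => rfl

theorem julia_eq (f : OnePoint ℂ → OnePoint ℂ) : julia f = Pool.Agent.H44.RC.JS f := by
  unfold julia Pool.Agent.H44.RC.JS Pool.Agent.H56.HR.FS Pool.Agent.H56.HR.EqAt
  simp only [chord_eq]

theorem att_iff {f : OnePoint ℂ → OnePoint ℂ} {c : OnePoint ℂ} :
    Pool.Agent.H32.BT.Att f c ↔ IsAttracted f c := by
  constructor
  · rintro ⟨z, n, ⟨h1, h2, h3⟩, h4⟩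
    exact ⟨z, n, h1, h2, h3, h4⟩
  · rintro ⟨z, n, h1, h2, h3, h4⟩
    exact ⟨z, n, ⟨h1, h2, h3⟩, h4⟩

theorem number_eq {d : ℕ} (v : Pool.Agent.H79.Eul.E d) :
    attractedNumber (Pool.Agent.H79.Par.Rf v) = Pool.Agent.H79.ES.NA v := by
  unfold attractedNumber Pool.Agent.H79.ES.NA
  congr 1
  ext c
  exact and_congr Iff.rfl att_iff.symm

theorem map_eq {d m : ℕ} (hd : 2 ≤ d) {v : Pairs d m} {f : OnePoint ℂ → OnePoint ℂ} (h : IsRational v f) :
    f = Pool.Agent.H79.Par.Rf (Pool.Agent.H47.NM.ex d m v) := by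
  obtain ⟨h1, h2, h3⟩ := h
  have h1' : IsCoprime (Pool.Agent.H79.Eul.pol v.1) (Pool.Agent.H79.Eul.pol v.2) := h1
  have h2' : max (Pool.Agent.H79.Eul.pol v.1).natDegree (Pool.Agent.H79.Eul.pol v.2).natDegree = d := h2
  have hB0 : Pool.Agent.H79.Eul.pol v.2 ≠ 0 := Pool.Agent.H32.BT.den_ne_zero h1' (by omega)
  have h4 := Pool.Agent.H32.RB.ext_eq h1' hB0 h3
  unfold Pool.Agent.H79.Par.Rf
  rw [(Pool.Agent.H47.NM.ex_pol v).1, (Pool.Agent.H47.NM.ex_pol v).2]
  exact h4

theorem rat_is {d m : ℕ} {v : Pairs d m} (h1 : IsCoprime (poly v.1) (poly v.2))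
    (h2 : max (poly v.1).natDegree (poly v.2).natDegree = d) : IsRational v
      (Pool.Agent.H79.Par.Rf (Pool.Agent.H47.NM.ex d m v)) := by
  have h1' : IsCoprime (Pool.Agent.H79.Eul.pol v.1) (Pool.Agent.H79.Eul.pol v.2) := h1
  unfold Pool.Agent.H79.Par.Rf
  rw [(Pool.Agent.H47.NM.ex_pol v).1, (Pool.Agent.H47.NM.ex_pol v).2]
  refine ⟨h1, h2, Pool.Agent.H44.Fatou.rat_continuous h1', fun z hz => ?_⟩
  exact Pool.Agent.H44.Fatou.rat_coe_of_ne hz

theorem pr_iff {f : OnePoint ℂ → OnePoint ℂ} {c : OnePoint ℂ} :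
    Pool.Agent.H3.NC.PR f c ↔ IsPersistentlyRecurrent f c := by
  unfold Pool.Agent.H3.NC.PR IsPersistentlyRecurrent Pool.Agent.H3.NC.CT criticalTimes Pool.Agent.H3.NC.Wk pullback
  simp only [chord_eq]
  exact Iff.rfl

theorem jp_iff {f : OnePoint ℂ → OnePoint ℂ} : JuliaPersistent f ↔
    ∀ c, Pool.Agent.H32.BT.IsCrit f c → c ∈ Pool.Agent.H44.RC.JS f → Pool.Agent.H3.NC.PR f c := by
  unfold JuliaPersistent
  rw [julia_eq]
  exact forall_congr' fun c => forall_congr' fun _ => forall_congr' fun _ => pr_iff.symm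

theorem fs_ne {f : OnePoint ℂ → OnePoint ℂ} (h : julia f ≠ Set.univ) : (Pool.Agent.H56.HR.FS f).Nonempty := by
  rw [julia_eq] at h
  by_contra h1
  rw [Set.not_nonempty_iff_eq_empty] at h1
  apply h
  show (Pool.Agent.H56.HR.FS f)ᶜ = Set.univ
  rw [h1, Set.compl_empty]

/-- The dichotomy for one map. -/
theorem dich {d m : ℕ} (hd : 2 ≤ d) (hm : m ≤ d) {v : Pairs d m}
    {f : OnePoint ℂ → OnePoint ℂ} (hf : IsRational v f) (hJ : julia f ≠ Set.univ) :
    JuliaPersistent f ∨
      ∀ ε : ℝ, 0 < ε → ∃ w ∈ Metric.ball v ε, ∃ g, IsRational w g ∧ attractedNumber f < attractedNumber g := by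
  have h1 := hf.1
  have h2 := hf.2.1
  have hfe := map_eq hd hf
  subst hfe
  by_cases hup : Pool.Agent.H57.CF.UpF d m v
  · right
    intro ε hε
    obtain ⟨w, hw, h3, h4, h5⟩ := hup ε hε
    refine ⟨w, hw, _, rat_is h3 h4, ?_⟩
    rw [number_eq, number_eq]
    exact h5
  · left
    exact jp_iff.2 (Pool.Agent.H64.NC.pr_all hd hm h1 h2 hup (fs_ne hJ))

/-- The exceptional maps are nowhere dense. -/
theorem exc_nwd {d m : ℕ} (hd : 2 ≤ d) (hm : m ≤ d) :
    IsNowhereDense {v : Pairs d m | ∃ f : OnePoint ℂ → OnePoint ℂ, IsRational v f ∧ julia f ≠ Set.univ ∧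
      ¬ JuliaPersistent f} := by
  refine (Pool.Agent.H57.CF.upF_nwd hd).mono ?_
  rintro v ⟨f, hf, hJ, hn⟩
  refine ⟨hf.1, hf.2.1, fun ε hε => ?_⟩
  have hfe := map_eq hd hf
  subst hfe
  obtain ⟨w, hw, g, hg, hlt⟩ := (dich hd hm hf hJ).resolve_left hn ε hε
  have hge := map_eq hd hg
  subst hge
  refine ⟨w, hw, hg.1, hg.2.1, ?_⟩
  rw [number_eq, number_eq] at hlt
  exact hlt

theorem rat_near {d m : ℕ} (hd : 2 ≤ d) {v : Pairs d m} (h1 : IsCoprime (poly v.1) (poly v.2))
    (h2 : max (poly v.1).natDegree (poly v.2).natDegree = d) : ∀ᶠ w : Pairs d m in nhds v,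
      IsCoprime (poly w.1) (poly w.2) ∧ max (poly w.1).natDegree (poly w.2).natDegree = d :=
  Pool.Agent.H57.CF.ex_near hd h1 h2

theorem stable {d m : ℕ} (hd : 2 ≤ d) (hm : m ≤ d) {v : Pairs d m}
    {f : OnePoint ℂ → OnePoint ℂ} (hf : IsRational v f) (hJ : julia f ≠ Set.univ) {ε : ℝ} (hε : 0 < ε)
    (hs : ∀ w ∈ Metric.ball v ε, ∀ g, IsRational w g → AreConjugate f g) : JuliaPersistent f := by
  obtain ⟨X, hX⟩ : ∃ X : Set (Pairs d m), X = {v : Pairs d m | ∃ f : OnePoint ℂ → OnePoint ℂ, IsRational v f ∧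
      julia f ≠ Set.univ ∧ ¬ JuliaPersistent f} := ⟨_, rfl⟩
  have hnd : IsNowhereDense X := by
    rw [hX]
    exact exc_nwd hd hm
  have hN : Metric.ball v ε ∩ {w : Pairs d m | IsCoprime (poly w.1) (poly w.2) ∧
      max (poly w.1).natDegree (poly w.2).natDegree = d} ∈ nhds v :=
    Filter.inter_mem (Metric.ball_mem_nhds v hε) (rat_near hd hf.1 hf.2.1)
  obtain ⟨w, hw, hwX⟩ : ∃ w ∈ Metric.ball v ε ∩ {w : Pairs d m | IsCoprime (poly w.1) (poly w.2) ∧
      max (poly w.1).natDegree (poly w.2).natDegree = d}, w ∉ X := by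
    by_contra hcon
    push Not at hcon
    have h1 : Metric.ball v ε ∩ {w : Pairs d m | IsCoprime (poly w.1) (poly w.2) ∧
      max (poly w.1).natDegree (poly w.2).natDegree = d} ⊆ closure X := fun w hw => subset_closure (hcon w hw)
    have h2 : v ∈ interior (closure X) := mem_interior_iff_mem_nhds.2 (Filter.mem_of_superset hN h1)
    unfold IsNowhereDense at hnd
    rw [hnd] at h2
    exact h2
  have hg := rat_is hw.2.1 hw.2.2
  obtain ⟨g, hgd⟩ : ∃ g, g = Pool.Agent.H79.Par.Rf (Pool.Agent.H47.NM.ex d m w) := ⟨_, rfl⟩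
  rw [← hgd] at hg
  obtain ⟨h, hh⟩ := hs w hw.1 g hg
  have hjs := Pool.Agent.H64.NC.js_conj h hh
  have hJg : julia g ≠ Set.univ := by
    intro h1
    apply hJ
    rw [julia_eq] at h1 ⊢
    refine Set.eq_univ_of_forall fun x => ?_
    rw [← hjs x, h1]
    exact Set.mem_univ _
  have hpg : JuliaPersistent g := by
    by_contra hn
    apply hwX
    rw [hX]
    exact ⟨g, hg, hJg, hn⟩
  rw [jp_iff] at hpg ⊢
  intro c hc hcJ
  refine Pool.Agent.H64.NC.pr_conj h hh (hpg (h c) ?_ ((hjs c).2 hcJ))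
  exact (Pool.Agent.H32.BT.isCrit_conj h (fun y => (hh y).symm) c).2 hc

/-- Let `2 ≤ d`, `m ≤ d`, and consider the rational maps `f = P/Q` of degree `d` with `deg Q ≤ d - m`
(`m = 0`: all rational maps of degree `d`; `m = d`: all polynomials of degree `d`), whose Julia set is not the sphere.
(1) If all maps of the family near `f` are topologically conjugate to `f` then every critical point of the Julia set of
`f` is persistently recurrent. (2) For EVERY `f`: every critical point of the Julia set is persistently recurrent, or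
there are maps of the family arbitrarily near `f` with more critical points which are attracted by attracting cycles.
(3) The maps with a critical point in the Julia set which is not persistently recurrent are nowhere dense. -/
theorem result (d m : ℕ) (hd : 2 ≤ d) (hm : m ≤ d) :
    (∀ (v : Pairs d m) (f : OnePoint ℂ → OnePoint ℂ), IsRational v f → julia f ≠ Set.univ →
      (∃ ε : ℝ, 0 < ε ∧ ∀ w ∈ Metric.ball v ε, ∀ g, IsRational w g → AreConjugate f g) → JuliaPersistent f) ∧
    (∀ (v : Pairs d m) (f : OnePoint ℂ → OnePoint ℂ), IsRational v f → julia f ≠ Set.univ →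
      JuliaPersistent f ∨
        ∀ ε : ℝ, 0 < ε → ∃ w ∈ Metric.ball v ε, ∃ g, IsRational w g ∧ attractedNumber f < attractedNumber g) ∧
    IsNowhereDense {v : Pairs d m | ∃ f : OnePoint ℂ → OnePoint ℂ, IsRational v f ∧ julia f ≠ Set.univ ∧
      ¬ JuliaPersistent f} :=
  ⟨fun _ _ hf hJ h => by
    obtain ⟨ε, hε, hs⟩ := h
    exact stable hd hm hf hJ hε hs, fun _ _ hf hJ => dich hd hm hf hJ, exc_nwd hd hm⟩

end Pool.Agent.H64.NC.Y
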