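import Pool.Agent.H64.NC.PRT
import Pool.Agent.H31.NZ.ZED

/-!
# Module MCJ: minimal limit sets and conjugacies of the sphere

`MinP f c`: if the postcritical set is totally disconnected then the limit set of `c` is minimal. `min_conj`: it is invariant under conjugacies.
-/

set_option autoImplicit false

open Filter Topology Metric Set

namespace Pool.Agent.H64.NC

open Pool.Agent.H35.EX Pool.Agent.H44.RR Pool.Agent.H32.BT Pool.Agent.H56.HR Pool.Agent.H44.RC
open Pool.Agent.H31.NZ (PJ)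

variable {f g : OnePoint ℂ → OnePoint ℂ} (h : OnePoint ℂ ≃ₜ OnePoint ℂ)

/-- minimal limit set if the postcritical set is totally disconnected -/
def MinP (f : OnePoint ℂ → OnePoint ℂ) (c : OnePoint ℂ) : Prop :=
  IsTotallyDisconnected (PJ f (JS f)) → ∀ M : Set (OnePoint ℂ), M ⊆ {y | MapClusterPt y atTop fun n : ℕ => f^[n] c} →
    IsClosed M → M.Nonempty → MapsTo f M M → M = {y | MapClusterPt y atTop fun n : ℕ => f^[n] c}

theorem om_img (hfg : ∀ x, h (f x) = g (h x)) (x y : OnePoint ℂ) :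
    MapClusterPt (h y) atTop (fun n : ℕ => g^[n] (h x)) ↔ MapClusterPt y atTop fun n : ℕ => f^[n] x := by
  have hit : ∀ (n : ℕ) (y : OnePoint ℂ), g^[n] (h y) = h (f^[n] y) := iter_conj h fun y => (hfg y).symm
  rw [mapClusterPt_iff_frequently, mapClusterPt_iff_frequently]
  constructor
  · intro h1 U hU
    have h2 : h.symm ⁻¹' U ∈ 𝓝 (h y) := by
      refine h.symm.continuous.continuousAt.preimage_mem_nhds ?_
      rwa [h.symm_apply_apply]
    refine (h1 _ h2).mono fun n hn => ?_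
    rw [hit, mem_preimage, h.symm_apply_apply] at hn
    exact hn
  · intro h1 U hU
    have h2 : h ⁻¹' U ∈ 𝓝 y := h.continuous.continuousAt.preimage_mem_nhds hU
    refine (h1 _ h2).mono fun n hn => ?_
    rw [hit]
    exact hn

theorem pj_img (hfg : ∀ x, h (f x) = g (h x)) : h '' PJ f (JS f) = PJ g (JS g) := by
  have hit : ∀ (n : ℕ) (y : OnePoint ℂ), g^[n] (h y) = h (f^[n] y) := iter_conj h fun y => (hfg y).symm
  unfold PJ
  rw [h.image_closure]
  congr 1
  ext y
  constructor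
  · rintro ⟨_, ⟨c, hc, hcJ, n, hn, rfl⟩, rfl⟩
    exact ⟨h c, (isCrit_conj h (fun y => (hfg y).symm) c).2 hc, (js_conj h hfg c).2 hcJ, n, hn, hit n c⟩
  · rintro ⟨c, hc, hcJ, n, hn, rfl⟩
    obtain ⟨c, rfl⟩ := h.surjective c
    exact ⟨f^[n] c, ⟨c, (isCrit_conj h (fun y => (hfg y).symm) c).1 hc, (js_conj h hfg c).1 hcJ, n, hn, rfl⟩,
      (hit n c).symm⟩

theorem min_conj (hfg : ∀ x, h (f x) = g (h x)) {c : OnePoint ℂ} (hc : MinP g (h c)) : MinP f c := by
  intro htd M hM hMc hMn hMf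
  have h1 : IsTotallyDisconnected (PJ g (JS g)) := by
    rw [← pj_img h hfg]
    exact h.isEmbedding.isTotallyDisconnected_image.2 htd
  have h2 := hc h1 (h '' M) ?_ (h.isClosed_image.2 hMc) (hMn.image h) ?_
  · ext y
    rw [← h.injective.mem_set_image, h2]
    exact om_img h hfg c y
  · rintro _ ⟨y, hy, rfl⟩
    exact (om_img h hfg c y).2 (hM hy)
  · rintro _ ⟨y, hy, rfl⟩
    exact ⟨f y, hMf hy, hfg y⟩

end Pool.Agent.H64.NC
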