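import Pool.Agent.H64.NC.PAS
import Pool.Agent.H44.NR.Dsa
import Pool.Agent.H1.PU.Jpl
import Pool.Agent.H84.BR.Def

/-!
# Module NSA: the planar setting of THEOREM NC

`ns_of`: a map in a chart with infinity in the interior of a trap, without neutral cycles in the plane, whose Fatou points are exactly the attracted points,
with a Julia critical point `c` in the plane and the Lagrange identity of degree `D` is in the setting `NS` (H3/NC/Defs), `J` the Julia set.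
-/

set_option autoImplicit false

open Filter Topology Polynomial Metric Set MeasureTheory

namespace Pool.Agent.H64.NC

open Pool.Agent.H44.Fatou (rat rat_continuous ev wv rat_coe rat_coe_of_ne pt)
open Pool.Agent.H56.HR (FS EqAt)
open Pool.Agent.H32.BT Pool.Agent.H79.Eul Pool.Agent.H79.Par Pool.Agent.H47.NN Pool.Agent.H44.ND
open Pool.Agent.H79.ES Pool.Agent.H35.EX Pool.Agent.H44.RC Pool.Agent.H47.RJ Pool.Agent.H84.BR
open Pool.Agent.H61.TT Pool.Agent.H57.CP Pool.Agent.H3.NC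

variable {d : ℕ} {v : E d}

/-- the Julia set in the plane -/
def JC (v : E d) : Set ℂ := {z : ℂ | (z : OnePoint ℂ) ∈ JS (Rf v)}

/-- the general assumptions -/
structure GA (v : E d) (T : Set (OnePoint ℂ)) : Prop where
  hd : 2 ≤ d
  cop : IsCoprime (pol v.1) (pol v.2)
  deg : max (pol v.1).natDegree (pol v.2).natDegree = d
  no : ∀ p : ℕ, 0 < p → ∀ x m, Cyc (pol v.1) (pol v.2) p x m → ‖m‖ ≠ 1
  af : ∀ x, Att (Rf v) x → x ∈ FS (Rf v)
  fa : ∀ x ∈ FS (Rf v), Att (Rf v) x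
  tr : Trap (Rf v) T
  ti : OnePoint.infty ∈ interior T

theorem GA.fi {T : Set (OnePoint ℂ)} (h : GA v T) : OnePoint.infty ∈ FS (Rf v) :=
  h.af _ (h.tr.att _ (interior_subset h.ti))

theorem GA.js {T : Set (OnePoint ℂ)} (h : GA v T) (n : ℕ) {x : OnePoint ℂ} (hx : x ∈ JS (Rf v)) :
    (Rf v)^[n] x ∈ JS (Rf v) := fun h1 => hx ((fs_iff (by have := h.hd; omega) h.cop h.deg n x).1 h1)

theorem GA.bne {T : Set (OnePoint ℂ)} (h : GA v T) {z : ℂ} (hz : z ∈ JC v) : (pol v.2).eval z ≠ 0 := by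
  intro h0
  have h1 := h.js 1 hz
  rw [Function.iterate_one] at h1
  unfold Rf at h1
  rw [rat_coe, h0] at h1
  unfold pt at h1
  rw [if_pos rfl] at h1
  exact h1 h.fi

theorem GA.ggz {T : Set (OnePoint ℂ)} (h : GA v T) {z : ℂ} (hz : z ∈ JC v) :
    Rf v (z : OnePoint ℂ) = ((gg (pol v.1) (pol v.2) z : ℂ) : OnePoint ℂ) := by
  unfold Rf
  rw [rat_coe_of_ne (h.bne hz)]
  rfl

theorem GA.jg {T : Set (OnePoint ℂ)} (h : GA v T) {z : ℂ} (hz : z ∈ JC v) :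
    gg (pol v.1) (pol v.2) z ∈ JC v := by
  show ((gg (pol v.1) (pol v.2) z : ℂ) : OnePoint ℂ) ∈ JS (Rf v)
  rw [← h.ggz hz]
  exact h.js 1 hz

theorem GA.git {T : Set (OnePoint ℂ)} (h : GA v T) {z : ℂ} (hz : z ∈ JC v) (n : ℕ) :
    (gg (pol v.1) (pol v.2))^[n] z ∈ JC v ∧
      (Rf v)^[n] (z : OnePoint ℂ) = (((gg (pol v.1) (pol v.2))^[n] z : ℂ) : OnePoint ℂ) := by
  induction n with
  | zero => exact ⟨hz, rfl⟩
  | succ n ih =>
    rw [Function.iterate_succ_apply', Function.iterate_succ_apply', ih.2, h.ggz ih.1]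
    exact ⟨h.jg ih.1, rfl⟩

theorem GA.cl {T : Set (OnePoint ℂ)} (_h : GA v T) : IsClosed (JC v) :=
  (js_closed _).preimage OnePoint.continuous_coe

theorem GA.rad {T : Set (OnePoint ℂ)} (h : GA v T) : ∃ R : ℝ, 0 < R ∧ ∀ z : ℂ, R < ‖z‖ → (z : OnePoint ℂ) ∈ T := by
  have h1 : Tendsto (fun z : ℂ => (z : OnePoint ℂ)) (Filter.cocompact ℂ) (𝓝 OnePoint.infty) := by
    rw [← Filter.coclosedCompact_eq_cocompact]
    exact OnePoint.tendsto_coe_infty
  have h2 : ∀ᶠ z : ℂ in Filter.cocompact ℂ, (z : OnePoint ℂ) ∈ T :=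
    h1.eventually (mem_interior_iff_mem_nhds.1 h.ti)
  rw [← Metric.cobounded_eq_cocompact,
    (Metric.hasBasis_cobounded_compl_closedBall (0 : ℂ)).eventually_iff] at h2
  obtain ⟨R, -, hR⟩ := h2
  refine ⟨max R 1, lt_of_lt_of_le one_pos (le_max_right _ _), fun z hz => hR ?_⟩
  intro h3
  exact (mem_closedBall_zero_iff.1 h3).not_gt ((le_max_left _ _).trans_lt hz)

theorem GA.tit {T : Set (OnePoint ℂ)} (h : GA v T) (n : ℕ) : ∀ x : OnePoint ℂ, x ∈ T → (Rf v)^[n] x ∈ T := by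
  induction n with
  | zero => exact fun x hx => hx
  | succ n ih =>
    intro x hx
    rw [Function.iterate_succ_apply]
    exact ih _ (interior_subset (h.tr.maps x hx))

/-- the bound for the backward orbits -/
theorem GA.bd {T : Set (OnePoint ℂ)} (h : GA v T) : ∃ δ0 R0 : ℝ, 0 < δ0 ∧
    ∀ (n : ℕ) (x : OnePoint ℂ), (∃ y ∈ JC v, ∃ w ∈ ball y δ0, (Rf v)^[n] x = (w : OnePoint ℂ)) →
    ∃ z : ℂ, x = (z : OnePoint ℂ) ∧ ‖z‖ ≤ R0 := by
  obtain ⟨R, hR0, hR⟩ := h.rad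
  have hTF : ∀ x ∈ T, x ∈ FS (Rf v) := fun x hx => h.af x (h.tr.att x hx)
  have hJb : JC v ⊆ closedBall 0 R := by
    intro z hz
    rw [mem_closedBall_zero_iff]
    by_contra hlt
    exact hz (hTF _ (hR z (not_le.1 hlt)))
  have hJk : IsCompact (JC v) := (isCompact_closedBall (0 : ℂ) R).of_isClosed_subset h.cl hJb
  have hTc : IsClosed ((fun z : ℂ => (z : OnePoint ℂ)) ⁻¹' T) := h.tr.closed.preimage OnePoint.continuous_coe
  have hdis : Disjoint (JC v) ((fun z : ℂ => (z : OnePoint ℂ)) ⁻¹' T) := by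
    rw [Set.disjoint_left]
    intro z h1 h2
    exact h1 (hTF _ h2)
  obtain ⟨δ, hδ, hδ1⟩ := hdis.exists_thickenings hJk hTc
  refine ⟨δ, R, hδ, ?_⟩
  rintro n x ⟨y, hy, w, hw, hx⟩
  have hxT : x ∉ T := by
    intro hxT
    have h1 := h.tit n x hxT
    rw [hx] at h1
    have h2 : w ∈ thickening δ (JC v) := mem_thickening_iff.2 ⟨y, hy, mem_ball.1 hw⟩
    exact Set.disjoint_left.1 hδ1 h2 (self_subset_thickening hδ _ h1)
  have hxi : x ≠ OnePoint.infty := by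
    rintro rfl
    exact hxT (interior_subset h.ti)
  obtain ⟨z, rfl⟩ := OnePoint.ne_infty_iff_exists.1 hxi
  refine ⟨z, rfl, ?_⟩
  by_contra hlt
  exact hxT (hR z (not_le.1 hlt))

/-- high iterates are not injective near a Julia point -/
theorem GA.ni {T : Set (OnePoint ℂ)} (h : GA v T) {c : ℂ} (hc : IsCrit (Rf v) (c : OnePoint ℂ))
    (hcJ : (c : OnePoint ℂ) ∈ JS (Rf v)) : ∀ y ∈ JC v, ∀ ρ : ℝ, 0 < ρ → ∃ N : ℕ, ∀ m : ℕ, N < m →
    ¬ InjOn (fun z : ℂ => (Rf v)^[m] (z : OnePoint ℂ)) (ball y ρ) := by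
  intro y hy ρ hρ
  have hrd : RatD d (pol v.1) (pol v.2) := ⟨h.hd, h.cop, h.deg⟩
  obtain ⟨m, u, hu, hum⟩ := (Pool.Agent.H1.PU.jp_of hrd hcJ).tr y hy _ hcJ ρ hρ
  refine ⟨m, fun k hk hinj => ?_⟩
  have hop : IsOpenMap (Rf v) := rat_open h.cop (by rw [h.deg]; have := h.hd; omega)
  have hopm : IsOpenMap ((Rf v)^[m]) := Pool.Agent.H91.Fatou.open_iterate hop m
  have hU : (Rf v)^[m] '' ((fun z : ℂ => (z : OnePoint ℂ)) '' ball y ρ) ∈ 𝓝 (c : OnePoint ℂ) := by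
    refine (hopm _ (OnePoint.isOpenEmbedding_coe.isOpenMap _ isOpen_ball)).mem_nhds ?_
    exact ⟨(u : OnePoint ℂ), ⟨u, hu, rfl⟩, hum⟩
  apply hc
  refine ⟨_, hU, ?_⟩
  rintro _ ⟨_, ⟨z1, hz1, rfl⟩, rfl⟩ _ ⟨_, ⟨z2, hz2, rfl⟩, rfl⟩ he
  have h1 : (Rf v)^[k] (z1 : OnePoint ℂ) = (Rf v)^[k] (z2 : OnePoint ℂ) := by
    have h2 : k = (k - m - 1) + (1 + m) := by omega
    rw [h2, Function.iterate_add_apply, Function.iterate_add_apply _ 1 m, Function.iterate_one, he,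
      ← Function.iterate_succ_apply' (Rf v) m, Function.iterate_add_apply, Nat.add_comm 1 m]
  have h3 := hinj hz1 hz2 h1
  rw [h3]

/-- all cycles in the Julia set are repelling -/
theorem GA.rep {T : Set (OnePoint ℂ)} (h : GA v T) : ∀ x ∈ JC v, ∀ p : ℕ, 0 < p →
    (gg (pol v.1) (pol v.2))^[p] x = x → 1 < ‖tD (pol v.1) (pol v.2) p x‖ := by
  intro x hx p hp hpx
  have hit := h.git hx
  have ha : (Rf v)^[p] (x : OnePoint ℂ) = (x : OnePoint ℂ) := by rw [(hit p).2, hpx]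
  have hi : ∀ i : ℕ, (Rf v)^[i] (x : OnePoint ℂ) ≠ OnePoint.infty := by
    intro i
    rw [(hit i).2]
    exact OnePoint.coe_ne_infty _
  obtain ⟨z, m, hz, hc, -, -⟩ := pl_cyc ha hi
  have hzi : ∀ i, z i = (gg (pol v.1) (pol v.2))^[i] x := by
    intro i
    have h1 := hz i
    rw [(hit i).2] at h1
    exact (OnePoint.coe_injective h1).symm
  have hm : m = tD (pol v.1) (pol v.2) p x := by
    rw [← hc.mul]
    unfold tD
    refine Finset.prod_congr rfl fun i _ => ?_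
    rw [hzi]
    rfl
  rw [← hm]
  rcases lt_or_gt_of_ne (h.no p hp z m hc) with h1 | h1
  · exfalso
    have h2 := cyc_sink h.cop hp hc h1
    apply hx
    apply h.af
    have h3 : z 0 = x := hzi 0
    rw [h3] at h2
    refine ⟨_, p, h2, ?_⟩
    have h4 : ∀ k : ℕ, (Rf v)^[p * k] (x : OnePoint ℂ) = (x : OnePoint ℂ) := by
      intro k
      rw [Function.iterate_mul]
      exact Function.iterate_fixed ha k
    simp only [h4]
    exact tendsto_const_nhds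
  · exact h1

/-- wandering discs near every point of the plane -/
theorem GA.wan {T : Set (OnePoint ℂ)} (h : GA v T) (y : ℂ) {ε : ℝ} (hε : 0 < ε) :
    ∃ (w : ℂ) (r : ℝ), 0 < r ∧ ball w r ⊆ ball y ε ∧
    ∀ m : ℕ, 0 < m → ∀ z ∈ ball w r, ∀ z' ∈ ball w r, (Rf v)^[m] (z : OnePoint ℂ) ≠ (z' : OnePoint ℂ) := by
  obtain ⟨w, hw1, hw2, hw3⟩ := Pool.Agent.H44.NR.fs_avoid h.hd h.cop h.deg ⟨_, h.fi⟩ y (half_pos hε)
    (Pool.Agent.H44.NR.per_cnt h.hd h.cop h.deg)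
  have hper : ∀ n : ℕ, 0 < n → (Rf v)^[n] (w : OnePoint ℂ) ≠ (w : OnePoint ℂ) := fun n hn h1 => hw3 ⟨n, hn, h1⟩
  obtain ⟨W, hW, hWn⟩ := Pool.Agent.H44.NR.orb_away h.cop (h.fa _ hw2) hper
  obtain ⟨η, hη, hηW⟩ := Pool.Agent.H47.RJ.ch_nhds hW
  have hEq : EqAt (Rf v) (w : OnePoint ℂ) := interior_subset hw2
  have h1 := hEq (η / 2) (half_pos hη)
  have h2 : {x | chord (w : OnePoint ℂ) x < η / 2} ∈ 𝓝 (w : OnePoint ℂ) :=
    Pool.Agent.H47.RJ.ch_ball _ (half_pos hη)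
  have h3 : ∀ᶠ z : ℂ in 𝓝 w, (∀ n : ℕ, chord ((Rf v)^[n] (w : OnePoint ℂ)) ((Rf v)^[n] (z : OnePoint ℂ)) < η / 2) ∧
      chord (w : OnePoint ℂ) (z : OnePoint ℂ) < η / 2 :=
    OnePoint.continuous_coe.continuousAt.eventually (h1.and h2)
  obtain ⟨r, hr, h4⟩ := Metric.mem_nhds_iff.1 h3
  refine ⟨w, min r (ε / 2), lt_min hr (half_pos hε), ?_, ?_⟩
  · refine ball_subset_ball' ?_
    have h5 := mem_ball.1 hw1
    have h6 := min_le_right r (ε / 2)
    linarith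
  · intro n hn z hz z' hz' he
    have h5 := (h4 (ball_subset_ball (min_le_left _ _) hz)).1 n
    have h6 := (h4 (ball_subset_ball (min_le_left _ _) hz')).2
    rw [he] at h5
    apply hWn n hn
    apply hηW
    have h7 := Pool.Agent.H47.RJ.ch_tri (w : OnePoint ℂ) (z' : OnePoint ℂ) ((Rf v)^[n] (w : OnePoint ℂ))
    rw [chord_comm (z' : OnePoint ℂ)] at h7
    linarith

/-- the planar setting -/
theorem ns_of {T : Set (OnePoint ℂ)} (h : GA v T) {D : ℕ} {c : ℂ} (hc : IsCrit (Rf v) (c : OnePoint ℂ))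
    (hcJ : (c : OnePoint ℂ) ∈ JS (Rf v))
    (lg : ∀ x : ℂ, RegV d (pol v.1) (pol v.2) x → ∃ η : Polynomial ℂ, η.natDegree ≤ D ∧
      ∀ z : ℂ, (pol v.2).eval z ≠ 0 → Pool.Agent.H61.TT.gg (pol v.1) (pol v.2) z ≠ x →
      ∑ y ∈ fs (pol v.1) (pol v.2) x, dg (pol v.1) (pol v.2) z / ((y - z) * dg (pol v.1) (pol v.2) y ^ 2) =
        1 / (x - Pool.Agent.H61.TT.gg (pol v.1) (pol v.2) z) + η.eval z / (pol v.2).eval z ^ 2) :
    ∃ δ0 R0 : ℝ, NS d D (pol v.1) (pol v.2) (JC v) δ0 R0 := by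
  obtain ⟨δ0, R0, h1, h2⟩ := h.bd
  exact ⟨δ0, R0, ⟨h.hd, h.cop, h.deg⟩, h.cl, fun z hz => h.bne hz, fun z hz => h.jg hz, h1, h2,
    h.ni hc hcJ, h.rep, fun y _ ε hε => h.wan y hε, lg⟩

/-- the critical point is passive -/
theorem GA.pas {T : Set (OnePoint ℂ)} (h : GA v T) {D : ℕ} (hV : VBd (pol v.1) (pol v.2) D) {c : ℂ}
    (hc : wv v c = 0) (hcJ : (c : OnePoint ℂ) ∈ JS (Rf v)) : Pas D (pol v.1) (pol v.2) c := by
  refine Pool.Agent.H64.NC.pas hV ?_ (fun j => h.bne (h.git hcJ j).1) (by rw [← wv_pol]; exact hc)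
  intro ε hε
  exact rep_near h.hd h.cop h.deg h.no h.af h.fi hcJ hε

end Pool.Agent.H64.NC
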