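import Pool.Agent.H64.MJ.MKS
import Pool.Agent.H44.NR.Pdj

/-!
# Module RN: repelling cycles near a Julia point

`rep_near`: no cycle in the plane is neutral, infinity and all attracted points are in the Fatou set: repelling cycles in the plane come arbitrarily near to every
finite Julia point (`per_dense`, H44/NR/Pdj; `sink_fin`, H64/MJ/MKS; `orb_fin`).
-/

set_option autoImplicit false

open Filter Topology Polynomial Metric Set

namespace Pool.Agent.H64.NC

open Pool.Agent.H44.Fatou Pool.Agent.H32.BT Pool.Agent.H79.Eul Pool.Agent.H79.Par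
open Pool.Agent.H35.EX Pool.Agent.H44.RR Pool.Agent.H56.HR Pool.Agent.H44.RC Pool.Agent.H47.RJ
open Pool.Agent.H47.NM Pool.Agent.H47.NN Pool.Agent.H44.ND Pool.Agent.H79.ES

variable {d : ℕ} {v : E d}

/-- the orbit of a periodic point which avoids infinity is a cycle in the plane -/
theorem pl_cyc {p : ℕ} {a : OnePoint ℂ} (ha : (Rf v)^[p] a = a)
    (hi : ∀ i : ℕ, (Rf v)^[i] a ≠ OnePoint.infty) :
    ∃ (x : ℕ → ℂ) (m : ℂ), (∀ i, (Rf v)^[i] a = (x i : OnePoint ℂ)) ∧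
      Cyc (pol v.1) (pol v.2) p x m ∧ (∀ i, (pol v.2).eval (x i) ≠ 0) ∧
      ∀ i, x (i + 1) = (pol v.1).eval (x i) / (pol v.2).eval (x i) := by
  have hx : ∀ i, ∃ z : ℂ, (Rf v)^[i] a = (z : OnePoint ℂ) := by
    intro i
    obtain ⟨z, hz⟩ := OnePoint.ne_infty_iff_exists.1 (hi i)
    exact ⟨z, hz.symm⟩
  choose x hx using hx
  have hst : ∀ i, Rf v (x i : OnePoint ℂ) = (x (i + 1) : OnePoint ℂ) := by
    intro i
    rw [← hx i, ← hx (i + 1), Function.iterate_succ_apply']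
  have hb : ∀ i, (pol v.2).eval (x i) ≠ 0 := by
    intro i h0
    have h1 := hst i
    unfold Rf at h1
    rw [rat_coe, h0] at h1
    unfold pt at h1
    rw [if_pos rfl] at h1
    exact OnePoint.coe_ne_infty _ h1.symm
  have hs : ∀ i, x (i + 1) = (pol v.1).eval (x i) / (pol v.2).eval (x i) := by
    intro i
    have h1 := hst i
    unfold Rf at h1
    rw [rat_coe_of_ne (hb i)] at h1
    exact (OnePoint.coe_injective h1).symm
  refine ⟨x, ∏ i ∈ Finset.range p,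
      (Wr (pol v.1) (pol v.2)).eval (x i) / ((pol v.2).eval (x i)) ^ 2, hx,
      ⟨fun i _ => hb i, fun i _ => (hs i).symm, ?_, rfl⟩, hb, hs⟩
  have h1 := hx p
  have h2 := hx 0
  rw [ha] at h1
  rw [Function.iterate_zero_apply] at h2
  rw [h2] at h1
  exact (OnePoint.coe_injective h1).symm

theorem rep_near (hd : 2 ≤ d) (hcop : IsCoprime (pol v.1) (pol v.2))
    (hdeg : max (pol v.1).natDegree (pol v.2).natDegree = d)
    (hno : ∀ p : ℕ, 0 < p → ∀ x m, Cyc (pol v.1) (pol v.2) p x m → ‖m‖ ≠ 1)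
    (hAF : ∀ x, Att (Rf v) x → x ∈ FS (Rf v)) (hfi : OnePoint.infty ∈ FS (Rf v)) {c : ℂ}
    (hcJ : (c : OnePoint ℂ) ∈ JS (Rf v)) {ε : ℝ} (hε : 0 < ε) :
    ∃ (p : ℕ) (x : ℕ → ℂ) (m : ℂ), 0 < p ∧ Cyc (pol v.1) (pol v.2) p x m ∧ 1 < ‖m‖ ∧ ‖x 0 - c‖ < ε ∧
      (∀ i, (pol v.2).eval (x i) ≠ 0) ∧
      ∀ i, x (i + 1) = (pol v.1).eval (x i) / (pol v.2).eval (x i) := by
  obtain ⟨S, hS⟩ : ∃ S : Set (OnePoint ℂ), S = {z | ∃ n : ℕ, IsSink (Rf v) z n} := ⟨_, rfl⟩
  have hSf : S.Finite := by rw [hS]; exact Pool.Agent.H64.MJ.sink_fin hd hcop hdeg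
  obtain ⟨T, hT⟩ : ∃ T : Set (OnePoint ℂ), T = {z | (∃ N : ℕ, 0 < N ∧ (Rf v)^[N] OnePoint.infty = OnePoint.infty) ∧
    ∃ i : ℕ, z = (Rf v)^[i] OnePoint.infty} := ⟨_, rfl⟩
  have hTf : T.Finite := by
    rw [hT]
    by_cases h : ∃ N : ℕ, 0 < N ∧ (Rf v)^[N] OnePoint.infty = OnePoint.infty
    · obtain ⟨N, hN, hNi⟩ := h
      exact (Pool.Agent.H79.PJ.orb_finite hN hNi).subset fun z hz => hz.2
    · exact Set.finite_empty.subset fun z hz => h hz.1
  have hcS : (c : OnePoint ℂ) ∉ S := by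
    rw [hS]
    rintro ⟨n, hn⟩
    apply hcJ
    apply hAF
    refine ⟨_, n, hn, ?_⟩
    have h1 : ∀ k : ℕ, (Rf v)^[n * k] (c : OnePoint ℂ) = (c : OnePoint ℂ) := by
      intro k
      rw [Function.iterate_mul]
      exact Function.iterate_fixed hn.2.1 k
    simp only [h1]
    exact tendsto_const_nhds
  have hcT : (c : OnePoint ℂ) ∉ T := by
    rw [hT]
    rintro ⟨-, i, hi⟩
    apply hcJ
    rw [hi]
    exact (fs_iff (by omega) hcop hdeg i _).2 hfi
  have hU : ((fun z : ℂ => (z : OnePoint ℂ)) '' ball c ε) ∩ (S ∪ T)ᶜ ∈ 𝓝 (c : OnePoint ℂ) := by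
    refine Filter.inter_mem ?_ ?_
    · exact (OnePoint.isOpenEmbedding_coe.isOpenMap _ isOpen_ball).mem_nhds ⟨c, mem_ball_self hε, rfl⟩
    · refine (hSf.union hTf).isClosed.isOpen_compl.mem_nhds ?_
      rintro (h | h)
      · exact hcS h
      · exact hcT h
  obtain ⟨P, ⟨⟨q, hq, rfl⟩, hP⟩, N, hN, hPN⟩ := Pool.Agent.H44.NR.per_dense hd hcop hdeg hcJ hU
  have hi : ∀ i : ℕ, (Rf v)^[i] (q : OnePoint ℂ) ≠ OnePoint.infty := by
    intro i h0
    apply hP
    right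
    rw [hT]
    have hk : ∀ k : ℕ, (Rf v)^[N * k] (q : OnePoint ℂ) = (q : OnePoint ℂ) := by
      intro k
      rw [Function.iterate_mul]
      exact Function.iterate_fixed hPN k
    refine ⟨⟨N, by omega, ?_⟩, N * i - i, ?_⟩
    · rw [← h0, ← Function.iterate_add_apply, Nat.add_comm, Function.iterate_add_apply, hPN]
    · rw [← h0, ← Function.iterate_add_apply]
      have h1 : i ≤ N * i := Nat.le_mul_of_pos_left _ (by omega)
      have h2 : N * i - i + i = N * i := by omega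
      rw [h2]
      exact (hk i).symm
  obtain ⟨x, m, hx, hc, hb, hs⟩ := pl_cyc hPN hi
  have hx0 : x 0 = q := by
    have h1 := hx 0
    exact (OnePoint.coe_injective h1).symm
  refine ⟨N, x, m, by omega, hc, ?_, ?_, hb, hs⟩
  · rcases lt_or_gt_of_ne (hno N (by omega) x m hc) with h1 | h1
    · exfalso
      apply hP
      left
      rw [hS]
      refine ⟨N, ?_⟩
      have h2 := cyc_sink hcop (by omega) hc h1
      rw [hx0] at h2
      exact h2
    · exact h1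
  · rw [hx0]
    exact mem_ball_iff_norm.1 hq

end Pool.Agent.H64.NC
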