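import Pool.Agent.H64.NC.SFC
import Pool.Agent.H64.NC.CNA

/-!
# Module SFB: the branches of the conical times in the chart (Julia set = sphere)

`br_s`: infinity is fixed; an open set which is mapped injectively by the `n`-th iterate onto a set which contains a chordal disc gives a branch of the inverse on a disc of the plane.
-/

set_option autoImplicit false

open Filter Topology Polynomial Metric Set MeasureTheory

namespace Pool.Agent.H64.NC

open Pool.Agent.H44.Fatou (rat rat_continuous ev wv crit_coe rat_coe rat_coe_of_ne pt)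
open Pool.Agent.H32.BT Pool.Agent.H79.Eul Pool.Agent.H79.Par
open Pool.Agent.H35.EX Pool.Agent.H44.RC Pool.Agent.H47.RJ
open Pool.Agent.H61.TT Pool.Agent.H57.CP Pool.Agent.H3.NC Pool.Agent.H80.AJ

private theorem chord_le (a b : ℂ) : chord (a : OnePoint ℂ) (b : OnePoint ℂ) ≤ ‖a - b‖ := by
  show ‖a - b‖ / (√(1 + ‖a‖ ^ 2) * √(1 + ‖b‖ ^ 2)) ≤ ‖a - b‖
  have h1 : ∀ c : ℂ, 1 ≤ √(1 + ‖c‖ ^ 2) := fun c => by
    rw [Real.one_le_sqrt]
    nlinarith [norm_nonneg c]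
  exact div_le_self (norm_nonneg _) (one_le_mul_of_one_le_of_one_le (h1 a) (h1 b))

theorem br_s {d : ℕ} {v u : E d} {φ : OnePoint ℂ ≃ₜ OnePoint ℂ} {K : ℝ} (hcop : IsCoprime (pol u.1) (pol u.2))
    (hdeg : 1 ≤ max (pol u.1).natDegree (pol u.2).natDegree)
    (bil : ∀ x y, chord (φ x) (φ y) ≤ K * chord x y ∧ chord x y ≤ K * chord (φ x) (φ y))
    (conj : ∀ x, Rf u (φ x) = φ (Rf v x)) (hi : Rf u OnePoint.infty = OnePoint.infty)
    {x : OnePoint ℂ} {x1 : ℂ} (hx1 : φ x = (x1 : OnePoint ℂ)) {n : ℕ} {w : ℂ}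
    (hw : φ ((Rf v)^[n] x) = (w : OnePoint ℂ)) {δ δ1 : ℝ} (hδ10 : 0 < δ1) (hK : 0 < K) (hδ : K * δ1 ≤ δ)
    {W : Set (OnePoint ℂ)} (hW : IsOpen W) (hxW : x ∈ W) (hinj : InjOn ((Rf v)^[n]) W)
    (himg : {y | chord ((Rf v)^[n] x) y < δ} ⊆ (Rf v)^[n] '' W) :
    ∃ G : ℂ → ℂ, Br (rat (pol u.1) (pol u.2)) n w δ1 x1 G := by
  obtain ⟨a, ha⟩ : ∃ a, a = pol u.1 := ⟨_, rfl⟩
  obtain ⟨b, hb⟩ : ∃ b, b = pol u.2 := ⟨_, rfl⟩
  have hRf : Rf u = rat a b := by rw [ha, hb]; rfl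
  rw [hRf] at hi conj
  rw [← ha, ← hb] at hcop hdeg ⊢
  have hcont : Continuous (rat a b) := rat_continuous hcop
  have hopen : IsOpenMap (rat a b) := rat_open hcop hdeg
  have hiter : ∀ (n : ℕ) (x : OnePoint ℂ), (rat a b)^[n] (φ x) = φ ((Rf v)^[n] x) := fun n x => iter_conj φ conj n x
  -- the preimages
  have hex : ∀ z : ℂ, z ∈ ball w δ1 → ∃ s : ℂ, (s : OnePoint ℂ) ∈ φ '' W ∧
      (rat a b)^[n] (s : OnePoint ℂ) = (z : OnePoint ℂ) := by
    intro z hz
    obtain ⟨y, hy⟩ := φ.surjective (z : OnePoint ℂ)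
    have h1 : chord ((Rf v)^[n] x) y < δ := by
      have h2 := (bil ((Rf v)^[n] x) y).2
      rw [hy, hw] at h2
      have h3 := chord_le w z
      have h4 : ‖w - z‖ < δ1 := by
        rw [norm_sub_rev, ← mem_ball_iff_norm]
        exact hz
      have h5 : K * chord (w : OnePoint ℂ) (z : OnePoint ℂ) < K * δ1 := by
        exact mul_lt_mul_of_pos_left (h3.trans_lt h4) hK
      linarith
    obtain ⟨t, htW, ht⟩ := himg h1
    have h6 : (rat a b)^[n] (φ t) = (z : OnePoint ℂ) := by rw [hiter, ht, hy]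
    have h7 : φ t ≠ OnePoint.infty := by
      intro h8
      rw [h8, Function.iterate_fixed hi] at h6
      exact OnePoint.infty_ne_coe _ h6
    obtain ⟨s, hs⟩ := OnePoint.ne_infty_iff_exists.1 h7
    exact ⟨s, ⟨t, htW, hs.symm⟩, by rw [hs]; exact h6⟩
  obtain ⟨G, hG⟩ : ∃ G : ℂ → ℂ, ∀ z ∈ ball w δ1, (G z : OnePoint ℂ) ∈ φ '' W ∧
      (rat a b)^[n] (G z : OnePoint ℂ) = (z : OnePoint ℂ) := by
    classical
    refine ⟨fun z => if hz : z ∈ ball w δ1 then (hex z hz).choose else 0, fun z hz => ?_⟩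
    simp only [hz, dite_true]
    exact (hex z hz).choose_spec
  have hφW : IsOpen (φ '' W) := φ.isOpenMap _ hW
  have hinj' : InjOn ((rat a b)^[n]) (φ '' W) := by
    rintro _ ⟨t1, ht1, rfl⟩ _ ⟨t2, ht2, rfl⟩ he
    rw [hiter, hiter] at he
    rw [hinj ht1 ht2 (φ.injective he)]
  have hopn : IsOpenMap ((rat a b)^[n]) := Pool.Agent.H91.Fatou.open_iterate hopen n
  have hGc : ContinuousOn G (ball w δ1) := by
    intro z0 hz0
    apply ContinuousAt.continuousWithinAt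
    intro M hM
    obtain ⟨M', hM'M, hM'o, hzM'⟩ := _root_.mem_nhds_iff.1 hM
    have h1 : IsOpen (φ '' W ∩ (fun z : ℂ => (z : OnePoint ℂ)) '' M') :=
      hφW.inter (OnePoint.isOpenEmbedding_coe.isOpenMap _ hM'o)
    have h2 : IsOpen ((fun z : ℂ => (z : OnePoint ℂ)) ⁻¹'
        ((rat a b)^[n] '' (φ '' W ∩ (fun z : ℂ => (z : OnePoint ℂ)) '' M'))) :=
      (hopn _ h1).preimage OnePoint.continuous_coe
    have h3 : z0 ∈ (fun z : ℂ => (z : OnePoint ℂ)) ⁻¹'
        ((rat a b)^[n] '' (φ '' W ∩ (fun z : ℂ => (z : OnePoint ℂ)) '' M')) :=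
      ⟨(G z0 : OnePoint ℂ), ⟨(hG z0 hz0).1, ⟨G z0, hzM', rfl⟩⟩, (hG z0 hz0).2⟩
    rw [Filter.mem_map]
    filter_upwards [h2.mem_nhds h3, isOpen_ball.mem_nhds hz0] with z hz hzb
    obtain ⟨_, ⟨hs1, ⟨s, hs, rfl⟩⟩, he⟩ := hz
    have h4 : (G z : OnePoint ℂ) = (s : OnePoint ℂ) := by
      refine hinj' (hG z hzb).1 hs1 ?_
      rw [(hG z hzb).2]
      exact he.symm
    have h5 : G z = s := OnePoint.coe_injective h4
    show G z ∈ M
    rw [h5]
    exact hM'M hs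
  have hwδ : w ∈ ball w δ1 := mem_ball_self hδ10
  have hne : ∀ z ∈ ball w δ1, (rat a b)^[n] (G z : OnePoint ℂ) ≠ OnePoint.infty := by
    intro z hz
    rw [(hG z hz).2]
    exact OnePoint.coe_ne_infty _
  refine ⟨G, ?_, ?_, ?_⟩
  · intro z0 hz0
    apply DifferentiableAt.differentiableWithinAt
    obtain ⟨S, hS⟩ : ∃ S : Set ℂ, S = {s : ℂ | (s : OnePoint ℂ) ∈ (rat a b)^[n] ⁻¹'
        ((fun z : ℂ => (z : OnePoint ℂ)) '' ball w δ1)} := ⟨_, rfl⟩
    have hSo : IsOpen S := by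
      rw [hS]
      exact ((OnePoint.isOpenEmbedding_coe.isOpenMap _ isOpen_ball).preimage (hcont.iterate n)).preimage
        OnePoint.continuous_coe
    refine diff_of_inverse (Φ := (gg a b)^[n]) (isOpen_ball.mem_nhds hz0) hGc hSo ?_ ?_ ?_
    · rw [hS]
      exact ⟨z0, hz0, (hG z0 hz0).2.symm⟩
    · intro s hs
      rw [hS] at hs
      obtain ⟨z, hz, he⟩ := hs
      have h1 := fin_orbs hi (n := n) (s := s) (by
        have h2 : (z : OnePoint ℂ) = (rat a b)^[n] (s : OnePoint ℂ) := he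
        rw [← h2]
        exact OnePoint.coe_ne_infty _)
      exact (bra_it h1.1).hasDerivAt.differentiableAt.differentiableWithinAt
    · intro z hz _
      have h1 := fin_orbs hi (hne z hz)
      have h2 := h1.2 n le_rfl
      rw [(hG z hz).2] at h2
      exact (OnePoint.coe_injective h2).symm
  · have h1 : (G w : OnePoint ℂ) = (x1 : OnePoint ℂ) := by
      refine hinj' (hG w hwδ).1 ⟨x, hxW, hx1⟩ ?_
      rw [(hG w hwδ).2, ← hx1, hiter, hw]
    exact OnePoint.coe_injective h1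
  · intro z hz
    exact (hG z hz).2

end Pool.Agent.H64.NC
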