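import Pool.Agent.H64.NC.SFI
import Pool.Agent.H64.NC.NSB
import Pool.Agent.H78.NS.Defs

/-!
# Module SFC: the setting for Julia set = sphere

`fin_orbs`: if infinity is fixed then the orbits which end in the plane stay in the plane. `sp_of`: a locally maximal map with Julia set = sphere which fixes `0`, `1`, `∞`, with a critical point in the plane, is in the setting `SP` (H78/NS/Defs).
-/

set_option autoImplicit false

open Filter Topology Polynomial Metric Set MeasureTheory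

namespace Pool.Agent.H64.NC

open Pool.Agent.H44.Fatou (rat rat_continuous rat_coe rat_coe_of_ne pt Wr)
open Pool.Agent.H32.BT Pool.Agent.H79.Eul Pool.Agent.H79.Par
open Pool.Agent.H35.EX Pool.Agent.H44.RC Pool.Agent.H47.RJ
open Pool.Agent.H47.NN Pool.Agent.H44.ND Pool.Agent.H79.ES
open Pool.Agent.H61.TT Pool.Agent.H57.CP Pool.Agent.H3.NC Pool.Agent.H47.PS Pool.Agent.H78.NS

variable {d : ℕ}

/-- infinity is fixed: iterates of infinity -/
theorem inf_it {f : OnePoint ℂ → OnePoint ℂ} (hi : f OnePoint.infty = OnePoint.infty) {x : OnePoint ℂ} {i n : ℕ}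
    (hin : i ≤ n) (h : f^[i] x = OnePoint.infty) : f^[n] x = OnePoint.infty := by
  rw [← Nat.sub_add_cancel hin, Function.iterate_add_apply, h]
  exact Function.iterate_fixed hi _

/-- the orbits which end in the plane stay in the plane -/
theorem fin_orbs {a b : Polynomial ℂ} (hi : rat a b OnePoint.infty = OnePoint.infty) {n : ℕ} {s : ℂ}
    (hs : (rat a b)^[n] (s : OnePoint ℂ) ≠ OnePoint.infty) :
    (∀ i < n, b.eval ((gg a b)^[i] s) ≠ 0) ∧
      ∀ i ≤ n, (rat a b)^[i] (s : OnePoint ℂ) = (((gg a b)^[i] s : ℂ) : OnePoint ℂ) := by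
  have key : ∀ i ≤ n, (∀ j < i, b.eval ((gg a b)^[j] s) ≠ 0) ∧
      (rat a b)^[i] (s : OnePoint ℂ) = (((gg a b)^[i] s : ℂ) : OnePoint ℂ) := by
    intro i
    induction i with
    | zero => exact fun _ => ⟨fun j hj => absurd hj (Nat.not_lt_zero j), rfl⟩
    | succ i ih =>
      intro hin
      obtain ⟨h1, h2⟩ := ih (by omega)
      have h3 : b.eval ((gg a b)^[i] s) ≠ 0 := by
        intro h0
        apply hs
        refine inf_it hi hin ?_
        rw [Function.iterate_succ_apply', h2, rat_coe, h0]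
        unfold pt
        rw [if_pos rfl]
      refine ⟨fun j hj => ?_, ?_⟩
      · rcases Nat.lt_succ_iff_lt_or_eq.1 hj with h4 | h4
        · exact h1 j h4
        · rw [h4]
          exact h3
      · rw [Function.iterate_succ_apply', h2, rat_coe_of_ne h3, Function.iterate_succ_apply']
        rfl
  exact ⟨(key n le_rfl).1, fun i hi => (key i hi).2⟩

/-- the orbits which never reach infinity -/
theorem fin_orba {a b : Polynomial ℂ} (hi : rat a b OnePoint.infty = OnePoint.infty) {s : ℂ}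
    (hs : ∀ n, (rat a b)^[n] (s : OnePoint ℂ) ≠ OnePoint.infty) (n : ℕ) :
    b.eval ((gg a b)^[n] s) ≠ 0 ∧ (rat a b)^[n] (s : OnePoint ℂ) = (((gg a b)^[n] s : ℂ) : OnePoint ℂ) :=
  ⟨(fin_orbs hi (hs (n + 1))).1 n (Nat.lt_succ_self n), (fin_orbs hi (hs n)).2 n le_rfl⟩

/-- high iterates are not injective on discs -/
theorem ni_s {v : E d} (hd : 2 ≤ d) (hcop : IsCoprime (pol v.1) (pol v.2))
    (hdeg : max (pol v.1).natDegree (pol v.2).natDegree = d) (hJ : JS (Rf v) = univ) {c : ℂ}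
    (hc : IsCrit (Rf v) (c : OnePoint ℂ)) (y : ℂ) {ρ : ℝ} (hρ : 0 < ρ) : ∃ N : ℕ, ∀ m : ℕ, N < m →
    ¬ InjOn (fun z : ℂ => (Rf v)^[m] (z : OnePoint ℂ)) (ball y ρ) := by
  have hrd : RatD d (pol v.1) (pol v.2) := ⟨hd, hcop, hdeg⟩
  obtain ⟨m, u, hu, hum⟩ := (Pool.Agent.H1.PU.jp_of hrd (c := c) (hJ ▸ mem_univ _)).tr y (hJ ▸ mem_univ _) _
    (hJ ▸ mem_univ (c : OnePoint ℂ)) ρ hρ
  refine ⟨m, fun k hk hinj => ?_⟩
  have hop : IsOpenMap (Rf v) := rat_open hcop (by rw [hdeg]; omega)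
  have hopm : IsOpenMap ((Rf v)^[m]) := Pool.Agent.H91.Fatou.open_iterate hop m
  have hU : (Rf v)^[m] '' ((fun z : ℂ => (z : OnePoint ℂ)) '' ball y ρ) ∈ 𝓝 (c : OnePoint ℂ) := by
    refine (hopm _ (OnePoint.isOpenEmbedding_coe.isOpenMap _ isOpen_ball)).mem_nhds ?_
    exact ⟨(u : OnePoint ℂ), ⟨u, hu, rfl⟩, hum⟩
  apply hc
  refine ⟨_, hU, ?_⟩
  rintro _ ⟨_, ⟨z1, hz1, rfl⟩, rfl⟩ _ ⟨_, ⟨z2, hz2, rfl⟩, rfl⟩ he
  have h1 : (Rf v)^[k] (z1 : OnePoint ℂ) = (Rf v)^[k] (z2 : OnePoint ℂ) := by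
    have h2 : k = (k - m - 1) + (1 + m) := by omega
    rw [h2, Function.iterate_add_apply, Function.iterate_add_apply _ 1 m, Function.iterate_one, he,
      ← Function.iterate_succ_apply' (Rf v) m, Function.iterate_add_apply, Nat.add_comm 1 m]
  have h3 := hinj hz1 hz2 h1
  rw [h3]

/-- all cycles are repelling -/
theorem rep_s {v : E d} (hd : 2 ≤ d) (hcop : IsCoprime (pol v.1) (pol v.2))
    (hdeg : max (pol v.1).natDegree (pol v.2).natDegree = d) (hup : ¬ Up v) (hJ : JS (Rf v) = univ)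
    (hi : Rf v OnePoint.infty = OnePoint.infty) {x : ℂ} {p : ℕ} (hp : 0 < p)
    (hx : (Rf v)^[p] (x : OnePoint ℂ) = (x : OnePoint ℂ)) : 1 < ‖tD (pol v.1) (pol v.2) p x‖ := by
  have hfin : ∀ i : ℕ, (Rf v)^[i] (x : OnePoint ℂ) ≠ OnePoint.infty := by
    intro i h1
    have h2 : i ≤ p * i := Nat.le_mul_of_pos_left _ hp
    have h3 := inf_it hi h2 h1
    rw [per_mul hx] at h3
    exact OnePoint.coe_ne_infty _ h3
  obtain ⟨z, m, hc, hm, hz⟩ := mk_cyc hd hcop hdeg hup (hJ ▸ mem_univ (x : OnePoint ℂ)) hp hx hfin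
  have hzi : ∀ i, z i = (gg (pol v.1) (pol v.2))^[i] x := by
    intro i
    have h1 := hz i
    have h2 : (Rf v)^[i] (x : OnePoint ℂ) = (((gg (pol v.1) (pol v.2))^[i] x : ℂ) : OnePoint ℂ) :=
      (fin_orba hi hfin i).2
    rw [h2] at h1
    exact OnePoint.coe_injective h1
  have hmt : m = tD (pol v.1) (pol v.2) p x := by
    rw [← hc.mul]
    unfold tD
    refine Finset.prod_congr rfl fun i _ => ?_
    rw [hzi]
    rfl
  rw [← hmt]
  exact hm

/-- the setting -/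
theorem sp_of {v : E d} (hd : 2 ≤ d) (hcop : IsCoprime (pol v.1) (pol v.2))
    (hdeg : max (pol v.1).natDegree (pol v.2).natDegree = d) (hup : ¬ Up v) (hJ : JS (Rf v) = univ)
    (h0 : Rf v ((0 : ℂ) : OnePoint ℂ) = ((0 : ℂ) : OnePoint ℂ))
    (h1 : Rf v ((1 : ℂ) : OnePoint ℂ) = ((1 : ℂ) : OnePoint ℂ))
    (hi : Rf v OnePoint.infty = OnePoint.infty) {c : ℂ} (hc : IsCrit (Rf v) (c : OnePoint ℂ)) :
    ∃ L0 θ : ℝ, SP d (pol v.1) (pol v.2) L0 θ := by
  obtain ⟨L0, θ, hL, hθ0, hθ, hcon⟩ := inf_con hd hcop hdeg hup hJ hi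
  have hrd : RatD d (pol v.1) (pol v.2) := ⟨hd, hcop, hdeg⟩
  have key : ∀ z : ℂ, Rf v (z : OnePoint ℂ) = (z : OnePoint ℂ) → (pol v.2).eval z ≠ 0 ∧
      gg (pol v.1) (pol v.2) z = z := by
    intro z hz
    have h2 : (pol v.2).eval z ≠ 0 := by
      intro h3
      unfold Rf at hz
      rw [rat_coe, h3] at hz
      unfold pt at hz
      rw [if_pos rfl] at hz
      exact OnePoint.infty_ne_coe _ hz
    refine ⟨h2, ?_⟩
    unfold Rf at hz
    rw [rat_coe_of_ne h2] at hz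
    exact OnePoint.coe_injective hz
  refine ⟨L0, θ, hrd, hi, (key 0 h0).1, (key 1 h1).1, (key 0 h0).2, (key 1 h1).2, hL, hθ0, hθ, hcon,
    fun y ρ hρ => ni_s hd hcop hdeg hJ hc y hρ, fun x p hp hx => rep_s hd hcop hdeg hup hJ hi hp hx,
    fun x y ρ hρ => ?_⟩
  exact (Pool.Agent.H1.PU.jp_of hrd (c := c) (hJ ▸ mem_univ _)).tr y (hJ ▸ mem_univ _) _
    (hJ ▸ mem_univ (x : OnePoint ℂ)) ρ hρ

end Pool.Agent.H64.NC
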