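import Pool.Agent.H64.NC.SFB
import Pool.Agent.H64.PC.VB6

/-!
# Module SFP: the critical point is passive (Julia set = sphere)

`vx_s`: bounded velocities (relative to the spherical metric) of the points which land at `x0` (`VB`, H1/PU/Dat) give the same bound for the velocities along the orbit of a critical point. `pas_s`: `PasS` (H78/NS/Defs).
-/

set_option autoImplicit false

open Filter Topology Polynomial Metric Set MeasureTheory

namespace Pool.Agent.H64.NC

open Pool.Agent.H44.Fatou (rat rat_continuous rat_coe rat_coe_of_ne pt Wr)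
open Pool.Agent.H32.BT Pool.Agent.H79.Eul Pool.Agent.H79.Par
open Pool.Agent.H35.EX Pool.Agent.H44.RC Pool.Agent.H47.RJ
open Pool.Agent.H47.NN Pool.Agent.H44.ND Pool.Agent.H79.ES
open Pool.Agent.H61.TT Pool.Agent.H57.CP Pool.Agent.H3.NC Pool.Agent.H47.PS Pool.Agent.H78.NS

theorem vx_s {a b w : Polynomial ℂ} {c : ℂ} {C : ℝ} {x y : ℕ → ℕ → ℂ}
    (hx0 : Tendsto (fun k => x k 0) atTop (𝓝 c)) (hxs : ∀ k i, x k (i + 1) = a.eval (x k i) / b.eval (x k i))
    (hy : ∀ k i, y k (i + 1) = dg a b (x k i) * y k i + w.eval (x k i) / b.eval (x k i) ^ 2)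
    (hyC : ∀ k i, ‖y k i‖ ≤ C * (1 + ‖x k i‖ ^ 2)) {z : ℕ → ℂ} (h0 : z 0 = c)
    (hz : ∀ j, z (j + 1) = a.eval (z j) / b.eval (z j)) (hb : ∀ j, b.eval (z j) ≠ 0)
    (hc : (ww a b).eval c = 0) (j : ℕ) : ‖VX a b w z (j + 1)‖ ≤ C * (1 + ‖z (j + 1)‖ ^ 2) := by
  have hxj : ∀ j, Tendsto (fun k => x k j) atTop (𝓝 (z j)) := by
    intro j
    induction j with
    | zero => rw [h0]; exact hx0
    | succ j ih =>
      have h1 : (fun k => x k (j + 1)) = fun k => (fun z => a.eval z / b.eval z) (x k j) := by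
        funext k
        exact hxs k j
      rw [h1, hz j]
      exact (gg_cont (hb j)).tendsto.comp ih
  have hwc : ∀ j, Tendsto (fun k => w.eval (x k j) / b.eval (x k j) ^ 2) atTop
      (𝓝 (w.eval (z j) / b.eval (z j) ^ 2)) := by
    intro j
    have h1 : ContinuousAt (fun z => w.eval z / b.eval z ^ 2) (z j) :=
      w.continuous.continuousAt.div (b.continuous.continuousAt.pow 2) (pow_ne_zero 2 (hb j))
    exact h1.tendsto.comp (hxj j)
  have hdc : ∀ j, Tendsto (fun k => dg a b (x k j)) atTop (𝓝 (dg a b (z j))) := fun j =>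
    (dg_cont (hb j)).tendsto.comp (hxj j)
  have hCx : ∀ j, Tendsto (fun k => C * (1 + ‖x k j‖ ^ 2)) atTop (𝓝 (C * (1 + ‖z j‖ ^ 2))) := fun j =>
    (((hxj j).norm.pow 2).const_add 1).const_mul C
  have hd0 : dg a b (z 0) = 0 := by
    unfold dg
    rw [h0, hc, zero_div]
  have hyj : ∀ j, Tendsto (fun k => y k (j + 1)) atTop (𝓝 (VX a b w z (j + 1))) := by
    intro j
    induction j with
    | zero =>
      have h1 : Tendsto (fun k => dg a b (x k 0) * y k 0) atTop (𝓝 0) := by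
        have h2 := hdc 0
        rw [hd0] at h2
        have h3 : Tendsto (fun k => ‖dg a b (x k 0)‖ * (C * (1 + ‖x k 0‖ ^ 2))) atTop
            (𝓝 (‖(0 : ℂ)‖ * (C * (1 + ‖z 0‖ ^ 2)))) := h2.norm.mul (hCx 0)
        rw [norm_zero, zero_mul] at h3
        rw [tendsto_zero_iff_norm_tendsto_zero]
        refine squeeze_zero (fun k => norm_nonneg _) (fun k => ?_) h3
        rw [norm_mul]
        exact mul_le_mul_of_nonneg_left (hyC k 0) (norm_nonneg _)
      have h2 : (fun k => y k (0 + 1)) = fun k => dg a b (x k 0) * y k 0 + w.eval (x k 0) / b.eval (x k 0) ^ 2 :=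
        funext fun k => hy k 0
      rw [h2]
      show Tendsto _ _ (𝓝 (dg a b (z 0) * 0 + w.eval (z 0) / b.eval (z 0) ^ 2))
      rw [mul_zero]
      exact h1.add (hwc 0)
    | succ j ih =>
      have h2 : (fun k => y k (j + 1 + 1)) = fun k => dg a b (x k (j + 1)) * y k (j + 1) +
          w.eval (x k (j + 1)) / b.eval (x k (j + 1)) ^ 2 := funext fun k => hy k (j + 1)
      rw [h2]
      exact ((hdc (j + 1)).mul ih).add (hwc (j + 1))
  exact le_of_tendsto_of_tendsto' (hyj j).norm (hCx (j + 1)) fun k => hyC k (j + 1)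

theorem pas_s {d : ℕ} {v : E d} (hd : 2 ≤ d) (hcop : IsCoprime (pol v.1) (pol v.2))
    (hdeg : max (pol v.1).natDegree (pol v.2).natDegree = d) (hJ : JS (Rf v) = univ)
    (hi : Rf v OnePoint.infty = OnePoint.infty) {x0 : ℂ}
    (hx0 : ∀ i, (Rf v)^[i] (x0 : OnePoint ℂ) ≠ OnePoint.infty) (hvb : Pool.Agent.H1.PU.VB v x0) {c : ℂ}
    (hc : (ww (pol v.1) (pol v.2)).eval c = 0) (hcf : ∀ i, (Rf v)^[i] (c : OnePoint ℂ) ≠ OnePoint.infty) :
    PasS d (pol v.1) (pol v.2) c := by
  intro η hη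
  have hrd : RatD d (pol v.1) (pol v.2) := ⟨hd, hcop, hdeg⟩
  obtain ⟨w', hw'⟩ := xi_surj (v0 := v) hrd hη
  obtain ⟨C, hC⟩ := hvb w'
  obtain ⟨a, ha⟩ : ∃ a, a = pol v.1 := ⟨_, rfl⟩
  obtain ⟨b, hb⟩ : ∃ b, b = pol v.2 := ⟨_, rfl⟩
  have hRf : Rf v = rat a b := by rw [ha, hb]; rfl
  have hjp := (Pool.Agent.H1.PU.jp_of hrd (c := c) (hJ ▸ mem_univ _)).tr c (hJ ▸ mem_univ _) _
    (hJ ▸ mem_univ (x0 : OnePoint ℂ))
  rw [← hb] at hw'
  rw [← ha, ← hb] at hC hc hjp ⊢
  rw [hRf] at hi hx0 hcf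
  have hε : ∀ k : ℕ, (0 : ℝ) < 1 / ((k : ℝ) + 1) := fun k => by positivity
  choose m u hu hum using fun k : ℕ => hjp _ (hε k)
  have hfin : ∀ k i, (rat a b)^[i] (u k : OnePoint ℂ) ≠ OnePoint.infty := by
    intro k i h1
    have h2 := inf_it hi (Nat.le_add_right i (m k)) h1
    rw [Function.iterate_add_apply, hum] at h2
    exact hx0 i h2
  have horb := fun k i => fin_orba hi (hfin k) i
  have hex : ∀ k, ∃ y : ℕ → ℂ, (∀ i, y (i + 1) = dg a b ((gg a b)^[i] (u k)) * y i + xi v w' ((gg a b)^[i] (u k))) ∧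
      ∀ i, ‖y i‖ ≤ C * (1 + ‖(gg a b)^[i] (u k)‖ ^ 2) := by
    intro k
    refine hC (m k) (fun i => (gg a b)^[i] (u k)) (fun i => ⟨(horb k i).1, Function.iterate_succ_apply' _ _ _⟩) ?_
    have h1 := (horb k (m k)).2
    rw [hum] at h1
    exact (OnePoint.coe_injective h1).symm
  choose y hy hyC using hex
  have hux : Tendsto (fun k => u k) atTop (𝓝 c) := by
    rw [tendsto_iff_norm_sub_tendsto_zero]
    exact squeeze_zero (fun k => norm_nonneg _) (fun k => (mem_ball_iff_norm.1 (hu k)).le)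
      tendsto_one_div_add_atTop_nhds_zero_nat
  have horc := fun i => fin_orba hi hcf i
  obtain ⟨z, hz⟩ : ∃ z : ℕ → ℂ, z = fun j => (gg a b)^[j] c := ⟨_, rfl⟩
  have hz0 : z 0 = c := by rw [hz]; rfl
  have hzs : ∀ j, z (j + 1) = a.eval (z j) / b.eval (z j) := by
    intro j
    rw [hz]
    show (gg a b)^[j + 1] c = gg a b ((gg a b)^[j] c)
    rw [Function.iterate_succ_apply']
  have hzb : ∀ j, b.eval (z j) ≠ 0 := by
    intro j
    rw [hz]
    exact (horc j).1
  have hvx := vx_s (a := a) (b := b) (w := η) (c := c) (C := C) (x := fun k i => (gg a b)^[i] (u k)) (y := y) hux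
    (fun k i => Function.iterate_succ_apply' _ _ _) (fun k i => by rw [hy, hw']) hyC hz0 hzs hzb hc
  have hPD : ∀ n, PD a b z n = tD a b n (gg a b c) := by
    intro n
    unfold PD tD
    refine Finset.prod_congr rfl fun i _ => ?_
    rw [hz]
    show dg a b ((gg a b)^[i + 1] c) = _
    rw [Function.iterate_succ_apply]
  have hC0 : 0 ≤ C := by
    have h1 := (norm_nonneg _).trans (hvx 0)
    by_contra hlt
    have h2 : 0 < 1 + ‖z (0 + 1)‖ ^ 2 := by positivity
    have h3 := mul_neg_of_neg_of_pos (not_le.1 hlt) h2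
    linarith
  refine ⟨C, fun n => ?_⟩
  by_cases h0 : tD a b n (gg a b c) = 0
  · rw [h0, norm_zero, mul_zero]
    positivity
  · have hn : ∀ i < n, dg a b (z (i + 1)) ≠ 0 := by
      intro i hi h1
      apply h0
      rw [← hPD]
      unfold PD
      exact Finset.prod_eq_zero (Finset.mem_range.2 hi) h1
    have h1 := vx_lam (w := η) hn
    have h2 : Lam a b η c n = dg a b (z 0) * 0 + η.eval (z 0) / b.eval (z 0) ^ 2 +
        ∑ k ∈ Finset.range n, (η.eval (z (k + 1)) / b.eval (z (k + 1)) ^ 2) / PD a b z (k + 1) := by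
      unfold Lam
      rw [Finset.sum_range_succ', add_comm, mul_zero, zero_add]
      congr 1
      · show η.eval c / b.eval c ^ 2 / tD a b 0 (gg a b c) = _
        rw [hz0]
        unfold tD
        rw [Finset.prod_range_zero, div_one]
      · refine Finset.sum_congr rfl fun k _ => ?_
        rw [hPD, hz]
    rw [← h2, hPD] at h1
    rw [← norm_mul, mul_comm, ← h1]
    have h3 := hvx n
    have h4 : z (n + 1) = (gg a b)^[n] (gg a b c) := by
      rw [hz]
      exact Function.iterate_succ_apply _ _ _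
    rw [h4] at h3
    exact h3

end Pool.Agent.H64.NC
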