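import Pool.Agent.H64.NC.SFZ

/-!
# Module SFY: the data for the corollaries of THEOREM NC, all families

`Dat f`: continuity, openness, finitely many critical points, the Julia set is closed and forward invariant, univalent pull backs, the attracted critical points stay away from the Julia set, no Julia critical value is conical. `dat_fam`: a map which is not a limit of maps of the family with more attracted critical points has these data.
-/

set_option autoImplicit false

open Filter Topology Polynomial Metric Set MeasureTheory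

namespace Pool.Agent.H64.NC

open Pool.Agent.H44.Fatou (rat rat_continuous)
open Pool.Agent.H56.HR (FS EqAt)
open Pool.Agent.H35.EX (chord)
open Pool.Agent.H32.BT Pool.Agent.H79.Eul Pool.Agent.H79.Par Pool.Agent.H79.ES Pool.Agent.H44.RC Pool.Agent.H47.RJ
open Pool.Agent.H47.NM Pool.Agent.H57.CF Pool.Agent.H44.ND Pool.Agent.H3.NC

variable {d : ℕ}

/-- the data for the corollaries -/
structure Dat (f : OnePoint ℂ → OnePoint ℂ) : Prop where
  cont : Continuous f
  opn : IsOpenMap f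
  fin : {c | IsCrit f c}.Finite
  Jc : IsClosed (JS f)
  Ji : ∀ x ∈ JS f, f x ∈ JS f
  uni : ∀ (x : OnePoint ℂ) (n : ℕ) (δ : ℝ), 0 < δ → δ ≤ 1 / 8 → (∀ k < n, ∀ c ∈ Wk f x n δ k, ¬ IsCrit f c) →
    Uni f x n δ
  fat : ∀ c, IsCrit f c → c ∉ JS f → ∃ (δ : ℝ) (N : ℕ), 0 < δ ∧ ∀ m, N ≤ m → ∀ y ∈ JS f, δ ≤ chord (f^[m] c) y
  nc : ∀ c, IsCrit f c → c ∈ JS f → ¬ CnS f (f c)

theorem dat_of {v : E d} (hd : 2 ≤ d) (hcop : IsCoprime (pol v.1) (pol v.2))
    (hdeg : max (pol v.1).natDegree (pol v.2).natDegree = d) (hfa : ∀ x ∈ FS (Rf v), Att (Rf v) x)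
    (haf : ∀ x, Att (Rf v) x → x ∈ FS (Rf v))
    (hnc : ∀ c, IsCrit (Rf v) c → c ∈ JS (Rf v) → ¬ ConAt (Rf v) (Rf v c)) : Dat (Rf v) where
  cont := rat_continuous hcop
  opn := rat_open hcop (by rw [hdeg]; omega)
  fin := crit_finite hcop (by rw [hdeg]; omega)
  Jc := js_closed _
  Ji x hx h1 := hx ((fs_iff (by omega) hcop hdeg 1 x).1 h1)
  uni x n δ hδ hδ1 hc := uni hcop (by rw [hdeg]; omega) hδ hδ1 hc
  fat := hfat_of hd hcop hdeg hfa haf
  nc := hnc

/-- all families -/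
theorem dat_fam {m : ℕ} (hd : 2 ≤ d) (hm : m ≤ d) {x : Em d m} (hcop : IsCoprime (pol x.1) (pol x.2))
    (hdeg : max (pol x.1).natDegree (pol x.2).natDegree = d) (hup : ¬ UpF d m x) : Dat (Rf (ex d m x)) := by
  have hcop' := ex_cop hcop
  have hdeg' := ex_deg hdeg
  have key : ¬ Up (ex d m x) → Dat (Rf (ex d m x)) := by
    intro hup1
    exact dat_of hd hcop' hdeg' (fun y hy => Pool.Agent.H64.MJ.fs_att hd hcop' hdeg' hup1 hy)
      (fun y hy => Pool.Agent.H44.NR.att_in hd hcop' hdeg' hup1 hy)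
      fun c hc hcJ => nc_end hd hcop' hdeg' hup1 hc hcJ
  rcases Nat.lt_or_ge m 2 with h2 | h2
  · rcases Nat.lt_or_ge m 1 with h1 | h1
    · obtain rfl : m = 0 := by omega
      exact key fun h => hup (up_zero h)
    · obtain rfl : m = 1 := by omega
      exact key fun h => hup (Pool.Agent.H64.PF.up_one hd hcop hdeg h)
  · refine dat_of hd hcop' hdeg' (fun y hy => Pool.Agent.H64.MF.fs_attF hd
      (fun k h3 h4 => Pool.Agent.H56.HF.fatF hd h3 h4) h2 hm hcop hdeg hup hy) (fun y hy => ?_)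
      fun c hc hcJ => nc_upF hd h2 hm hcop hdeg hup hc hcJ
    obtain ⟨l, z, φ, K, hl, hld, hg, hK, hφ, hup'⟩ := red_gen hd h2 hm hcop hdeg
    have hupz : ¬ UpF d l z := fun h => hup (hup' h)
    obtain ⟨T, hGA⟩ := ga_gen hd hl hld hg hupz
    have h3 : φ y ∈ FS (Rf (ex d l z)) := hGA.af _ ((att_conj φ hφ y).2 hy)
    exact (Pool.Agent.H76.SU.fs_conj hK hφ y).1 h3

/-- persistent recurrence -/
theorem Dat.pr {f : OnePoint ℂ → OnePoint ℂ} (h : Dat f) : ∀ c, IsCrit f c → c ∈ JS f → PR f c :=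
  prc h.cont h.fin h.Ji h.uni h.fat h.nc

end Pool.Agent.H64.NC
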