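import Pool.Agent.H64.NC.RN
import Pool.Agent.H61.TT.Lagr

/-!
# Module VX: bounded velocities along the orbit of a critical value

`VBd a b e`: the repelling cycles of `a / b` in the plane have bounded velocities in the directions `w / b ^ 2`, `w` of degree at most `e`.
`VX a b w z`: the velocities along the orbit `z` of a critical point `z 0` (`VX 1 = w (z 0) / b (z 0) ^ 2`).
`vx_bd`: they are bounded by a constant times the sum of the absolute values of the coefficients of `w`, if repelling cycles come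
arbitrarily near to `z 0`.
-/

set_option autoImplicit false

open Filter Topology Polynomial Metric Set

namespace Pool.Agent.H64.NC

open Pool.Agent.H47.NN (Cyc)
open Pool.Agent.H61.TT (dg gg ww)

variable {a b : Polynomial ℂ} {e : ℕ} {c : ℂ}

/-- bounded velocities of the repelling cycles -/
def VBd (a b : Polynomial ℂ) (e : ℕ) : Prop :=
  ∀ w : Polynomial ℂ, w.natDegree ≤ e → ∃ C : ℝ, ∀ (p : ℕ) (x : ℕ → ℂ) (m : ℂ), 0 < p →
    Cyc a b p x m → 1 < ‖m‖ → ∃ u : ℕ → ℂ, (∀ i, i ≤ p → ‖u i‖ ≤ C) ∧ u p = u 0 ∧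
      ∀ i, i < p → u (i + 1) = dg a b (x i) * u i + w.eval (x i) / b.eval (x i) ^ 2

/-- repelling cycles in the plane come arbitrarily near to `c` -/
def RNr (a b : Polynomial ℂ) (c : ℂ) : Prop :=
  ∀ ε : ℝ, 0 < ε → ∃ (p : ℕ) (x : ℕ → ℂ) (m : ℂ), 0 < p ∧ Cyc a b p x m ∧ 1 < ‖m‖ ∧ ‖x 0 - c‖ < ε ∧
    (∀ i, b.eval (x i) ≠ 0) ∧ ∀ i, x (i + 1) = a.eval (x i) / b.eval (x i)

/-- the velocities along the orbit `z` of the critical point `z 0` -/
noncomputable def VX (a b w : Polynomial ℂ) (z : ℕ → ℂ) : ℕ → ℂ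
  | 0 => 0
  | j + 1 => dg a b (z j) * VX a b w z j + w.eval (z j) / b.eval (z j) ^ 2

theorem per_ext {p : ℕ} {x u : ℕ → ℂ} {C : ℝ} {F G : ℂ → ℂ} (hp : 0 < p) (hx : Function.Periodic x p)
    (hb : ∀ i, i ≤ p → ‖u i‖ ≤ C) (hu0 : u p = u 0) (hu : ∀ i, i < p → u (i + 1) = F (x i) * u i + G (x i)) :
    ∃ y : ℕ → ℂ, (∀ i, ‖y i‖ ≤ C) ∧ ∀ i, y (i + 1) = F (x i) * y i + G (x i) := by
  refine ⟨fun i => u (i % p), fun i => hb _ (Nat.mod_lt _ hp).le, fun i => ?_⟩
  have h1 : x i = x (i % p) := (hx.map_mod_nat i).symm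
  have hr := Nat.mod_lt i hp
  show u ((i + 1) % p) = F (x i) * u (i % p) + G (x i)
  rw [h1, ← hu _ hr]
  by_cases h : i % p + 1 = p
  · rw [h, hu0]
    congr 1
    rw [Nat.add_mod]
    by_cases hp1 : p = 1
    · subst hp1
      exact Nat.mod_one _
    · rw [Nat.mod_eq_of_lt (show 1 < p by omega), h, Nat.mod_self]
  · congr 1
    have hp1 : 1 < p := by omega
    rw [Nat.add_mod, Nat.mod_eq_of_lt hp1, Nat.mod_eq_of_lt (by omega)]

theorem gg_cont {z : ℂ} (hz : b.eval z ≠ 0) : ContinuousAt (fun z => a.eval z / b.eval z) z :=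
  a.continuous.continuousAt.div b.continuous.continuousAt hz

theorem dg_cont {z : ℂ} (hz : b.eval z ≠ 0) : ContinuousAt (dg a b) z := by
  unfold dg
  exact (ww a b).continuous.continuousAt.div (b.continuous.continuousAt.pow 2) (pow_ne_zero 2 hz)

theorem vx_one (hV : VBd a b e) (hR : RNr a b c) {z : ℕ → ℂ} (h0 : z 0 = c)
    (hz : ∀ j, z (j + 1) = a.eval (z j) / b.eval (z j)) (hb : ∀ j, b.eval (z j) ≠ 0)
    (hc : (ww a b).eval c = 0) {w : Polynomial ℂ} (hw : w.natDegree ≤ e) :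
    ∃ C : ℝ, 0 ≤ C ∧ ∀ j, ‖VX a b w z j‖ ≤ C := by
  obtain ⟨C, hC⟩ := hV w hw
  have hε : ∀ k : ℕ, (0 : ℝ) < 1 / ((k : ℝ) + 1) := fun k => by positivity
  choose p x m hp hcy hm hxc hbx hxs using fun k : ℕ => hR _ (hε k)
  have hper : ∀ k, Function.Periodic (x k) (p k) := by
    intro k i
    induction i with
    | zero => rw [Nat.zero_add]; exact (hcy k).per
    | succ i ih =>
      have h1 : i + 1 + p k = i + p k + 1 := by omega
      rw [h1, hxs k, hxs k, ih]
  have hex : ∀ k, ∃ y : ℕ → ℂ, (∀ i, ‖y i‖ ≤ C) ∧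
      ∀ i, y (i + 1) = dg a b (x k i) * y i + w.eval (x k i) / b.eval (x k i) ^ 2 := by
    intro k
    obtain ⟨u, h1, h2, h3⟩ := hC (p k) (x k) (m k) (hp k) (hcy k) (hm k)
    exact per_ext (F := dg a b) (G := fun z => w.eval z / b.eval z ^ 2) (hp k) (hper k) h1 h2 h3
  choose y hyC hy using hex
  have hC0 : 0 ≤ C := (norm_nonneg _).trans (hyC 0 0)
  have hx0 : Tendsto (fun k => x k 0) atTop (𝓝 c) := by
    rw [tendsto_iff_norm_sub_tendsto_zero]
    exact squeeze_zero (fun k => norm_nonneg _) (fun k => (hxc k).le) tendsto_one_div_add_atTop_nhds_zero_nat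
  have hxj : ∀ j, Tendsto (fun k => x k j) atTop (𝓝 (z j)) := by
    intro j
    induction j with
    | zero => rw [h0]; exact hx0
    | succ j ih =>
      have h1 : (fun k => x k (j + 1)) = fun k => (fun z => a.eval z / b.eval z) (x k j) := by
        funext k
        exact hxs k j
      rw [h1, hz j]
      exact (gg_cont (hb j)).tendsto.comp ih
  have hwc : ∀ j, Tendsto (fun k => w.eval (x k j) / b.eval (x k j) ^ 2) atTop
      (𝓝 (w.eval (z j) / b.eval (z j) ^ 2)) := by
    intro j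
    have h1 : ContinuousAt (fun z => w.eval z / b.eval z ^ 2) (z j) :=
      w.continuous.continuousAt.div (b.continuous.continuousAt.pow 2) (pow_ne_zero 2 (hb j))
    exact h1.tendsto.comp (hxj j)
  have hdc : ∀ j, Tendsto (fun k => dg a b (x k j)) atTop (𝓝 (dg a b (z j))) := fun j =>
    (dg_cont (hb j)).tendsto.comp (hxj j)
  have hd0 : dg a b (z 0) = 0 := by
    unfold dg
    rw [h0, hc, zero_div]
  have hyj : ∀ j, Tendsto (fun k => y k (j + 1)) atTop (𝓝 (VX a b w z (j + 1))) := by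
    intro j
    induction j with
    | zero =>
      have h1 : Tendsto (fun k => dg a b (x k 0) * y k 0) atTop (𝓝 0) := by
        have h2 := hdc 0
        rw [hd0] at h2
        have h3 : Tendsto (fun k => ‖dg a b (x k 0)‖ * C) atTop (𝓝 (‖(0 : ℂ)‖ * C)) := h2.norm.mul_const C
        rw [norm_zero, zero_mul] at h3
        rw [tendsto_zero_iff_norm_tendsto_zero]
        refine squeeze_zero (fun k => norm_nonneg _) (fun k => ?_) h3
        rw [norm_mul]
        exact mul_le_mul_of_nonneg_left (hyC k 0) (norm_nonneg _)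
      have h2 : (fun k => y k (0 + 1)) = fun k => dg a b (x k 0) * y k 0 + w.eval (x k 0) / b.eval (x k 0) ^ 2 :=
        funext fun k => hy k 0
      rw [h2]
      show Tendsto _ _ (𝓝 (dg a b (z 0) * 0 + w.eval (z 0) / b.eval (z 0) ^ 2))
      rw [mul_zero]
      exact h1.add (hwc 0)
    | succ j ih =>
      have h2 : (fun k => y k (j + 1 + 1)) = fun k => dg a b (x k (j + 1)) * y k (j + 1) +
          w.eval (x k (j + 1)) / b.eval (x k (j + 1)) ^ 2 := funext fun k => hy k (j + 1)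
      rw [h2]
      exact ((hdc (j + 1)).mul ih).add (hwc (j + 1))
  refine ⟨C, hC0, fun j => ?_⟩
  cases j with
  | zero =>
    show ‖(0 : ℂ)‖ ≤ C
    rw [norm_zero]
    exact hC0
  | succ j => exact le_of_tendsto (hyj j).norm (Filter.Eventually.of_forall fun k => hyC k (j + 1))

theorem vx_lin (z : ℕ → ℂ) {w : Polynomial ℂ} (hw : w.natDegree ≤ e) (j : ℕ) :
    VX a b w z j = ∑ i ∈ Finset.range (e + 1), w.coeff i * VX a b (X ^ i) z j := by
  induction j with
  | zero =>
    show (0 : ℂ) = ∑ i ∈ Finset.range (e + 1), w.coeff i * 0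
    simp only [mul_zero, Finset.sum_const_zero]
  | succ j ih =>
    show dg a b (z j) * VX a b w z j + w.eval (z j) / b.eval (z j) ^ 2 =
      ∑ i ∈ Finset.range (e + 1), w.coeff i * (dg a b (z j) * VX a b (X ^ i) z j +
        (X ^ i : Polynomial ℂ).eval (z j) / b.eval (z j) ^ 2)
    rw [ih, eval_eq_sum_range' (Nat.lt_succ_of_le hw), Finset.mul_sum, Finset.sum_div, ← Finset.sum_add_distrib]
    refine Finset.sum_congr rfl fun i _ => ?_
    rw [eval_pow, eval_X]
    ring

/-- bounded velocities along the orbit of the critical value -/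
theorem vx_bd (hV : VBd a b e) (hR : RNr a b c) {z : ℕ → ℂ} (h0 : z 0 = c)
    (hz : ∀ j, z (j + 1) = a.eval (z j) / b.eval (z j)) (hb : ∀ j, b.eval (z j) ≠ 0)
    (hc : (ww a b).eval c = 0) :
    ∃ C : ℝ, 0 ≤ C ∧ ∀ w : Polynomial ℂ, w.natDegree ≤ e → ∀ j,
      ‖VX a b w z j‖ ≤ C * ∑ i ∈ Finset.range (e + 1), ‖w.coeff i‖ := by
  have hex : ∀ i, ∃ C : ℝ, 0 ≤ C ∧ (i ≤ e → ∀ j, ‖VX a b (X ^ i) z j‖ ≤ C) := by
    intro i
    by_cases hi : i ≤ e
    · obtain ⟨C, h1, h2⟩ := vx_one (w := X ^ i) hV hR h0 hz hb hc (by rw [natDegree_X_pow]; exact hi)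
      exact ⟨C, h1, fun _ => h2⟩
    · exact ⟨0, le_rfl, fun h => absurd h hi⟩
  choose C hC0 hC using hex
  refine ⟨∑ i ∈ Finset.range (e + 1), C i, Finset.sum_nonneg fun i _ => hC0 i, fun w hw j => ?_⟩
  rw [vx_lin z hw j, Finset.mul_sum]
  refine (norm_sum_le _ _).trans (Finset.sum_le_sum fun i hi => ?_)
  rw [norm_mul, mul_comm]
  refine mul_le_mul_of_nonneg_right ?_ (norm_nonneg _)
  have h1 : i ≤ e := Nat.lt_succ_iff.1 (Finset.mem_range.1 hi)
  exact (hC i h1 j).trans (Finset.single_le_sum (fun i _ => hC0 i) hi)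

/-- the product of the derivatives along the orbit from time 1 -/
noncomputable def PD (a b : Polynomial ℂ) (z : ℕ → ℂ) (n : ℕ) : ℂ :=
  ∏ i ∈ Finset.range n, dg a b (z (i + 1))

/-- the formula for the velocities -/
theorem vx_lam {w : Polynomial ℂ} {z : ℕ → ℂ} {n : ℕ} (hn : ∀ i < n, dg a b (z (i + 1)) ≠ 0) :
    VX a b w z (n + 1) = PD a b z n * (dg a b (z 0) * 0 + w.eval (z 0) / b.eval (z 0) ^ 2 +
      ∑ k ∈ Finset.range n, (w.eval (z (k + 1)) / b.eval (z (k + 1)) ^ 2) / PD a b z (k + 1)) := by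
  induction n with
  | zero =>
    rw [Finset.sum_range_zero, add_zero]
    unfold PD
    rw [Finset.prod_range_zero, one_mul]
    rfl
  | succ n ih =>
    have h1 := ih fun i hi => hn i (by omega)
    have h2 : PD a b z (n + 1) = PD a b z n * dg a b (z (n + 1)) := by
      unfold PD
      rw [Finset.prod_range_succ]
    have h3 : PD a b z (n + 1) ≠ 0 := by
      unfold PD
      exact Finset.prod_ne_zero_iff.2 fun i hi => hn i (Finset.mem_range.1 hi)
    show dg a b (z (n + 1)) * VX a b w z (n + 1) + w.eval (z (n + 1)) / b.eval (z (n + 1)) ^ 2 = _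
    rw [h1, Finset.sum_range_succ, ← add_assoc, mul_add (PD a b z (n + 1)), mul_div_cancel₀ _ h3, h2]
    ring

end Pool.Agent.H64.NC
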