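import Pool.Agent.H64.NC.MCJ
import Pool.Agent.H64.NC.SFY

/-!
# Module ZCJ: conical points of the postcritical set

`ConN f`: the conical points of the postcritical set have their limit points in nondegenerate components of the postcritical set. `Dat.zed`: it holds if there are no conical Julia critical values (`zed`, H31/NZ). `con_conj`: it is invariant under conjugacies of the sphere.
-/

set_option autoImplicit false

open Filter Topology Metric Set

namespace Pool.Agent.H64.NC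

open Pool.Agent.H35.EX Pool.Agent.H44.RR Pool.Agent.H32.BT Pool.Agent.H56.HR Pool.Agent.H44.RC
open Pool.Agent.H31.NZ (PJ)

/-- conical points of the postcritical set have their limit points in nondegenerate components -/
def ConN (f : OnePoint ℂ → OnePoint ℂ) : Prop :=
  ∀ x ∈ PJ f (JS f), ∀ (y : OnePoint ℂ) (δ : ℝ), 0 < δ →
    (∀ (N : ℕ) (ε : ℝ), 0 < ε → ∃ n : ℕ, N ≤ n ∧ chord (f^[n] x) y < ε ∧ ∃ W : Set (OnePoint ℂ), IsOpen W ∧
      x ∈ W ∧ InjOn f^[n] W ∧ {z | chord (f^[n] x) z < δ} ⊆ f^[n] '' W) →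
    connectedComponentIn (PJ f (JS f)) y ≠ {y}

variable {f g : OnePoint ℂ → OnePoint ℂ} (h : OnePoint ℂ ≃ₜ OnePoint ℂ)

theorem con_conj (hfg : ∀ x, h (f x) = g (h x)) (hc : ConN g) : ConN f := by
  intro x hx y δ hδ hcon hcomp
  have hit : ∀ (n : ℕ) (y : OnePoint ℂ), g^[n] (h y) = h (f^[n] y) := iter_conj h fun y => (hfg y).symm
  obtain ⟨δ', hδ', h1⟩ := ch_uc1 h.symm.continuous hδ
  have hpj := pj_img h hfg
  refine hc (h x) (by rw [← hpj]; exact ⟨x, hx, rfl⟩) (h y) δ' hδ' ?_ ?_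
  · intro N ε hε
    obtain ⟨η, hη, h2⟩ := ch_uc1 h.continuous hε
    obtain ⟨n, hn, hny, W, hW, hxW, hinj, himg⟩ := hcon N η hη
    refine ⟨n, hn, ?_, h '' W, h.isOpenMap _ hW, ⟨x, hxW, rfl⟩, ?_, ?_⟩
    · rw [hit]
      exact h2 _ _ hny
    · rintro _ ⟨t1, ht1, rfl⟩ _ ⟨t2, ht2, rfl⟩ he
      rw [hit, hit] at he
      rw [hinj ht1 ht2 (h.injective he)]
    · intro z hz
      have hz' : chord (g^[n] (h x)) z < δ' := hz
      rw [hit] at hz'
      have h3 := h1 _ _ hz'
      rw [h.symm_apply_apply] at h3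
      obtain ⟨t, ht, he⟩ := himg h3
      refine ⟨h t, ⟨t, ht, rfl⟩, ?_⟩
      rw [hit, he, h.apply_symm_apply]
  · by_cases hy : y ∈ PJ f (JS f)
    · rw [← hpj, ← h.image_connectedComponentIn hy, hcomp, image_singleton]
    · rw [connectedComponentIn_eq_empty hy] at hcomp
      exact absurd hcomp (singleton_ne_empty y).symm

theorem Dat.zed (h : Dat f) : ConN f := by
  intro x hx y δ hδ hcon
  exact (Pool.Agent.H31.NZ.zed h.cont h.opn h.fin h.Jc h.Ji h.uni h.fat h.nc hx hδ hcon).2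

end Pool.Agent.H64.NC
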